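import Pool.Agent.KS6_27.HQ.Cons

/-!
# The layer structure and the assignment of the classes
-/

set_option autoImplicit false

namespace Pool.Agent.KS6_27.HQ

open Pool.Agent.Helper886 Pool.Agent.Helper886.HCube Function

/-- the indices of the coordinates which lead to the other layers -/
abbrev II (l k : ℕ) : Type := (Fin l → ZMod 2) × {t : Fin k → ZMod 2 // t ≠ 0}

/-- the coordinates of the layers -/
abbrev EE (l k k' : ℕ) : Type := II l k ⊕ Fin k'

section

variable {l k k' : ℕ}

/-- sums over the support of a layer -/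
def SS {A : Type} [AddCommGroup A] (φ : II l k → A) (g : EE l k k' → Bool) : A :=
  ∑ i : II l k, if g (.inl i) = true then φ i else 0

theorem SS_flip_inl {A : Type} [AddCommGroup A] (h2 : ∀ a : A, a + a = 0) (φ : II l k → A)
    (g : EE l k k' → Bool) (i : II l k) : SS φ (HCube.flip (.inl i) g) = SS φ g + φ i := by
  classical
  unfold SS
  rw [← Finset.add_sum_erase _ _ (Finset.mem_univ i), ← Finset.add_sum_erase (Finset.univ) (fun j =>
    if g (.inl j) = true then φ j else 0) (Finset.mem_univ i)]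
  have h1 : ∑ x ∈ Finset.univ.erase i, (if HCube.flip (Sum.inl i) g (Sum.inl x) = true then φ x else 0)
      = ∑ x ∈ Finset.univ.erase i, (if g (Sum.inl x) = true then φ x else 0) := by
    refine Finset.sum_congr rfl ?_
    intro x hx
    rw [flip_ne]
    intro h
    exact (Finset.mem_erase.mp hx).1 (Sum.inl_injective h)
  rw [h1, flip_same]
  cases g (Sum.inl i)
  · simp; abel
  · simp only [Bool.not_true, Bool.false_eq_true, if_false, if_true, zero_add]
    rw [add_comm (φ i), add_assoc, h2, add_zero]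

theorem SS_flip_inr {A : Type} [AddCommGroup A] (φ : II l k → A)
    (g : EE l k k' → Bool) (j : Fin k') : SS φ (HCube.flip (.inr j) g) = SS φ g := by
  classical
  unfold SS
  refine Finset.sum_congr rfl ?_
  intro x _
  rw [flip_ne (by simp)]

theorem zz2 {l : ℕ} (a : Fin l → ZMod 2) : a + a = 0 := by
  funext i
  exact CharTwo.add_self_eq_zero _

/-- the syndrome of a layer -/
def sg (g : EE l k k' → Bool) : Fin k → ZMod 2 := SS (fun i => (i.2 : Fin k → ZMod 2)) g

/-- the hash of a layer -/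
def ps (g : EE l k k' → Bool) : Fin l → ZMod 2 := SS (fun i => i.1) g

/-- the layers used for the connections -/
def TT (g : EE l k k' → Bool) : Prop := sg g = 0 ∨ ∀ j, g (.inr j) = false

theorem TT_zero : TT (l := l) (k := k) (k' := k') (fun _ => false) := Or.inr fun _ => rfl

theorem TT_flip {g : EE l k k' → Bool} (hg : ¬ TT g) (ρ : Fin l → ZMod 2) :
    TT (HCube.flip (.inl (ρ, ⟨sg g, fun h => hg (Or.inl h)⟩)) g) := by
  left
  unfold sg
  rw [SS_flip_inl zz2]
  exact zz2 _

theorem TT_dir (z : EE l k k' → Bool) (hz : TT z) (h0 : z ≠ fun _ => false) :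
    ∃ e, z e = true ∧ TT (HCube.flip e z) := by
  by_cases h : ∃ j, z (.inr j) = true
  · obtain ⟨j, hj⟩ := h
    refine ⟨.inr j, hj, ?_⟩
    left
    rcases hz with hz | hz
    · unfold sg
      rw [SS_flip_inr]
      exact hz
    · rw [hz j] at hj
      exact absurd hj (by simp)
  · push Not at h
    have h1 : ∃ i, z (.inl i) = true := by
      by_contra h2
      push Not at h2
      apply h0
      funext e
      rcases e with i | j
      · simpa using h2 i
      · simpa using h j
    obtain ⟨i, hi⟩ := h1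
    refine ⟨.inl i, hi, Or.inr ?_⟩
    intro j
    rw [flip_ne (by simp)]
    simpa using h j

/-- the change of the hash under a flip -/
def dps (e : EE l k k') : Fin l → ZMod 2 := match e with
  | .inl i => i.1
  | .inr _ => 0

theorem ps_flip (e : EE l k k') (z : EE l k k' → Bool) :
    ps (HCube.flip e z) = ps z + dps e := by
  rcases e with i | j
  · unfold ps
    rw [SS_flip_inl zz2]
    rfl
  · unfold ps
    rw [SS_flip_inr]
    simp [dps]

theorem build {m : ℕ} (e0 : EE l k k') (k0 q4 K : ℕ) (hK : 0 < K) (hK4 : 4 * (8 * k0) ≤ K)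
    (hK2 : K + 2 * q4 + 4 ≤ 2 ^ l)
    (ζ : EE l k k' × (Fin l → ZMod 2) → (Fin m → Bool)) (hζ : Injective ζ)
    (M R : (EE l k k' → Bool) → (Fin (m + 1) → Bool) → (Fin (m + 1) → Bool))
    (U : (EE l k k' → Bool) → Finset (Fin (m + 1) → Bool))
    (B : (EE l k k' → Bool) → Finset (Fin m → Bool))
    (hM : ∀ g x, M g (M g x) = x) (hMf : ∀ g x, ∃ i, M g x = HCube.flip i x)
    (hR : ∀ g x, R g (R g x) = x) (hRf : ∀ g x, ∃ i, R g x = HCube.flip i x)
    (hU1 : ∀ g, ¬ TT g → ∀ u ∈ U g, M g u ∉ U g)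
    (hU2 : ∀ g, ¬ TT g → ∀ x, ∃ u ∈ U g, Reach (M g) (R g) x u)
    (hB : ∀ g, ¬ TT g → ∀ u ∈ U g, cell u ∈ B g ∧ cell (M g u) ∈ B g)
    (hlt : ∀ (g : EE l k k' → Bool) (t : {t : Fin k → ZMod 2 // t ≠ 0}) (y : Fin m → Bool),
      (Finset.univ.filter (fun ρ : Fin l → ZMod 2 => k0 ≤ (Finset.univ.filter (fun i : II l k =>
        y ∈ B (HCube.flip (.inl i) (HCube.flip (.inl (ρ, t)) g)))).card)).card ≤ q4) :
    ∃ L N : VX (EE l k k') m → VX (EE l k k') m, (∀ v, L (L v) = v) ∧ (∀ v, N (N v) = v) ∧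
      (∀ v, AdjX v (L v)) ∧
      (∀ v, ∃ i, N v = (v.1, HCube.flip i v.2)) ∧ (∀ g x, ¬ TT g → N (g, x) = (g, R g x)) ∧
      (∀ v w, Reach L N v w) ∧ ∀ g x, ¬ TT g → rec' L (g, x) = M g x := by
  classical
  -- directions
  let dir : (EE l k k' → Bool) → EE l k k' := fun z =>
    if h : ∃ e, z e = true ∧ TT (HCube.flip e z) then h.choose else e0
  have hdir : ∀ z, TT z → z ≠ (fun _ => false) → z (dir z) = true ∧ TT (HCube.flip (dir z) z) := by
    intro z hz h0
    have h := TT_dir z hz h0
    simp only [dir, h, dif_pos]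
    exact h.choose_spec
  let ce : (EE l k k' → Bool) → (Fin m → Bool) := fun z => ζ (dir z, ps z)
  let Res : (EE l k k' → Bool) → (Fin m → Bool) → Prop := fun h y =>
    ∃ z, TT z ∧ z ≠ (fun _ => false) ∧ (h = z ∨ h = HCube.flip (dir z) z) ∧ y = ce z
  -- classes
  let C : Type := {p : (EE l k k' → Bool) × (Fin (m + 1) → Bool) // ¬ TT p.1 ∧ p.2 ∈ U p.1}
  let tt : C → {t : Fin k → ZMod 2 // t ≠ 0} := fun p => ⟨sg p.1.1, fun h => p.2.1 (Or.inl h)⟩
  let hh : C → (Fin l → ZMod 2) → (EE l k k' → Bool) := fun p ρ =>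
    HCube.flip (.inl (ρ, tt p)) p.1.1
  have hhT : ∀ p ρ, TT (hh p ρ) := fun p ρ => TT_flip p.2.1 ρ
  let light : (EE l k k' → Bool) → (Fin m → Bool) → Prop := fun h y =>
    (Finset.univ.filter (fun i : II l k => y ∈ B (HCube.flip (.inl i) h))).card < k0
  let c1 : C → (Fin m → Bool) := fun p => cell p.1.2
  let c2 : C → (Fin m → Bool) := fun p => cell (M p.1.1 p.1.2)
  let Lst : C → Finset (Fin l → ZMod 2) := fun p => Finset.univ.filter (fun ρ =>
    light (hh p ρ) (c1 p) ∧ light (hh p ρ) (c2 p) ∧ ¬ Res (hh p ρ) (c1 p) ∧ ¬ Res (hh p ρ) (c2 p))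
  let conf : C → (Fin l → ZMod 2) → C → (Fin l → ZMod 2) → Prop := fun p ρ p' ρ' =>
    hh p ρ = hh p' ρ' ∧ (c1 p = c1 p' ∨ c1 p = c2 p' ∨ c2 p = c1 p' ∨ c2 p = c2 p')
  -- the number of the reserved alternatives
  have hResc : ∀ (p : C) (y : Fin m → Bool),
      (Finset.univ.filter (fun ρ => Res (hh p ρ) y)).card ≤ 2 := by
    intro p y
    by_cases hy : ∃ ea, ζ ea = y
    · obtain ⟨⟨e, a⟩, hea⟩ := hy
      have hsub : Finset.univ.filter (fun ρ => Res (hh p ρ) y) ⊆
          {ps p.1.1 + a, ps p.1.1 + a + dps e} := by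
        intro ρ hρ
        rw [Finset.mem_filter] at hρ
        obtain ⟨_, z, hz, hz0, hhz, hyz⟩ := hρ
        have h1 : ζ (e, a) = ζ (dir z, ps z) := hea.trans hyz
        have h2 := hζ h1
        have h3 : e = dir z := congrArg Prod.fst h2
        have h4 : a = ps z := congrArg Prod.snd h2
        have h5 : ps (hh p ρ) = ps p.1.1 + ρ := ps_flip _ _
        rw [Finset.mem_insert, Finset.mem_singleton]
        rcases hhz with h6 | h6
        · left
          rw [h4, ← h6, h5, ← add_assoc, zz2, zero_add]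
        · right
          have h7 : ps (hh p ρ) = ps z + dps e := by rw [h6, ps_flip, ← h3]
          rw [h5] at h7
          rw [h4, add_assoc, ← h7, ← add_assoc, zz2, zero_add]
      exact (Finset.card_le_card hsub).trans Finset.card_le_two
    · have : Finset.univ.filter (fun ρ => Res (hh p ρ) y) = ∅ := by
        rw [Finset.filter_eq_empty_iff]
        rintro ρ _ ⟨z, _, _, _, hyz⟩
        exact hy ⟨_, hyz.symm⟩
      rw [this]
      simp
  have hLstc : ∀ p, K ≤ (Lst p).card := by
    intro p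
    have hcov : (Finset.univ : Finset (Fin l → ZMod 2)) ⊆ Lst p ∪
        ((Finset.univ.filter (fun ρ => ¬ light (hh p ρ) (c1 p)) ∪
          Finset.univ.filter (fun ρ => ¬ light (hh p ρ) (c2 p))) ∪
        (Finset.univ.filter (fun ρ => Res (hh p ρ) (c1 p)) ∪
          Finset.univ.filter (fun ρ => Res (hh p ρ) (c2 p)))) := by
      intro ρ hρ
      by_cases b1 : light (hh p ρ) (c1 p)
      · by_cases b2 : light (hh p ρ) (c2 p)
        · by_cases b3 : Res (hh p ρ) (c1 p)
          · exact Finset.mem_union_right _ (Finset.mem_union_right _ (Finset.mem_union_left _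
              (Finset.mem_filter.mpr ⟨hρ, b3⟩)))
          · by_cases b4 : Res (hh p ρ) (c2 p)
            · exact Finset.mem_union_right _ (Finset.mem_union_right _ (Finset.mem_union_right _
                (Finset.mem_filter.mpr ⟨hρ, b4⟩)))
            · exact Finset.mem_union_left _ (Finset.mem_filter.mpr ⟨hρ, b1, b2, b3, b4⟩)
        · exact Finset.mem_union_right _ (Finset.mem_union_left _ (Finset.mem_union_right _
            (Finset.mem_filter.mpr ⟨hρ, b2⟩)))
      · exact Finset.mem_union_right _ (Finset.mem_union_left _ (Finset.mem_union_left _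
            (Finset.mem_filter.mpr ⟨hρ, b1⟩)))
    have h1 := Finset.card_le_card hcov
    have h2 : (Finset.univ : Finset (Fin l → ZMod 2)).card = 2 ^ l := by
      rw [Finset.card_univ]; simp
    rw [h2] at h1
    have hl : ∀ y, (Finset.univ.filter (fun ρ => ¬ light (hh p ρ) y)).card ≤ q4 := by
      intro y
      refine le_trans (Finset.card_le_card ?_) (hlt p.1.1 (tt p) y)
      intro ρ hρ
      rw [Finset.mem_filter] at hρ ⊢
      exact ⟨hρ.1, not_lt.mp hρ.2⟩
    have h3 := Finset.card_union_le (Lst p)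
        ((Finset.univ.filter (fun ρ => ¬ light (hh p ρ) (c1 p)) ∪
          Finset.univ.filter (fun ρ => ¬ light (hh p ρ) (c2 p))) ∪
        (Finset.univ.filter (fun ρ => Res (hh p ρ) (c1 p)) ∪
          Finset.univ.filter (fun ρ => Res (hh p ρ) (c2 p))))
    have h4 := Finset.card_union_le (Finset.univ.filter (fun ρ => ¬ light (hh p ρ) (c1 p)) ∪
          Finset.univ.filter (fun ρ => ¬ light (hh p ρ) (c2 p)))
        (Finset.univ.filter (fun ρ => Res (hh p ρ) (c1 p)) ∪
          Finset.univ.filter (fun ρ => Res (hh p ρ) (c2 p)))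
    have h5 := Finset.card_union_le (Finset.univ.filter (fun ρ => ¬ light (hh p ρ) (c1 p)))
          (Finset.univ.filter (fun ρ => ¬ light (hh p ρ) (c2 p)))
    have h6 := Finset.card_union_le (Finset.univ.filter (fun ρ => Res (hh p ρ) (c1 p)))
          (Finset.univ.filter (fun ρ => Res (hh p ρ) (c2 p)))
    have h7 := hl (c1 p)
    have h8 := hl (c2 p)
    have h9 := hResc p (c1 p)
    have h10 := hResc p (c2 p)
    omega
  have hdeg : ∀ p, ∀ ρ ∈ Lst p, ∀ T : Finset (C × (Fin l → ZMod 2)),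
      (∀ q ∈ T, q.1 ≠ p ∧ q.2 ∈ Lst q.1 ∧ conf p ρ q.1 q.2) → T.card ≤ 8 * k0 := by
    intro p ρ hρ T hT
    set h := hh p ρ with hh_def
    let ts : (Fin m → Bool) → Finset (II l k) := fun y =>
      Finset.univ.filter (fun i : II l k => y ∈ B (HCube.flip (.inl i) h))
    have hρ' := hρ
    simp only [Lst, Finset.mem_filter, Finset.mem_univ, true_and] at hρ'
    have hts1 : (ts (c1 p)).card ≤ k0 := le_of_lt hρ'.1
    have hts2 : (ts (c2 p)).card ≤ k0 := le_of_lt hρ'.2.1
    let W : (Fin (m + 1) → Bool) → Finset (II l k × (Fin (m + 1) → Bool)) := fun y =>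
      (ts (cell y)).biUnion (fun i =>
        ({y, HCube.flip 0 y, M (HCube.flip (.inl i) h) y,
          M (HCube.flip (.inl i) h) (HCube.flip 0 y)} : Finset (Fin (m + 1) → Bool)).image
            (fun w => (i, w)))
    have hW : ∀ y, (ts (cell y)).card ≤ k0 → (W y).card ≤ k0 * 4 := by
      intro y hy
      refine Finset.card_biUnion_le.trans ?_
      refine (Finset.sum_le_card_nsmul _ _ 4 ?_).trans ?_
      · intro i _
        refine Finset.card_image_le.trans ?_
        exact Finset.card_le_four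
      · rw [smul_eq_mul]
        exact Nat.mul_le_mul_right _ hy
    let Φ : C × (Fin l → ZMod 2) → II l k × (Fin (m + 1) → Bool) := fun q =>
      ((q.2, tt q.1), q.1.1.2)
    have hinj : Set.InjOn Φ (T : Set (C × (Fin l → ZMod 2))) := by
      rintro ⟨p1, ρ1⟩ h1 ⟨p2, ρ2⟩ h2 heq
      have e1 := (hT _ h1).2.2.1
      have e2 := (hT _ h2).2.2.1
      simp only at e1 e2
      have e3 : ((ρ1, tt p1) : II l k) = (ρ2, tt p2) :=
          congrArg (fun z : II l k × (Fin (m + 1) → Bool) => z.1) heq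
      have e4 : p1.1.2 = p2.1.2 :=
          congrArg (fun z : II l k × (Fin (m + 1) → Bool) => z.2) heq
      have e5 : ρ1 = ρ2 := congrArg Prod.fst e3
      have e6 : HCube.flip (.inl (ρ1, tt p1)) p1.1.1 =
          HCube.flip (.inl (ρ2, tt p2)) p2.1.1 := e1.symm.trans e2
      rw [e3] at e6
      have e7 := flip_inj e6
      have e8 : p1 = p2 := Subtype.ext (Prod.ext e7 e4)
      rw [e8, e5]
    have hmaps : ∀ q ∈ T, Φ q ∈ W p.1.2 ∪ W (M p.1.1 p.1.2) := by
      rintro ⟨p', ρ'⟩ hq
      obtain ⟨_, _, hconf⟩ := hT _ hq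
      obtain ⟨hheq, hcells⟩ := hconf
      simp only at hheq hcells
      have hg' : p'.1.1 = HCube.flip (.inl (ρ', tt p')) h := by
        have : h = HCube.flip (.inl (ρ', tt p')) p'.1.1 := hheq
        rw [this, HCube.flip_flip]
      have hB' := hB p'.1.1 p'.2.1 p'.1.2 p'.2.2
      -- the general membership
      have hmem : ∀ y, (cell y = c1 p' ∨ cell y = c2 p') → Φ (p', ρ') ∈ W y := by
        intro y hy
        simp only [W, Finset.mem_biUnion, Finset.mem_image]
        refine ⟨(ρ', tt p'), ?_, p'.1.2, ?_, rfl⟩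
        · simp only [ts, Finset.mem_filter, Finset.mem_univ, true_and]
          rw [← hg']
          rcases hy with hy | hy
          · rw [hy]; exact hB'.1
          · rw [hy]; exact hB'.2
        · rw [← hg']
          simp only [Finset.mem_insert, Finset.mem_singleton]
          rcases hy with hy | hy
          · rcases cell_eq hy with h3 | h3
            · left; exact h3.symm
            · right; left; rw [h3, HCube.flip_flip]
          · rcases cell_eq hy with h3 | h3
            · right; right; left; rw [h3, hM]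
            · right; right; right; rw [h3, HCube.flip_flip, hM]
      rw [Finset.mem_union]
      rcases hcells with h3 | h3 | h3 | h3
      · left; exact hmem _ (Or.inl h3)
      · left; exact hmem _ (Or.inr h3)
      · right; exact hmem _ (Or.inl h3)
      · right; exact hmem _ (Or.inr h3)
    have h1 := Finset.card_le_card_of_injOn Φ hmaps hinj
    have h2 := Finset.card_union_le (W p.1.2) (W (M p.1.1 p.1.2))
    have h3 := hW p.1.2 hts1
    have h4 := hW (M p.1.1 p.1.2) hts2
    omega
  obtain ⟨σ, hσ1, hσ2⟩ := select Lst conf K (8 * k0) hK hK4 hLstc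
    (by
      rintro v a w b ⟨h1, h2⟩
      refine ⟨h1.symm, ?_⟩
      rcases h2 with h2 | h2 | h2 | h2
      · exact Or.inl h2.symm
      · exact Or.inr (Or.inr (Or.inl h2.symm))
      · exact Or.inr (Or.inl h2.symm)
      · exact Or.inr (Or.inr (Or.inr h2.symm))) hdeg
  let τ : (EE l k k' → Bool) → (Fin (m + 1) → Bool) → EE l k k' := fun g u =>
    if h : ¬ TT g ∧ u ∈ U g then .inl (σ ⟨(g, u), h⟩, tt ⟨(g, u), h⟩) else e0
  have hτ : ∀ g u (h : ¬ TT g ∧ u ∈ U g), HCube.flip (τ g u) g = hh ⟨(g, u), h⟩ (σ ⟨(g, u), h⟩) := by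
    intro g u h
    simp only [τ, h, dif_pos, not_false_eq_true, and_self]
    rfl
  refine cons TT M R (fun g => (U g : Set _)) τ dir ce TT_zero hM hMf hR hRf hU1 hU2 ?_ ?_ hdir ?_ ?_
  · intro g hg u hu
    rw [hτ g u ⟨hg, hu⟩]
    exact hhT _ _
  · intro g g' hg hg' u hu u' hu' heq y hy y' hy' hc
    rw [hτ g u ⟨hg, hu⟩, hτ g' u' ⟨hg', hu'⟩] at heq
    by_contra hne
    have hpne : (⟨(g, u), hg, hu⟩ : C) ≠ ⟨(g', u'), hg', hu'⟩ := by
      intro h
      apply hne
      have h2 : ((g, u) : (EE l k k' → Bool) × (Fin (m + 1) → Bool)) = (g', u') :=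
        congrArg Subtype.val h
      exact ⟨congrArg Prod.fst h2, congrArg Prod.snd h2⟩
    refine hσ2 _ _ hpne ⟨heq, ?_⟩
    rcases hy with hy | hy <;> rcases hy' with hy' | hy' <;> subst hy <;> subst hy'
    · exact Or.inl hc
    · exact Or.inr (Or.inl hc)
    · exact Or.inr (Or.inr (Or.inl hc))
    · exact Or.inr (Or.inr (Or.inr hc))
  · intro z z' _ _ _ _ h
    exact congrArg Prod.fst (hζ h)
  · intro g hg u hu y hy z hz hz0 hhz hc
    rw [hτ g u ⟨hg, hu⟩] at hhz
    have h1 := hσ1 ⟨(g, u), hg, hu⟩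
    simp only [Lst, Finset.mem_filter, Finset.mem_univ, true_and] at h1
    rcases hy with hy | hy
    · exact h1.2.2.1 ⟨z, hz, hz0, hhz, by rw [← hc, hy]⟩
    · exact h1.2.2.2 ⟨z, hz, hz0, hhz, by rw [← hc, hy]⟩

end

end Pool.Agent.KS6_27.HQ
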