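import Mathlib

/-!
# A selection lemma (Rosenfeld's counting argument) and the glueing of involutions
-/

set_option autoImplicit false

namespace Pool.Agent.KS6_27.HQ

open Finset Function

theorem select {C Λ : Type} [Fintype C] [DecidableEq C] [Fintype Λ] [DecidableEq Λ]
    (Lst : C → Finset Λ) (conf : C → Λ → C → Λ → Prop) (K D : ℕ) (hK : 0 < K) (hD : 4 * D ≤ K)
    (hL : ∀ v, K ≤ (Lst v).card)
    (hsymm : ∀ v a w b, conf v a w b → conf w b v a)
    (hconf : ∀ v, ∀ a ∈ Lst v, ∀ T : Finset (C × Λ),
      (∀ p ∈ T, p.1 ≠ v ∧ p.2 ∈ Lst p.1 ∧ conf v a p.1 p.2) → T.card ≤ D) :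
    ∃ σ : C → Λ, (∀ v, σ v ∈ Lst v) ∧ ∀ v w, v ≠ w → ¬ conf v (σ v) w (σ w) := by
  classical
  set Ω : Finset (C → Λ) := Fintype.piFinset Lst with hΩ
  let cf : Finset C → (C → Λ) → Prop := fun S σ =>
    ∀ v ∈ S, ∀ w ∈ S, v ≠ w → ¬ conf v (σ v) w (σ w)
  let N : Finset C → Finset (C → Λ) := fun S => Ω.filter (cf S)
  have key : ∀ n (S : Finset C), S.card = n → ∀ v ∉ S,
      (N S).card ≤ 2 * (N (insert v S)).card := by
    intro n
    induction n using Nat.strong_induction_on with
    | _ n ih =>
    intro S hS v hv
    have hLv : 0 < (Lst v).card := lt_of_lt_of_le hK (hL v)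
    let bad : Λ → Finset (C → Λ) := fun a =>
      (N S).filter (fun σ => σ v = a ∧ ∃ w ∈ S, conf v a w (σ w))
    have hbad : ∀ a ∈ Lst v, (Lst v).card * K * (bad a).card ≤ D * (2 * (N S).card) := by
      intro a ha
      set Cf : Finset (C × Λ) := Finset.univ.filter
        (fun p : C × Λ => p.1 ∈ S ∧ p.1 ≠ v ∧ p.2 ∈ Lst p.1 ∧ conf v a p.1 p.2) with hCf
      have hCfc : Cf.card ≤ D := hconf v a ha Cf (by
        intro p hp
        rw [hCf, mem_filter] at hp
        exact hp.2.2)
      let P : C × Λ → Finset (C → Λ) := fun p =>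
        Ω.filter (fun σ => σ v = a ∧ σ p.1 = p.2 ∧ cf (S.erase p.1) σ)
      have hP : ∀ p ∈ Cf, (Lst v).card * (Lst p.1).card * (P p).card ≤ (N (S.erase p.1)).card := by
        rintro ⟨w, b⟩ hp
        rw [hCf, mem_filter] at hp
        obtain ⟨_, hwS, hwv, hb, _⟩ := hp
        simp only at hwS hwv hb ⊢
        rw [← card_product, ← card_product]
        refine Finset.card_le_card_of_injOn
          (fun q : (Λ × Λ) × (C → Λ) => update (update q.2 v q.1.1) w q.1.2) ?_ ?_
        · rintro ⟨⟨a', b'⟩, σ⟩ hq
          simp only [mem_coe, mem_product] at hq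
          obtain ⟨⟨ha', hb'⟩, hσ⟩ := hq
          simp only [P, mem_filter, hΩ, Fintype.mem_piFinset] at hσ
          obtain ⟨hσ1, hσ2, hσ3, hσ4⟩ := hσ
          simp only [mem_coe, N, mem_filter, hΩ, Fintype.mem_piFinset]
          refine ⟨?_, ?_⟩
          · intro x
            by_cases hxw : x = w
            · subst hxw; rw [update_self]; exact hb'
            · rw [update_of_ne hxw]
              by_cases hxv : x = v
              · subst hxv; rw [update_self]; exact ha'
              · rw [update_of_ne hxv]; exact hσ1 x
          · intro x hx y hy hxy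
            have hxw : x ≠ w := (mem_erase.mp hx).1
            have hyw : y ≠ w := (mem_erase.mp hy).1
            have hxv : x ≠ v := fun h => hv (h ▸ (mem_erase.mp hx).2)
            have hyv : y ≠ v := fun h => hv (h ▸ (mem_erase.mp hy).2)
            rw [update_of_ne hxw, update_of_ne hyw, update_of_ne hxv, update_of_ne hyv]
            exact hσ4 x hx y hy hxy
        · rintro ⟨⟨a1, b1⟩, σ1⟩ h1 ⟨⟨a2, b2⟩, σ2⟩ h2 heq
          simp only [mem_coe, mem_product, P, mem_filter] at h1 h2
          simp only at heq
          have hvw : v ≠ w := fun h => hwv h.symm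
          have e1 : a1 = a2 := by
            have := congrFun heq v
            rwa [update_of_ne hvw, update_of_ne hvw, update_self, update_self] at this
          have e2 : b1 = b2 := by
            have := congrFun heq w
            rwa [update_self, update_self] at this
          have e3 : σ1 = σ2 := by
            funext x
            by_cases hxw : x = w
            · subst hxw; rw [h1.2.2.2.1, h2.2.2.2.1]
            · by_cases hxv : x = v
              · subst hxv; rw [h1.2.2.1, h2.2.2.1]
              · have := congrFun heq x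
                rwa [update_of_ne hxw, update_of_ne hxw, update_of_ne hxv,
                  update_of_ne hxv] at this
          rw [e1, e2, e3]
      have hsub : bad a ⊆ Cf.biUnion P := by
        intro σ hσ
        simp only [bad, N, mem_filter] at hσ
        obtain ⟨⟨hσΩ, hσcf⟩, hσv, w, hw, hcw⟩ := hσ
        rw [mem_biUnion]
        refine ⟨(w, σ w), ?_, ?_⟩
        · rw [hCf, mem_filter]
          refine ⟨mem_univ _, hw, fun h => hv (h ▸ hw), ?_, hcw⟩
          exact (Fintype.mem_piFinset.mp hσΩ) w
        · simp only [P, mem_filter]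
          refine ⟨hσΩ, hσv, trivial, ?_⟩
          intro x hx y hy hxy
          exact hσcf x (mem_erase.mp hx).2 y (mem_erase.mp hy).2 hxy
      calc (Lst v).card * K * (bad a).card
          ≤ (Lst v).card * K * ∑ p ∈ Cf, (P p).card :=
            Nat.mul_le_mul_left _ ((card_le_card hsub).trans card_biUnion_le)
        _ = ∑ p ∈ Cf, (Lst v).card * K * (P p).card := by rw [mul_sum]
        _ ≤ ∑ p ∈ Cf, 2 * (N S).card := by
            refine sum_le_sum ?_
            intro p hp
            have h1 := hP p hp
            have hp' := hp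
            rw [hCf, mem_filter] at hp'
            have hpS : p.1 ∈ S := hp'.2.1
            have h2 : (N (S.erase p.1)).card ≤ 2 * (N S).card := by
              have hc : (S.erase p.1).card < n := by
                rw [← hS]; exact card_erase_lt_of_mem hpS
              have := ih _ hc (S.erase p.1) rfl p.1 (by simp)
              rwa [insert_erase hpS] at this
            calc (Lst v).card * K * (P p).card ≤ (Lst v).card * (Lst p.1).card * (P p).card :=
                  Nat.mul_le_mul_right _ (Nat.mul_le_mul_left _ (hL p.1))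
              _ ≤ _ := h1.trans h2
        _ = Cf.card * (2 * (N S).card) := by rw [sum_const, smul_eq_mul]
        _ ≤ D * (2 * (N S).card) := Nat.mul_le_mul_right _ hCfc
    -- all the bad ones
    set B : Finset (C → Λ) := (Lst v).biUnion bad with hB
    have hBc : K * B.card ≤ 2 * D * (N S).card := by
      have h1 : B.card ≤ ∑ a ∈ Lst v, (bad a).card := card_biUnion_le
      have h2 : (Lst v).card * (K * ∑ a ∈ Lst v, (bad a).card) ≤
          (Lst v).card * (2 * D * (N S).card) := by
        calc (Lst v).card * (K * ∑ a ∈ Lst v, (bad a).card)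
            = ∑ a ∈ Lst v, (Lst v).card * K * (bad a).card := by
              rw [← mul_assoc, mul_sum]
          _ ≤ ∑ a ∈ Lst v, D * (2 * (N S).card) := sum_le_sum hbad
          _ = (Lst v).card * (2 * D * (N S).card) := by
              rw [sum_const, smul_eq_mul]; ring
      have h3 := Nat.le_of_mul_le_mul_left h2 hLv
      exact (Nat.mul_le_mul_left K h1).trans h3
    have hsub2 : N S ⊆ N (insert v S) ∪ B := by
      intro σ hσ
      by_cases h : ∃ w ∈ S, conf v (σ v) w (σ w)
      · rw [mem_union]; right
        rw [hB, mem_biUnion]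
        have hσ' := hσ
        simp only [N, mem_filter] at hσ'
        refine ⟨σ v, (Fintype.mem_piFinset.mp hσ'.1) v, ?_⟩
        simp only [bad, mem_filter]
        exact ⟨hσ, trivial, h⟩
      · rw [mem_union]; left
        push Not at h
        simp only [N, mem_filter] at hσ ⊢
        refine ⟨hσ.1, ?_⟩
        intro x hx y hy hxy
        rcases mem_insert.mp hx with hx' | hx'
        · rcases mem_insert.mp hy with hy' | hy'
          · exact absurd (hx'.trans hy'.symm) hxy
          · rw [hx']; exact h y hy'
        · rcases mem_insert.mp hy with hy' | hy'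
          · intro hc
            rw [hy'] at hc
            exact h x hx' (hsymm _ _ _ _ hc)
          · exact hσ.2 x hx' y hy' hxy
    have h3 : (N S).card ≤ (N (insert v S)).card + B.card :=
      (card_le_card hsub2).trans (card_union_le _ _)
    have h4 : 2 * B.card ≤ (N S).card := by
      have h5 : K * (2 * B.card) ≤ K * (N S).card := by
        calc K * (2 * B.card) = 2 * (K * B.card) := by ring
          _ ≤ 2 * (2 * D * (N S).card) := Nat.mul_le_mul_left _ hBc
          _ = (4 * D) * (N S).card := by ring
          _ ≤ K * (N S).card := Nat.mul_le_mul_right _ hD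
      exact Nat.le_of_mul_le_mul_left h5 hK
    omega
  have hpos : ∀ S : Finset C, 0 < (N S).card := by
    intro S
    induction S using Finset.induction_on with
    | empty =>
      have : N ∅ = Ω := by
        simp only [N]
        refine filter_true_of_mem ?_
        intro σ _ x hx
        simp at hx
      rw [this, hΩ, Fintype.card_piFinset]
      exact Finset.prod_pos (fun v _ => lt_of_lt_of_le hK (hL v))
    | insert v S hv ih =>
      have := key _ S rfl v hv
      omega
  obtain ⟨σ, hσ⟩ := Finset.card_pos.mp (hpos Finset.univ)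
  simp only [N, mem_filter] at hσ
  exact ⟨σ, fun v => (Fintype.mem_piFinset.mp hσ.1) v,
    fun v w hvw => hσ.2 v (mem_univ _) w (mem_univ _) hvw⟩

/-- glueing involutions -/
theorem glue {V S : Type} (L0 : V → V) (X : S → Set V) (P : S → V → V)
    (hdis : ∀ s s' x, x ∈ X s → x ∈ X s' → s = s')
    (hP : ∀ s x, x ∈ X s → P s x ∈ X s ∧ P s (P s x) = x)
    (hL0 : ∀ x, L0 (L0 x) = x) (hX : ∀ s x, x ∈ X s → L0 x ∈ X s) :
    ∃ L : V → V, (∀ x, L (L x) = x) ∧ (∀ s x, x ∈ X s → L x = P s x) ∧
      ∀ x, (∀ s, x ∉ X s) → L x = L0 x := by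
  classical
  let L : V → V := fun x => if h : ∃ s, x ∈ X s then P h.choose x else L0 x
  have h1 : ∀ s x, x ∈ X s → L x = P s x := by
    intro s x hx
    have hex : ∃ s, x ∈ X s := ⟨s, hx⟩
    have : hex.choose = s := hdis _ _ x hex.choose_spec hx
    simp only [L, hex, dif_pos]
    rw [this]
  have h2 : ∀ x, (∀ s, x ∉ X s) → L x = L0 x := by
    intro x hx
    have hex : ¬ ∃ s, x ∈ X s := by push Not; exact hx
    simp only [L, hex, dif_neg, not_false_eq_true]
  refine ⟨L, ?_, h1, h2⟩
  intro x
  by_cases h : ∃ s, x ∈ X s
  · obtain ⟨s, hs⟩ := h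
    rw [h1 s x hs, h1 s _ (hP s x hs).1, (hP s x hs).2]
  · push Not at h
    rw [h2 x h, h2, hL0]
    intro s hs
    have := hX s _ hs
    rw [hL0] at this
    exact h s this

end Pool.Agent.KS6_27.HQ
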