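import Pool.Graph.R_seed8.Helper886.HCube.Fink
import Pool.Agent.KS6_27.HQ.Sel

/-!
# The construction: routing the components of the free layers through the other layers
-/

set_option autoImplicit false

namespace Pool.Agent.KS6_27.HQ

open Pool.Agent.Helper886 Pool.Agent.Helper886.HCube Function

theorem flip_comm' {ι : Type} [DecidableEq ι] (i j : ι) (x : ι → Bool) :
    HCube.flip i (HCube.flip j x) = HCube.flip j (HCube.flip i x) := by
  by_cases h : i = j
  · rw [h]
  · funext k
    by_cases hi : k = i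
    · subst hi
      rw [flip_same, flip_ne h, flip_ne h, flip_same]
    · rw [flip_ne hi]
      by_cases hj : k = j
      · subst hj
        rw [flip_same, flip_same, flip_ne hi]
      · rw [flip_ne hj, flip_ne hj, flip_ne hi]

theorem flip_inj {ι : Type} [DecidableEq ι] {i : ι} {x y : ι → Bool} (h : HCube.flip i x = HCube.flip i y) :
    x = y := by
  rw [← HCube.flip_flip i x, h, HCube.flip_flip]

/-- the cell of a location -/
def cell {m : ℕ} (x : Fin (m + 1) → Bool) : Fin m → Bool := fun j => x j.succ

theorem cell_flip {m : ℕ} (x : Fin (m + 1) → Bool) : cell (HCube.flip 0 x) = cell x := by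
  funext j
  exact flip_ne (Fin.succ_ne_zero j) x

theorem cell_eq {m : ℕ} {x y : Fin (m + 1) → Bool} (h : cell x = cell y) :
    x = y ∨ x = HCube.flip 0 y := by
  by_cases h0 : x 0 = y 0
  · left
    funext j
    refine Fin.cases h0 (fun i => congrFun h i) j
  · right
    funext j
    refine Fin.cases ?_ (fun i => ?_) j
    · rw [flip_same]
      cases h1 : x 0 <;> cases h2 : y 0 <;> simp_all
    · rw [flip_ne (Fin.succ_ne_zero i)]
      exact congrFun h i

theorem fink_layer {E : Type} {m : ℕ} (z : E → Bool) :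
    FinkP {v : (E → Bool) × (Fin (m + 1) → Bool) | v.1 = z}
      (fun v v' => ∃ i, v' = (v.1, HCube.flip i v.2)) := by
  intro K hK
  have hsub : subcube (Finset.univ : Finset (Fin (m + 1))) (fun _ => false) = Set.univ := by
    ext x; simp [subcube]
  have hK1 : ∀ x, (K (z, x)).1 = z := fun x => hK.maps (z, x) rfl
  have hKx : ∀ x, K (z, x) = (z, (K (z, x)).2) := fun x => Prod.ext (hK1 x) rfl
  have hK' : Inv (subcube (Finset.univ : Finset (Fin (m + 1))) (fun _ => false))
      (fun x => (K (z, x)).2) := by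
    rw [hsub]
    refine ⟨fun _ _ => trivial, ?_, ?_⟩
    · intro x _
      show (K (z, (K (z, x)).2)).2 = x
      rw [← hKx x, hK.invol (z, x) rfl]
    · intro x _ h
      refine hK.ne (z, x) rfl ?_
      rw [hKx x]
      exact Prod.ext rfl h
  obtain ⟨M', hM', hME, hMc⟩ := fink Finset.univ ⟨0, Finset.mem_univ _⟩ _ _ hK'
  rw [hsub] at hM' hMc hME
  refine ⟨fun v => (v.1, M' v.2), ⟨?_, ?_, ?_⟩, ?_, ?_⟩
  · rintro ⟨g, x⟩ hv; exact hv
  · rintro ⟨g, x⟩ hv
    show (g, M' (M' x)) = (g, x)
    rw [hM'.invol x trivial]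
  · rintro ⟨g, x⟩ hv h
    exact hM'.ne x trivial (congrArg Prod.snd h)
  · rintro ⟨g, x⟩ hv
    obtain ⟨i, _, hi⟩ := hME x trivial
    exact ⟨i, by show (g, M' x) = (g, HCube.flip i x); rw [hi]⟩
  · rintro ⟨g, x⟩ hv ⟨g', y⟩ hw
    have hg : g = z := hv
    have hg' : g' = z := hw
    subst hg
    subst hg'
    have h := hMc x trivial y trivial
    clear hw hv
    induction h with
    | refl => exact .refl
    | tail _ h ih =>
      refine ih.tail ?_
      rcases h with h | h
      · left; rw [hKx, h]
      · right; rw [h]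

/-- extension of the fixed part `b` to a Hamiltonian cycle -/
theorem extend' {V : Type} [Finite V] {E : V → V → Prop} (L b : V → V) (hL : ∀ x, L (L x) = x)
    (hLne : ∀ x, L x ≠ x) (hb : ∀ x, b (b x) = x) {ζ : Type} [Fintype ζ] [DecidableEq ζ]
    (A : ζ → Set V) (hdisj : ∀ z z', z ≠ z' → ∀ x, x ∈ A z → x ∉ A z')
    (hfix : ∀ x, b x = x ↔ x ∈ US A Finset.univ)
    (hreach : ∀ x, ∃ y ∈ US A Finset.univ, Reach L b x y)
    (hev : ∀ z, Even (A z).ncard) (hF : ∀ z, FinkP (A z) E) (z0 : ζ)
    (hcon' : ∀ S : Finset ζ, z0 ∈ S → S ≠ Finset.univ →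
      ∃ z, z ∉ S ∧ ∃ x ∈ A z, ∃ z' ∈ S, L x ∈ A z') :
    ∃ M : V → V, (∀ x, M (M x) = x) ∧ (∀ x, M x ≠ x) ∧
      (∀ x, x ∉ US A Finset.univ → M x = b x) ∧ (∀ z, ∀ x ∈ A z, M x ∈ A z ∧ E x (M x)) ∧
      ∀ x y, Reach L M x y := by
  classical
  set U := US A (Finset.univ : Finset ζ) with hU
  have hfp : ∀ x y, Reach L b x y → L y ≠ y := fun _ y _ => hLne y
  have hbx : ∀ x ∈ U, b x = x := fun x hx => (hfix x).mpr hx
  set K : V → V := omega L b with hKdef
  have hK : Inv U K := by
    refine ⟨?_, ?_, ?_⟩
    · intro x hx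
      exact (hfix _).mp (omega_fix hL hb (hbx x hx) (hfp x))
    · intro x hx
      exact omega_omega hL hb (hbx x hx) (hfp x)
    · intro x hx
      exact omega_ne hL hb (hbx x hx) (hfp x)
  have hcon : ∀ S : Finset ζ, z0 ∈ S → S ≠ Finset.univ →
      ∃ z, z ∉ S ∧ ∃ x ∈ A z, ∃ z' ∈ S, K x ∈ A z' := by
    intro S hz0 hSne
    obtain ⟨z, hz, x, hx, z', hz', hLx⟩ := hcon' S hz0 hSne
    refine ⟨z, hz, x, hx, z', hz', ?_⟩
    have hxU : x ∈ U := ⟨z, Finset.mem_univ _, hx⟩
    have hLxU : L x ∈ U := ⟨z', Finset.mem_univ _, hLx⟩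
    have h1 : Reach L b x (L x) := .single (Or.inl rfl)
    rcases fix_unique hL hb (hbx x hxU) h1 (hbx _ hLxU) with h2 | h2
    · exact absurd h2 (hLne x)
    · rw [hKdef, ← h2]; exact hLx
  obtain ⟨MZ, hMZ, hMZE, hMZc⟩ := pieces A hdisj hev hF z0 K hK hcon
  set M : V → V := fun x => if x ∈ U then MZ x else b x with hM
  have hM1 : ∀ x ∈ U, M x = MZ x := fun x hx => by simp only [hM, hx, if_true]
  have hM2 : ∀ x, x ∉ U → M x = b x := fun x hx => by simp only [hM, hx, if_false]
  have hbU : ∀ x, x ∉ U → b x ∉ U := by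
    intro x hx h
    have h1 := hbx _ h
    rw [hb] at h1
    exact hx (by rw [h1]; exact h)
  have hMM : ∀ x, M (M x) = x := by
    intro x
    by_cases hx : x ∈ U
    · rw [hM1 x hx, hM1 _ (hMZ.maps x hx)]; exact hMZ.invol x hx
    · rw [hM2 x hx, hM2 _ (hbU x hx)]; exact hb x
  have hRR : ∀ x y, Reach L b x y → Reach L M x y := by
    intro x y h
    induction h with
    | refl => exact .refl
    | @tail u v _ h ih =>
      rcases h with h | h
      · exact ih.tail (Or.inl h)
      · by_cases hu : u ∈ U
        · rw [h, hbx u hu]; exact ih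
        · exact ih.tail (Or.inr (by rw [h, hM2 u hu]))
  have hRK : ∀ x ∈ U, ∀ y, Reach K MZ x y → Reach L M x y ∧ y ∈ U := by
    intro x hx y h
    induction h with
    | refl => exact ⟨.refl, hx⟩
    | @tail u v _ h ih =>
      obtain ⟨ih1, ih2⟩ := ih
      rcases h with h | h
      · rw [h]
        exact ⟨ih1.trans (hRR _ _ (reach_omega u)), hK.maps u ih2⟩
      · rw [h]
        exact ⟨ih1.tail (Or.inr (hM1 u ih2).symm), hMZ.maps u ih2⟩
  refine ⟨M, hMM, ?_, hM2, ?_, ?_⟩
  · intro x
    by_cases hx : x ∈ U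
    · rw [hM1 x hx]; exact hMZ.ne x hx
    · rw [hM2 x hx]
      intro h
      exact hx ((hfix x).mp h)
  · intro z x hx
    rw [hM1 x ⟨z, Finset.mem_univ _, hx⟩]
    exact hMZE z x hx
  · intro x y
    obtain ⟨x', hx', hrx⟩ := hreach x
    obtain ⟨y', hy', hry⟩ := hreach y
    have h1 := (hRK x' hx' y' (hMZc x' hx' y' hy')).1
    exact ((hRR _ _ hrx).trans h1).trans (reach_symm hL hMM (hRR _ _ hry))

/-- the vertices: pairs (layer, location) -/
abbrev VX (E : Type) (m : ℕ) : Type := (E → Bool) × (Fin (m + 1) → Bool)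

/-- adjacency -/
def AdjX {E : Type} [DecidableEq E] {m : ℕ} (v w : VX E m) : Prop :=
  (∃ e, w = (HCube.flip e v.1, v.2)) ∨ (∃ i, w = (v.1, HCube.flip i v.2))

open Classical in
/-- recovering the matching of a free layer from `L` -/
noncomputable def rec' {E : Type} {m : ℕ} (L : VX E m → VX E m) (v : VX E m) :
    Fin (m + 1) → Bool :=
  if (L v).1 = v.1 then (L v).2
  else if (L ((L v).1, HCube.flip 0 v.2)).1 = (L v).1 then HCube.flip 0 (L ((L v).1, HCube.flip 0 v.2)).2
  else HCube.flip 0 v.2

theorem cons {E : Type} [Fintype E] [DecidableEq E] {m : ℕ} (T : (E → Bool) → Prop)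
    (M R : (E → Bool) → (Fin (m + 1) → Bool) → (Fin (m + 1) → Bool))
    (U : (E → Bool) → Set (Fin (m + 1) → Bool)) (τ : (E → Bool) → (Fin (m + 1) → Bool) → E)
    (dir : (E → Bool) → E) (ce : (E → Bool) → (Fin m → Bool))
    (hT0 : T (fun _ => false))
    (hM : ∀ g x, M g (M g x) = x) (hMf : ∀ g x, ∃ i, M g x = HCube.flip i x)
    (hR : ∀ g x, R g (R g x) = x) (hRf : ∀ g x, ∃ i, R g x = HCube.flip i x)
    (hU1 : ∀ g, ¬ T g → ∀ u ∈ U g, M g u ∉ U g)
    (hU2 : ∀ g, ¬ T g → ∀ x, ∃ u ∈ U g, Reach (M g) (R g) x u)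
    (hτ : ∀ g, ¬ T g → ∀ u ∈ U g, T (HCube.flip (τ g u) g))
    (hcf : ∀ g g', ¬ T g → ¬ T g' → ∀ u ∈ U g, ∀ u' ∈ U g',
      HCube.flip (τ g u) g = HCube.flip (τ g' u') g' → ∀ y, (y = u ∨ y = M g u) →
        ∀ y', (y' = u' ∨ y' = M g' u') → cell y = cell y' → g = g' ∧ u = u')
    (hdir : ∀ z, T z → z ≠ (fun _ => false) → z (dir z) = true ∧ T (HCube.flip (dir z) z))
    (hce : ∀ z z', T z → T z' → z ≠ (fun _ => false) → z' ≠ (fun _ => false) → ce z = ce z' →
      dir z = dir z')
    (hav : ∀ g, ¬ T g → ∀ u ∈ U g, ∀ y, (y = u ∨ y = M g u) → ∀ z, T z → z ≠ (fun _ => false) →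
      (HCube.flip (τ g u) g = z ∨ HCube.flip (τ g u) g = HCube.flip (dir z) z) → cell y ≠ ce z) :
    ∃ L N : VX E m → VX E m, (∀ v, L (L v) = v) ∧ (∀ v, N (N v) = v) ∧ (∀ v, AdjX v (L v)) ∧
      (∀ v, ∃ i, N v = (v.1, HCube.flip i v.2)) ∧ (∀ g x, ¬ T g → N (g, x) = (g, R g x)) ∧
      (∀ v w, Reach L N v w) ∧ ∀ g x, ¬ T g → rec' L (g, x) = M g x := by
  classical
  choose fi hfi using hMf
  -- the switches
  let S : Type := {p : VX E m // ¬ T p.1 ∧ p.2 ∈ U p.1} ⊕ {z : E → Bool // T z ∧ z ≠ fun _ => false}
  let X : S → Set (VX E m) := fun s => match s with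
    | .inl p => {v | (v.1 = p.1.1 ∧ (v.2 = p.1.2 ∨ v.2 = M p.1.1 p.1.2)) ∨
        (v.1 = HCube.flip (τ p.1.1 p.1.2) p.1.1 ∧
          (cell v.2 = cell p.1.2 ∨ cell v.2 = cell (M p.1.1 p.1.2)))}
    | .inr z => {v | (v.1 = z.1 ∨ v.1 = HCube.flip (dir z.1) z.1) ∧ cell v.2 = ce z.1}
  let P : S → VX E m → VX E m := fun s => match s with
    | .inl p => fun v => if v.2 = p.1.2 ∨ v.2 = M p.1.1 p.1.2 then
        (if v.1 = p.1.1 then (HCube.flip (τ p.1.1 p.1.2) p.1.1, v.2) else (p.1.1, v.2))
        else (v.1, HCube.flip (fi p.1.1 p.1.2) v.2)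
    | .inr z => fun v => (HCube.flip (dir z.1) v.1, v.2)
  let L0 : VX E m → VX E m := fun v => if T v.1 then (v.1, HCube.flip 0 v.2) else (v.1, M v.1 v.2)
  have hL0T : ∀ v : VX E m, T v.1 → L0 v = (v.1, HCube.flip 0 v.2) := fun v hv => by
    simp only [L0, hv, if_true]
  have hL0F : ∀ v : VX E m, ¬ T v.1 → L0 v = (v.1, M v.1 v.2) := fun v hv => by
    simp only [L0, hv, if_false]
  have hMne : ∀ g x, M g x ≠ x := by
    intro g x h
    rw [hfi g x] at h
    exact flip_ne_self _ _ h
  have hdis : ∀ s s' x, x ∈ X s → x ∈ X s' → s = s' := by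
    have main : ∀ (p : {p : VX E m // ¬ T p.1 ∧ p.2 ∈ U p.1})
        (z : {z : E → Bool // T z ∧ z ≠ fun _ => false}) (v : VX E m), v ∈ X (.inl p) →
        v ∈ X (.inr z) → False := by
      rintro ⟨⟨g, u⟩, hg, hu⟩ ⟨z, hz, hz0⟩ ⟨q, x⟩ h1 h2
      simp only [X, Set.mem_ofPred_eq] at h1 h2
      simp only at hg hu
      have hTq : T q := by
        rcases h2.1 with h | h
        · rw [h]; exact hz
        · rw [h]; exact (hdir z hz hz0).2
      rcases h1 with ⟨h1, _⟩ | ⟨h1, h3⟩
      · rw [h1] at hTq; exact hg hTq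
      · rcases h3 with h3 | h3
        · refine hav g hg u hu u (Or.inl rfl) z hz hz0 ?_ (h3.symm.trans h2.2)
          rw [← h1]; exact h2.1
        · refine hav g hg u hu (M g u) (Or.inr rfl) z hz hz0 ?_ (h3.symm.trans h2.2)
          rw [← h1]; exact h2.1
    rintro (p | z) (p' | z') v hv hv'
    · obtain ⟨⟨g, u⟩, hg, hu⟩ := p
      obtain ⟨⟨g', u'⟩, hg', hu'⟩ := p'
      obtain ⟨q, x⟩ := v
      simp only [X, Set.mem_ofPred_eq] at hv hv'
      simp only at hg hu hg' hu'
      have hgg : g = g' ∧ u = u' := by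
        rcases hv with ⟨h1, h2⟩ | ⟨h1, h2⟩
        · rcases hv' with ⟨h3, h4⟩ | ⟨h3, h4⟩
          · have hgg : g = g' := h1.symm.trans h3
            subst hgg
            refine ⟨rfl, ?_⟩
            rcases h2 with h2 | h2
            · rcases h4 with h4 | h4
              · exact h2.symm.trans h4
              · exfalso
                have : u = M g u' := h2.symm.trans h4
                exact hU1 g hg u' hu' (this ▸ hu)
            · rcases h4 with h4 | h4
              · exfalso
                have : M g u = u' := h2.symm.trans h4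
                exact hU1 g hg u hu (this ▸ hu')
              · have : M g u = M g u' := h2.symm.trans h4
                rw [← hM g u, this, hM]
          · exfalso
            have := hτ g' hg' u' hu'
            rw [← h3, h1] at this
            exact hg this
        · rcases hv' with ⟨h3, h4⟩ | ⟨h3, h4⟩
          · exfalso
            have := hτ g hg u hu
            rw [← h1, h3] at this
            exact hg' this
          · have hh : HCube.flip (τ g u) g = HCube.flip (τ g' u') g' := h1.symm.trans h3
            rcases h2 with h2 | h2 <;> rcases h4 with h4 | h4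
            · exact hcf g g' hg hg' u hu u' hu' hh u (Or.inl rfl) u' (Or.inl rfl)
                (h2.symm.trans h4)
            · exact hcf g g' hg hg' u hu u' hu' hh u (Or.inl rfl) _ (Or.inr rfl)
                (h2.symm.trans h4)
            · exact hcf g g' hg hg' u hu u' hu' hh _ (Or.inr rfl) u' (Or.inl rfl)
                (h2.symm.trans h4)
            · exact hcf g g' hg hg' u hu u' hu' hh _ (Or.inr rfl) _ (Or.inr rfl)
                (h2.symm.trans h4)
      congr 1
      apply Subtype.ext
      exact Prod.ext hgg.1 hgg.2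
    · exact (main p z' v hv hv').elim
    · exact (main p' z v hv' hv).elim
    · obtain ⟨z, hz, hz0⟩ := z
      obtain ⟨z', hz', hz0'⟩ := z'
      obtain ⟨q, x⟩ := v
      simp only [X, Set.mem_ofPred_eq] at hv hv'
      have hd : dir z = dir z' := hce z z' hz hz' hz0 hz0' (hv.2.symm.trans hv'.2)
      have h1 := (hdir z hz hz0).1
      have h2 := (hdir z' hz' hz0').1
      have hzz : z = z' := by
        rcases hv.1 with h3 | h3
        · rcases hv'.1 with h4 | h4
          · exact h3.symm.trans h4
          · exfalso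
            have h5 : z = HCube.flip (dir z') z' := h3.symm.trans h4
            rw [hd, h5, flip_same, h2] at h1
            simp at h1
        · rcases hv'.1 with h4 | h4
          · exfalso
            have h5 : z' = HCube.flip (dir z) z := h4.symm.trans h3
            rw [← hd, h5, flip_same, h1] at h2
            simp at h2
          · have h5 : HCube.flip (dir z) z = HCube.flip (dir z') z' := h3.symm.trans h4
            rw [← hd] at h5
            exact flip_inj h5
      congr 1
      exact Subtype.ext hzz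
  have hP : ∀ s x, x ∈ X s → P s x ∈ X s ∧ P s (P s x) = x := by
    rintro (p | z) v hv
    · obtain ⟨⟨g, u⟩, hg, hu⟩ := p
      obtain ⟨q, x⟩ := v
      simp only at hg hu
      have hh := hτ g hg u hu
      have hne : HCube.flip (τ g u) g ≠ g := flip_ne_self _ _
      have hfu := hfi g u
      simp only [X, Set.mem_ofPred_eq] at hv
      rcases hv with ⟨h1, h2⟩ | ⟨h1, h2⟩
      · subst h1
        have e1 : P (.inl ⟨(q, u), hg, hu⟩) (q, x) = (HCube.flip (τ q u) q, x) := by
          simp only [P, h2, if_true]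
        have e2 : P (.inl ⟨(q, u), hg, hu⟩) (HCube.flip (τ q u) q, x) = (q, x) := by
          simp only [P, h2, if_true, hne, if_false]
        rw [e1, e2]
        refine ⟨?_, rfl⟩
        simp only [X, Set.mem_ofPred_eq]
        right
        refine ⟨trivial, ?_⟩
        rcases h2 with h2 | h2
        · left; rw [h2]
        · right; rw [h2]
      · subst h1
        by_cases hx : x = u ∨ x = M g u
        · have e1 : P (.inl ⟨(g, u), hg, hu⟩) (HCube.flip (τ g u) g, x) = (g, x) := by
            simp only [P, hx, if_true, hne, if_false]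
          have e2 : P (.inl ⟨(g, u), hg, hu⟩) (g, x) = (HCube.flip (τ g u) g, x) := by
            simp only [P, hx, if_true]
          rw [e1, e2]
          refine ⟨?_, rfl⟩
          simp only [X, Set.mem_ofPred_eq]
          left
          exact ⟨trivial, hx⟩
        · have e1 : P (.inl ⟨(g, u), hg, hu⟩) (HCube.flip (τ g u) g, x) =
              (HCube.flip (τ g u) g, HCube.flip (fi g u) x) := by
            simp only [P, hx, if_false]
          have hx2 : ¬ (HCube.flip (fi g u) x = u ∨ HCube.flip (fi g u) x = M g u) := by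
            intro h
            apply hx
            rcases h with h | h
            · right
              have h9 := congrArg (HCube.flip (fi g u)) h
              rw [HCube.flip_flip] at h9
              rw [hfu]; exact h9
            · left
              rw [hfu] at h
              exact flip_inj h
          have e2 : P (.inl ⟨(g, u), hg, hu⟩) (HCube.flip (τ g u) g, HCube.flip (fi g u) x) =
              (HCube.flip (τ g u) g, x) := by
            simp only [P, hx2, if_false, HCube.flip_flip]
          rw [e1, e2]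
          refine ⟨?_, rfl⟩
          simp only [X, Set.mem_ofPred_eq]
          right
          refine ⟨trivial, ?_⟩
          rcases h2 with h2 | h2
          · rcases cell_eq h2 with h3 | h3
            · exact absurd (Or.inl h3) hx
            · right
              rw [h3, flip_comm', cell_flip, ← hfu]
          · rcases cell_eq h2 with h3 | h3
            · exact absurd (Or.inr h3) hx
            · left
              rw [h3, flip_comm', cell_flip, hfu, HCube.flip_flip]
    · obtain ⟨z, hz, hz0⟩ := z
      obtain ⟨q, x⟩ := v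
      simp only [X, Set.mem_ofPred_eq] at hv
      have e1 : P (.inr ⟨z, hz, hz0⟩) (q, x) = (HCube.flip (dir z) q, x) := rfl
      have e2 : P (.inr ⟨z, hz, hz0⟩) (HCube.flip (dir z) q, x) = (HCube.flip (dir z) (HCube.flip (dir z) q), x) := rfl
      rw [e1, e2, HCube.flip_flip]
      refine ⟨?_, rfl⟩
      simp only [X, Set.mem_ofPred_eq]
      refine ⟨?_, hv.2⟩
      rcases hv.1 with h | h
      · right; rw [h]
      · left; rw [h, HCube.flip_flip]
  have hL0 : ∀ x, L0 (L0 x) = x := by
    rintro ⟨q, x⟩
    by_cases h : T q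
    · rw [hL0T (q, x) h, hL0T _ h, HCube.flip_flip]
    · rw [hL0F (q, x) h, hL0F _ h, hM]
  have hXL : ∀ s x, x ∈ X s → L0 x ∈ X s := by
    rintro (p | z) v hv
    · obtain ⟨⟨g, u⟩, hg, hu⟩ := p
      obtain ⟨q, x⟩ := v
      simp only at hg hu
      simp only [X, Set.mem_ofPred_eq] at hv
      rcases hv with ⟨h1, h2⟩ | ⟨h1, h2⟩
      · subst h1
        rw [hL0F (q, x) hg]
        simp only [X, Set.mem_ofPred_eq]
        left
        refine ⟨trivial, ?_⟩
        rcases h2 with h2 | h2
        · right; rw [h2]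
        · left; rw [h2, hM]
      · subst h1
        rw [hL0T (HCube.flip (τ g u) g, x) (hτ g hg u hu)]
        simp only [X, Set.mem_ofPred_eq]
        right
        refine ⟨trivial, ?_⟩
        rw [cell_flip]
        exact h2
    · obtain ⟨z, hz, hz0⟩ := z
      obtain ⟨q, x⟩ := v
      simp only [X, Set.mem_ofPred_eq] at hv
      have hTq : T q := by
        rcases hv.1 with h | h
        · rw [h]; exact hz
        · rw [h]; exact (hdir z hz hz0).2
      rw [hL0T (q, x) hTq]
      simp only [X, Set.mem_ofPred_eq]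
      rw [cell_flip]
      exact hv
  obtain ⟨L, hL, hLX, hLn⟩ := glue L0 X P hdis hP hL0 hXL
  -- values of `L`
  have hLg : ∀ g u, ¬ T g → u ∈ U g → ∀ x, (x = u ∨ x = M g u) →
      L (g, x) = (HCube.flip (τ g u) g, x) := by
    intro g u hg hu x hx
    have h1 : (g, x) ∈ X (.inl ⟨(g, u), hg, hu⟩) := by
      simp only [X, Set.mem_ofPred_eq]
      left
      exact ⟨trivial, hx⟩
    rw [hLX (.inl ⟨(g, u), hg, hu⟩) _ h1]
    simp only [P, hx, if_true]
  have hLfree : ∀ g x, ¬ T g → x ∉ U g → M g x ∉ U g → L (g, x) = (g, M g x) := by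
    intro g x hg hx hMx
    rw [hLn, hL0F (g, x) hg]
    rintro (p | z) hv
    · obtain ⟨⟨g', u⟩, hg', hu⟩ := p
      simp only at hg' hu
      simp only [X, Set.mem_ofPred_eq] at hv
      rcases hv with ⟨h1, h2⟩ | ⟨h1, h2⟩
      · subst h1
        rcases h2 with h2 | h2
        · exact hx (h2 ▸ hu)
        · apply hMx
          rw [h2, hM]; exact hu
      · apply hg
        rw [h1]
        exact hτ g' hg' u hu
    · obtain ⟨z, hz, hz0⟩ := z
      simp only [X, Set.mem_ofPred_eq] at hv
      rcases hv.1 with h | h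
      · exact hg (by rw [h]; exact hz)
      · exact hg (by rw [h]; exact (hdir z hz hz0).2)
  have hLadj : ∀ v, AdjX v (L v) := by
    intro v
    by_cases h : ∃ s, v ∈ X s
    · obtain ⟨s, hs⟩ := h
      rw [hLX s v hs]
      rcases s with p | z
      · obtain ⟨⟨g, u⟩, hg, hu⟩ := p
        obtain ⟨q, x⟩ := v
        simp only at hg hu
        simp only [X, Set.mem_ofPred_eq] at hs
        by_cases hx : x = u ∨ x = M g u
        · left
          refine ⟨τ g u, ?_⟩
          by_cases hq : q = g
          · subst hq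
            simp only [P, hx, if_true]
          · have hq2 : q = HCube.flip (τ g u) g := by
              rcases hs with ⟨h1, _⟩ | ⟨h1, _⟩
              · exact absurd h1 hq
              · exact h1
            simp only [P, hx, if_true, hq, if_false]
            rw [hq2, HCube.flip_flip]
        · right
          refine ⟨fi g u, ?_⟩
          simp only [P, hx, if_false]
      · exact Or.inl ⟨dir z.1, rfl⟩
    · push Not at h
      rw [hLn v h]
      right
      by_cases hT : T v.1
      · exact ⟨0, hL0T v hT⟩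
      · refine ⟨fi v.1 v.2, ?_⟩
        rw [hL0F v hT, hfi]
  have hLne : ∀ v, L v ≠ v := by
    intro v h
    rcases hLadj v with ⟨e, he⟩ | ⟨i, hi⟩
    · rw [h] at he
      exact flip_ne_self e v.1 (congrArg Prod.fst he).symm
    · rw [h] at hi
      exact flip_ne_self i v.2 (congrArg Prod.snd hi).symm
  -- the fixed part
  let b : VX E m → VX E m := fun v => if T v.1 then v else (v.1, R v.1 v.2)
  have hbT : ∀ v : VX E m, T v.1 → b v = v := fun v hv => by simp only [b, hv, if_true]
  have hbF : ∀ v : VX E m, ¬ T v.1 → b v = (v.1, R v.1 v.2) := fun v hv => by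
    simp only [b, hv, if_false]
  have hb : ∀ v, b (b v) = v := by
    rintro ⟨q, x⟩
    by_cases h : T q
    · rw [hbT (q, x) h, hbT _ h]
    · rw [hbF (q, x) h, hbF _ h, hR]
  let A : {z : E → Bool // T z} → Set (VX E m) := fun z => {v | v.1 = z.1}
  have hUS : ∀ v : VX E m, v ∈ US A Finset.univ ↔ T v.1 := by
    intro v
    constructor
    · rintro ⟨z, _, hz⟩
      have : v.1 = z.1 := hz
      rw [this]; exact z.2
    · intro h
      exact ⟨⟨v.1, h⟩, Finset.mem_univ _, rfl⟩
  have hreachF : ∀ g, ¬ T g → ∀ x y, Reach (M g) (R g) x y → y ∈ U g →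
      ∃ w : VX E m, T w.1 ∧ Reach L b (g, x) w := by
    intro g hg x y h hy
    induction h using Relation.ReflTransGen.head_induction_on with
    | refl =>
      refine ⟨L (g, y), ?_, .single (Or.inl rfl)⟩
      rw [hLg g y hg hy y (Or.inl rfl)]
      exact hτ g hg y hy
    | @head x x' h _ ih =>
      obtain ⟨w, hw, hr⟩ := ih
      by_cases hx : x ∈ U g
      · refine ⟨L (g, x), ?_, .single (Or.inl rfl)⟩
        rw [hLg g x hg hx x (Or.inl rfl)]
        exact hτ g hg x hx
      · by_cases hMx : M g x ∈ U g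
        · refine ⟨L (g, x), ?_, .single (Or.inl rfl)⟩
          rw [hLg g (M g x) hg hMx x (Or.inr (hM g x).symm)]
          exact hτ g hg _ hMx
        · refine ⟨w, hw, Relation.ReflTransGen.head ?_ hr⟩
          rcases h with h | h
          · left; rw [hLfree g x hg hx hMx, h]
          · right; rw [hbF (g, x) hg, h]
  obtain ⟨N, hN1, hN2, hN3, hN4, hN5⟩ := extend' (E := fun v v' => ∃ i, v' = (v.1, HCube.flip i v.2))
    L b hL hLne hb A
    (by
      intro z z' hzz v hv hv'
      exact hzz (Subtype.ext (Eq.trans (Eq.symm hv) hv')))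
    (by
      intro v
      rw [hUS]
      constructor
      · intro h
        by_contra hT
        rw [hbF v hT] at h
        have h2 : R v.1 v.2 = v.2 := congrArg Prod.snd h
        obtain ⟨i, hi⟩ := hRf v.1 v.2
        rw [hi] at h2
        exact flip_ne_self _ _ h2
      · intro h; exact hbT v h)
    (by
      rintro ⟨g, x⟩
      by_cases hg : T g
      · exact ⟨(g, x), (hUS _).mpr hg, .refl⟩
      · obtain ⟨u, hu, hr⟩ := hU2 g hg x
        obtain ⟨w, hw, hr'⟩ := hreachF g hg x u hr hu
        exact ⟨w, (hUS _).mpr hw, hr'⟩)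
    (by
      intro z
      refine even_of_inv (K := fun v => (v.1, HCube.flip 0 v.2)) ⟨?_, ?_, ?_⟩
      · intro v hv; exact hv
      · intro v _; exact Prod.ext rfl (HCube.flip_flip 0 v.2)
      · intro v _ h; exact flip_ne_self 0 v.2 (congrArg Prod.snd h))
    (fun z => fink_layer z.1) ⟨fun _ => false, hT0⟩
    (by
      intro S hS0 hSne
      have hex : ∃ z, z ∉ S := by
        by_contra h
        push Not at h
        exact hSne (Finset.eq_univ_iff_forall.mpr h)
      have hne : (Finset.univ.filter (fun z : {z : E → Bool // T z} => z ∉ S)).Nonempty := by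
        obtain ⟨z, hz⟩ := hex
        exact ⟨z, by simp [hz]⟩
      obtain ⟨z, hz, hmin⟩ := Finset.exists_min_image _
        (fun z : {z : E → Bool // T z} => (Finset.univ.filter (fun e => z.1 e = true)).card) hne
      have hzS : z ∉ S := by simpa using hz
      have hz0 : z.1 ≠ fun _ => false := by
        intro h
        apply hzS
        have : z = ⟨fun _ => false, hT0⟩ := Subtype.ext h
        rw [this]; exact hS0
      obtain ⟨hd1, hd2⟩ := hdir z.1 z.2 hz0
      have hz' : (⟨HCube.flip (dir z.1) z.1, hd2⟩ : {z : E → Bool // T z}) ∈ S := by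
        by_contra h
        have h1 := hmin ⟨HCube.flip (dir z.1) z.1, hd2⟩ (by simp [h])
        have h2 : (Finset.univ.filter (fun e => HCube.flip (dir z.1) z.1 e = true)) ⊂
            (Finset.univ.filter (fun e => z.1 e = true)) := by
          rw [Finset.ssubset_iff_of_subset]
          · exact ⟨dir z.1, by simp [hd1], by simp [flip_same, hd1]⟩
          · intro e he
            simp only [Finset.mem_filter, Finset.mem_univ, true_and] at he ⊢
            by_cases hee : e = dir z.1
            · rw [hee]; exact hd1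
            · rwa [flip_ne hee] at he
        have h3 := Finset.card_lt_card h2
        simp only at h1
        omega
      refine ⟨z, hzS, (z.1, Fin.cons false (ce z.1)), rfl, _, hz', ?_⟩
      have hv : ((z.1, Fin.cons false (ce z.1)) : VX E m) ∈ X (.inr ⟨z.1, z.2, hz0⟩) := by
        simp only [X, Set.mem_ofPred_eq]
        refine ⟨by simp, ?_⟩
        funext j
        simp [cell]
      rw [hLX (.inr ⟨z.1, z.2, hz0⟩) _ hv]
      rfl)
  refine ⟨L, N, hL, hN1, hLadj, ?_, ?_, hN5, ?_⟩
  · rintro ⟨g, x⟩
    by_cases hg : T g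
    · exact (hN4 ⟨g, hg⟩ (g, x) rfl).2
    · rw [hN3 (g, x) (fun h => hg ((hUS _).mp h)), hbF (g, x) hg]
      obtain ⟨i, hi⟩ := hRf g x
      exact ⟨i, by rw [hi]⟩
  · intro g x hg
    rw [hN3 (g, x) (fun h => hg ((hUS _).mp h)), hbF (g, x) hg]
  · intro g x hg
    -- recovery
    have hcase : ∀ u, u ∈ U g → (x = u ∨ x = M g u) → rec' L (g, x) = M g x := by
      intro u hu hx
      have hne : HCube.flip (τ g u) g ≠ g := flip_ne_self _ _
      have h1 := hLg g u hg hu x hx
      have hMx : M g x = HCube.flip (fi g u) x := by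
        rcases hx with hx | hx
        · rw [hx, hfi]
        · rw [hx, hM, hfi, HCube.flip_flip]
      have hmem : ((HCube.flip (τ g u) g, HCube.flip 0 x) : VX E m) ∈ X (.inl ⟨(g, u), hg, hu⟩) := by
        simp only [X, Set.mem_ofPred_eq]
        right
        refine ⟨trivial, ?_⟩
        rw [cell_flip]
        rcases hx with hx | hx
        · left; rw [hx]
        · right; rw [hx]
      have h2 := hLX (.inl ⟨(g, u), hg, hu⟩) _ hmem
      by_cases hy : HCube.flip 0 x = u ∨ HCube.flip 0 x = M g u
      · have h3 : L (HCube.flip (τ g u) g, HCube.flip 0 x) = (g, HCube.flip 0 x) := by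
          rw [h2]
          simp only [P, hy, if_true, hne, if_false]
        unfold rec'
        simp only [h1, hne, if_false, h3, hne.symm]
        -- `HCube.flip 0 x = M g x`
        rcases hx with hx | hx
        · rcases hy with hy | hy
          · exfalso
            rw [← hx] at hy
            exact flip_ne_self 0 x hy
          · rw [hy, hx]
        · rcases hy with hy | hy
          · rw [hy, hx, hM]
          · exfalso
            rw [← hx] at hy
            exact flip_ne_self 0 x hy
      · have h3 : L (HCube.flip (τ g u) g, HCube.flip 0 x) = (HCube.flip (τ g u) g, HCube.flip (fi g u) (HCube.flip 0 x)) := by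
          rw [h2]
          simp only [P, hy, if_false]
        unfold rec'
        simp only [h1, hne, if_false, h3, if_true]
        rw [flip_comm', HCube.flip_flip, hMx]
    by_cases hx : x ∈ U g
    · exact hcase x hx (Or.inl rfl)
    · by_cases hMx : M g x ∈ U g
      · exact hcase (M g x) hMx (Or.inr (hM g x).symm)
      · unfold rec'
        rw [hLfree g x hg hx hMx]
        simp
end Pool.Agent.KS6_27.HQ
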