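import Pool.Graph.R_seed8.Helper886.HCube.Ham
import Pool.Agent.KS6_27.HQ.Cons

/-!
# The cube, the number of its Hamiltonian circuits, and injectivity of the construction
-/

set_option autoImplicit false

namespace Pool.Agent.KS6_27.HQ

open Pool.Agent.Helper886 Pool.Agent.Helper886.HCube Function

/-- the cube graph -/
def cube (n : ℕ) : SimpleGraph (Fin n → Bool) where
  Adj x y := ∃! i, x i ≠ y i
  symm := ⟨by
    rintro x y ⟨i, hi, hu⟩
    exact ⟨i, hi.symm, fun j hj => hu j (Ne.symm hj)⟩⟩
  loopless := ⟨by
    rintro x ⟨i, hi, _⟩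
    exact hi rfl⟩

/-- the number of Hamiltonian circuits of `Q_n` -/
noncomputable def f (n : ℕ) : ℕ :=
  Nat.card {H : (cube n).Subgraph //
    ∃ (v : Fin n → Bool) (p : (cube n).Walk v v), p.IsHamiltonianCycle ∧ p.toSubgraph = H}

/-- relabelling of the coordinates -/
def rel {E : Type} {m n : ℕ} (e : E ⊕ Fin (m + 1) ≃ Fin n) : VX E m ≃ (Fin n → Bool) where
  toFun v := fun j => Sum.elim v.1 v.2 (e.symm j)
  invFun x := (fun i => x (e (.inl i)), fun i => x (e (.inr i)))
  left_inv v := by ext i <;> simp
  right_inv x := by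
    funext j
    obtain ⟨i, rfl⟩ := e.surjective j
    rcases i with i | i <;> simp

theorem rel_adj {E : Type} [DecidableEq E] {m n : ℕ} (e : E ⊕ Fin (m + 1) ≃ Fin n) {v w : VX E m}
    (h : AdjX v w) : (cube n).Adj (rel e v) (rel e w) := by
  rcases h with ⟨i, rfl⟩ | ⟨i, rfl⟩
  · refine ⟨e (.inl i), ?_, ?_⟩
    · show Sum.elim v.1 v.2 (e.symm (e (.inl i))) ≠
        Sum.elim (HCube.flip i v.1) v.2 (e.symm (e (.inl i)))
      rw [Equiv.symm_apply_apply]
      show v.1 i ≠ HCube.flip i v.1 i
      rw [flip_same]
      cases v.1 i <;> simp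
    · intro j hj
      have hj' : Sum.elim v.1 v.2 (e.symm j) ≠
        Sum.elim (HCube.flip i v.1) v.2 (e.symm j) := hj
      obtain ⟨k, rfl⟩ := e.surjective j
      rw [Equiv.symm_apply_apply] at hj'
      congr 1
      rcases k with k | k
      · have h1 : v.1 k ≠ HCube.flip i v.1 k := hj'
        by_contra hne
        apply h1
        rw [flip_ne]
        intro h2
        exact hne (by rw [h2])
      · exact absurd rfl hj'
  · refine ⟨e (.inr i), ?_, ?_⟩
    · show Sum.elim v.1 v.2 (e.symm (e (.inr i))) ≠
        Sum.elim v.1 (HCube.flip i v.2) (e.symm (e (.inr i)))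
      rw [Equiv.symm_apply_apply]
      show v.2 i ≠ HCube.flip i v.2 i
      rw [flip_same]
      cases v.2 i <;> simp
    · intro j hj
      have hj' : Sum.elim v.1 v.2 (e.symm j) ≠
        Sum.elim v.1 (HCube.flip i v.2) (e.symm j) := hj
      obtain ⟨k, rfl⟩ := e.surjective j
      rw [Equiv.symm_apply_apply] at hj'
      congr 1
      rcases k with k | k
      · exact absurd rfl hj'
      · have h1 : v.2 k ≠ HCube.flip i v.2 k := hj'
        by_contra hne
        apply h1
        rw [flip_ne]
        intro h2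
        exact hne (by rw [h2])

/-- a Hamiltonian cycle determines its two matchings -/
theorem pair_unique {V Γ : Type} (L1 N1 L2 N2 : V → V) (π : V → Γ)
    (hL1 : ∀ v, L1 (L1 v) = v) (hN1 : ∀ v, N1 (N1 v) = v) (hL2 : ∀ v, L2 (L2 v) = v)
    (hN2 : ∀ v, N2 (N2 v) = v)
    (hsame : ∀ v w, (w = L1 v ∨ w = N1 v) ↔ (w = L2 v ∨ w = N2 v))
    (hc1 : ∀ v w, Reach L1 N1 v w) (hp1 : ∀ v, π (N1 v) = π v) (hp2 : ∀ v, π (N2 v) = π v)
    (hex : ∃ v w, π v ≠ π w) : L1 = L2 ∧ N1 = N2 := by
  -- not all steps of `L1` preserve `π`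
  have hpi : ¬ ∀ v, π (L1 v) = π v := by
    intro h
    obtain ⟨v, w, hvw⟩ := hex
    apply hvw
    have h1 := hc1 v w
    clear hvw
    induction h1 with
    | refl => rfl
    | tail _ h2 ih =>
      rcases h2 with h2 | h2
      · rw [h2, h, ih]
      · rw [h2, hp1, ih]
  have hne : ∀ v, L1 v ≠ N1 v := by
    intro v hv
    obtain ⟨v1, v2, hvw⟩ := hex
    have h1 : ∀ w, π w = π v := by
      intro w
      have h2 : w = v ∨ w = L1 v := by
        have h3 := hc1 v w
        induction h3 with
        | refl => exact Or.inl rfl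
        | tail _ h4 ih =>
          rcases ih with ih | ih
          · subst ih
            rcases h4 with h4 | h4
            · exact Or.inr h4
            · exact Or.inr (h4.trans hv.symm)
          · subst ih
            rcases h4 with h4 | h4
            · left; rw [h4, hL1]
            · left; rw [h4, hv, hN1]
      rcases h2 with h2 | h2
      · rw [h2]
      · rw [h2, hv, hp1]
    exact hvw ((h1 v1).trans (h1 v2).symm)
  have hA : ∀ v, L1 v = L2 v → N1 v = N2 v := by
    intro v hv
    rcases (hsame v (N1 v)).mp (Or.inr rfl) with h | h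
    · exact absurd (hv.trans h.symm) (hne v)
    · exact h
  have hB : ∀ v, N1 v = N2 v → L1 v = L2 v := by
    intro v hv
    rcases (hsame v (L1 v)).mp (Or.inl rfl) with h | h
    · exact h
    · exact absurd (h.trans hv.symm) (hne v)
  by_cases hS : ∃ v, L1 v = L2 v
  · obtain ⟨v0, hv0⟩ := hS
    have h1 : ∀ w, L1 w = L2 w := by
      intro w
      have h2 := hc1 v0 w
      induction h2 with
      | refl => exact hv0
      | @tail u w _ h3 ih =>
        rcases h3 with h3 | h3
        · rw [h3, hL1, ih, hL2]
        · apply hB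
          rw [h3, hN1, hA u ih, hN2]
    exact ⟨funext h1, funext fun v => hA v (h1 v)⟩
  · exfalso
    push Not at hS
    apply hpi
    intro v
    rcases (hsame v (L1 v)).mp (Or.inl rfl) with h | h
    · exact absurd h (hS v)
    · rw [h, hp2]

theorem card_le_f {E : Type} [Fintype E] [DecidableEq E] {m n : ℕ}
    (e : E ⊕ Fin (m + 1) ≃ Fin n) (hE : Nonempty E) {Ch : Type}
    (L N : Ch → VX E m → VX E m) (hL : ∀ c v, L c (L c v) = v) (hN : ∀ c v, N c (N c v) = v)
    (hLa : ∀ c v, AdjX v (L c v)) (hNa : ∀ c v, ∃ i, N c v = (v.1, HCube.flip i v.2))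
    (hconn : ∀ c v w, Reach (L c) (N c) v w)
    (hinj : ∀ c c', L c = L c' → N c = N c' → c = c') : Nat.card Ch ≤ f n := by
  classical
  have hn : 2 ≤ n := by
    have h1 : Fintype.card (E ⊕ Fin (m + 1)) = Fintype.card (Fin n) := Fintype.card_congr e
    rw [Fintype.card_sum, Fintype.card_fin, Fintype.card_fin] at h1
    have h2 : 0 < Fintype.card E := Fintype.card_pos_iff.mpr hE
    omega
  let F : VX E m ≃ (Fin n → Bool) := rel e
  have hham : ∀ c : Ch, ∃ p : (cube n).Walk (fun _ => false) (fun _ => false),
      p.IsHamiltonianCycle ∧ ∀ a b, p.toSubgraph.Adj a b ↔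
        (b = F (L c (F.symm a)) ∨ b = F (N c (F.symm a))) := by
    intro c
    refine ham_of_conn (cube n) (fun a => F (L c (F.symm a))) (fun a => F (N c (F.symm a)))
      ?_ ?_ ?_ ?_ ?_ ?_ _
    · intro v
      simp only [Equiv.symm_apply_apply]
      rw [hL, Equiv.apply_symm_apply]
    · intro v
      simp only [Equiv.symm_apply_apply]
      rw [hN, Equiv.apply_symm_apply]
    · intro v
      have h1 := rel_adj e (hLa c (F.symm v))
      have h2 : rel e (F.symm v) = v := F.apply_symm_apply v
      rw [h2] at h1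
      exact h1
    · intro v
      have h1 := rel_adj e (Or.inr (hNa c (F.symm v)))
      have h2 : rel e (F.symm v) = v := F.apply_symm_apply v
      rw [h2] at h1
      exact h1
    · have h1 : Fintype.card (Fin n → Bool) = 2 ^ n := by simp
      rw [h1]
      calc 2 < 2 ^ 2 := by norm_num
        _ ≤ 2 ^ n := Nat.pow_le_pow_right (by norm_num) hn
    · intro x y
      have h1 := hconn c (F.symm x) (F.symm y)
      have h2 : ∀ u v, Reach (L c) (N c) u v → Relation.ReflTransGen
          (fun a b => b = F (L c (F.symm a)) ∨ b = F (N c (F.symm a))) (F u) (F v) := by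
        intro u v huv
        induction huv with
        | refl => exact .refl
        | tail _ hs ih =>
          refine ih.tail ?_
          simp only [Equiv.symm_apply_apply]
          rcases hs with hs | hs
          · left; rw [hs]
          · right; rw [hs]
      have h3 := h2 _ _ h1
      rw [Equiv.apply_symm_apply, Equiv.apply_symm_apply] at h3
      exact h3
  choose p hp1 hp2 using hham
  let φ : Ch → {H : (cube n).Subgraph //
      ∃ (v : Fin n → Bool) (p : (cube n).Walk v v), p.IsHamiltonianCycle ∧ p.toSubgraph = H} :=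
    fun c => ⟨(p c).toSubgraph, _, p c, hp1 c, rfl⟩
  have hφ : Injective φ := by
    intro c c' he
    have he' : (p c).toSubgraph = (p c').toSubgraph := congrArg Subtype.val he
    have hnb : ∀ x y : VX E m, (y = L c x ∨ y = N c x) ↔ (y = L c' x ∨ y = N c' x) := by
      intro x y
      have h1 := hp2 c (F x) (F y)
      have h2 := hp2 c' (F x) (F y)
      rw [he', h2] at h1
      simp only [Equiv.symm_apply_apply, F.apply_eq_iff_eq] at h1
      exact h1.symm
    obtain ⟨e0⟩ := hE
    have hfst : ∀ c v, ((N c v).1 : E → Bool) = v.1 := by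
      intro c v
      obtain ⟨i, hi⟩ := hNa c v
      rw [hi]
    obtain ⟨h1, h2⟩ := pair_unique (L c) (N c) (L c') (N c') (fun v => v.1) (hL c) (hN c) (hL c')
      (hN c') hnb (hconn c) (hfst c) (hfst c')
      ⟨(fun _ => false, fun _ => false), (fun _ => true, fun _ => false), by
        intro h
        have := congrFun h e0
        simp at this⟩
    exact hinj c c' h1 h2
  exact Nat.card_le_card_of_injective φ hφ

end Pool.Agent.KS6_27.HQ
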