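import Pool.Agent.KS6_27.HQ.Good
import Pool.Agent.KS6_27.HQ.Base

/-!
# The upper bound for the number of Hamiltonian circuits
-/

set_option autoImplicit false

namespace Pool.Agent.KS6_27.HQ

open Pool.Agent.Helper886 Pool.Agent.Helper886.HCube Function

theorem adj_flip {n : ℕ} {x y : Fin n → Bool} (h : (cube n).Adj x y) :
    ∃ i, y = HCube.flip i x := by
  obtain ⟨i, hi, hu⟩ := h
  refine ⟨i, ?_⟩
  funext j
  by_cases hj : j = i
  · subst hj
    rw [flip_same]
    cases h1 : x j <;> cases h2 : y j <;> simp_all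
  · rw [flip_ne hj]
    by_contra hne
    exact hj (hu j (fun h => hne h.symm))

/-- the successor along a Hamiltonian cycle -/
theorem succ_of_ham {V : Type} [DecidableEq V] {G : SimpleGraph V} {v : V} (p : G.Walk v v)
    (hp : p.IsHamiltonianCycle) : ∃ σ : V → V, (∀ x, G.Adj x (σ x)) ∧ Injective σ ∧
      ∀ a b, p.toSubgraph.Adj a b ↔ (b = σ a ∨ a = σ b) := by
  have hlen : 0 < p.length := by
    have := hp.isCycle.three_le_length
    omega
  have hex : ∀ a, ∃ j, j < p.length ∧ p.getVert j = a := by
    intro a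
    obtain ⟨j, hj, hjl⟩ := SimpleGraph.Walk.mem_support_iff_exists_getVert.mp (hp.mem_support a)
    rcases Nat.lt_or_ge j p.length with h | h
    · exact ⟨j, h, hj⟩
    · refine ⟨0, hlen, ?_⟩
      have h1 : j = p.length := le_antisymm hjl h
      rw [h1, SimpleGraph.Walk.getVert_length] at hj
      rw [SimpleGraph.Walk.getVert_zero]
      exact hj
  choose J hJl hJ using hex
  have huniq : ∀ i, i < p.length → J (p.getVert i) = i := by
    intro i hi
    apply hp.isCycle.getVert_injOn'
    · rw [Set.mem_ofPred_eq]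
      have := hJl (p.getVert i)
      omega
    · rw [Set.mem_ofPred_eq]
      omega
    · exact hJ _
  refine ⟨fun a => p.getVert (J a + 1), ?_, ?_, ?_⟩
  · intro x
    have := p.adj_getVert_succ (hJl x)
    rw [hJ] at this
    exact this
  · intro a b h
    have h1 : J a + 1 = J b + 1 := by
      apply hp.isCycle.getVert_injOn
      · rw [Set.mem_ofPred_eq]
        have := hJl a
        omega
      · rw [Set.mem_ofPred_eq]
        have := hJl b
        omega
      · exact h
    have h2 : J a = J b := by omega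
    rw [← hJ a, h2, hJ]
  · intro a b
    rw [SimpleGraph.Walk.toSubgraph_adj_iff]
    constructor
    · rintro ⟨i, hi, hil⟩
      rw [Sym2.eq_iff] at hi
      rcases hi with ⟨h1, h2⟩ | ⟨h1, h2⟩
      · left
        show b = p.getVert (J a + 1)
        rw [← h1, huniq i hil, h2]
      · right
        show a = p.getVert (J b + 1)
        rw [← h1, huniq i hil, h2]
    · rintro (h | h)
      · refine ⟨J a, ?_, hJl a⟩
        rw [hJ, h]
      · refine ⟨J b, ?_, hJl b⟩
        rw [hJ, h]
        exact Sym2.eq_swap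

open Classical in
theorem f_le (n : ℕ) (hn : 1 ≤ n) : (f n : ℝ) ≤ Real.exp (2 ^ n * phi n) := by
  let d : Fin n → Bool := fun _ => false
  have hdata : ∀ H : {H : (cube n).Subgraph //
    ∃ (v : Fin n → Bool) (p : (cube n).Walk v v), p.IsHamiltonianCycle ∧ p.toSubgraph = H},
      ∃ σ : (Fin n → Bool) → (Fin n → Bool), (∀ x, (cube n).Adj x (σ x)) ∧ Injective σ ∧
        (∀ a b, H.1.Adj a b ↔ (b = σ a ∨ a = σ b)) ∧ H.1.verts = Set.univ := by
    rintro ⟨H, v, p, hp, rfl⟩
    obtain ⟨σ, h1, h2, h3⟩ := succ_of_ham p hp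
    refine ⟨σ, h1, h2, h3, ?_⟩
    rw [Set.eq_univ_iff_forall]
    intro x
    rw [SimpleGraph.Walk.mem_verts_toSubgraph]
    exact hp.mem_support x
  choose σ h1 h2 h3 h4 using hdata
  have hpar : ∀ H s x, x ∈ Ev n s → σ H x ∈ Ev n (!s) := by
    intro H s x hx
    rw [mem_Ev] at hx ⊢
    have h5 : piP x ≠ piP (σ H x) := RP_piP (adj_flip (h1 H x))
    rw [hx] at h5
    cases s <;> cases h6 : piP (σ H x) <;> simp_all
  let F : Bool → {H : (cube n).Subgraph //
    ∃ (v : Fin n → Bool) (p : (cube n).Walk v v), p.IsHamiltonianCycle ∧ p.toSubgraph = H} →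
      (Fin n → Bool) → (Fin n → Bool) := fun s H x => if x ∈ Ev n s then σ H x else d
  have hF : ∀ s H, F s H ∈ PM NN d (Ev n s) (Ev n (!s)) := by
    intro s H
    rw [mem_PM]
    refine ⟨?_, ?_, ?_⟩
    · intro a ha
      simp only [F, ha, if_true]
      exact ⟨hpar H s a ha, adj_flip (h1 H a)⟩
    · intro a ha a' ha' h
      simp only [F, ha, ha', if_true] at h
      exact h2 H h
    · intro a ha
      simp only [F, ha, if_false]
  let Φ : {H : (cube n).Subgraph //
    ∃ (v : Fin n → Bool) (p : (cube n).Walk v v), p.IsHamiltonianCycle ∧ p.toSubgraph = H} →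
      (PM NN d (Ev n true) (Ev n false)) × (PM NN d (Ev n false) (Ev n true)) := fun H =>
        (⟨F true H, hF true H⟩, ⟨F false H, hF false H⟩)
  have hΦ : Injective Φ := by
    intro H H' h
    have e1 : F true H = F true H' := congrArg (fun z => (z.1 : (Fin n → Bool) → (Fin n → Bool))) h
    have e2 : F false H = F false H' := congrArg (fun z => (z.2 : (Fin n → Bool) → (Fin n → Bool))) h
    have hσ : σ H = σ H' := by
      funext x
      cases hx : piP x
      · have hx' : x ∈ Ev n false := mem_Ev.mpr hx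
        have := congrFun e2 x
        simpa only [F, hx', if_true] using this
      · have hx' : x ∈ Ev n true := mem_Ev.mpr hx
        have := congrFun e1 x
        simpa only [F, hx', if_true] using this
    apply Subtype.ext
    apply SimpleGraph.Subgraph.ext
    · rw [h4, h4]
    · funext a b
      apply propext
      rw [h3, h3, hσ]
  have hc := Nat.card_le_card_of_injective Φ hΦ
  have hcs : ∀ s : Finset ((Fin n → Bool) → (Fin n → Bool)), Nat.card s = s.card := fun s =>
    Nat.card_eq_fintype_card.trans (Fintype.card_coe s)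
  rw [Nat.card_prod, hcs, hcs] at hc
  have hc' : (f n : ℝ) ≤ ((PM NN d (Ev n true) (Ev n false)).card : ℝ) *
      ((PM NN d (Ev n false) (Ev n true)).card : ℝ) := by
    unfold f
    exact_mod_cast hc
  have b1 := breg_card NN d (Ev n true) (Ev n false) ((card_Ev hn true).trans (card_Ev hn false).symm)
    n (fun a _ => deg_le a _)
  have b2 := breg_card NN d (Ev n false) (Ev n true) ((card_Ev hn false).trans (card_Ev hn true).symm)
    n (fun a _ => deg_le a _)
  rw [card_Ev hn] at b1 b2
  refine hc'.trans ((mul_le_mul b1 b2 (Nat.cast_nonneg _) (Real.exp_pos _).le).trans (le_of_eq ?_))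
  rw [← Real.exp_add]
  congr 1
  push_cast
  have h5 : (2 : ℝ) ^ n = 2 * 2 ^ (n - 1) := by
    rw [← pow_succ']; congr 1; omega
  rw [h5]
  ring

end Pool.Agent.KS6_27.HQ
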