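import Pool.Agent.KS6_27.HQ.Low
import Pool.Agent.KS6_27.HQ.Up

/-!
# The asymptotics of the number of Hamiltonian circuits
-/

set_option autoImplicit false

namespace Pool.Agent.KS6_27.HQ

open Filter Topology

theorem sq_le_two_pow (m : ℕ) (hm : 4 ≤ m) : m * m ≤ 2 ^ m := by
  induction m, hm using Nat.le_induction with
  | base => norm_num
  | succ m hm ih =>
    rw [pow_succ]
    nlinarith

/-- the lower bound with an explicit error term -/
theorem quant (n : ℕ) (hn : 2 ^ 164 ≤ n) :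
    Real.exp (2 ^ n * (Real.log n - 1 - 2 ^ 43 * Real.log n / (n : ℝ) ^ (1 / 4 : ℝ))) ≤ (f n : ℝ) := by
  have hn0 : n ≠ 0 := by
    have : 0 < 2 ^ 164 := by positivity
    omega
  have hnpos : (0 : ℝ) < n := by positivity
  obtain ⟨κ, hκdef⟩ : ∃ κ, κ = Nat.log 2 n / 4 := ⟨_, rfl⟩
  have hlog : 164 ≤ Nat.log 2 n := by
    have := Nat.log_mono_right (b := 2) hn
    rwa [Nat.log_pow (by norm_num)] at this
  have hκ41 : 41 ≤ κ := by omega
  have hn1 : 2 ^ (4 * κ) ≤ n :=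
    (Nat.pow_le_pow_right (by norm_num) (by omega)).trans (Nat.pow_log_le_self 2 hn0)
  have hn2 : n < 2 ^ (4 * κ + 4) :=
    lt_of_lt_of_le (Nat.lt_pow_succ_log_self (by norm_num) n)
      (Nat.pow_le_pow_right (by norm_num) (by omega))
  obtain ⟨m, c, F, hcm, hm1, h2m, hmn, hF, hf⟩ := lower_param κ (κ - 40) n (by omega) hn1 hn2
  have hm0 : (0 : ℝ) < m := by exact_mod_cast hm1
  have hmn' : (m : ℝ) ≤ n := by
    have : m ≤ n := by omega
    exact_mod_cast this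
  have hl2' : (0.6931471803 : ℝ) < Real.log 2 := Real.log_two_gt_d9
  have hl2'' : Real.log 2 < (0.6931471808 : ℝ) := Real.log_two_lt_d9
  set X : ℝ := 1 / 2 ^ κ with hX
  have hX0 : 0 < X := by positivity
  have hXsmall : X ≤ 1 / 2 ^ 41 := by
    rw [hX]
    apply one_div_le_one_div_of_le (by positivity)
    exact pow_le_pow_right₀ (by norm_num) hκ41
  -- `m` is large
  have hκm : 2 ^ κ ≤ m := by
    have h1 : 2 * 2 ^ κ ≤ 2 ^ (4 * κ) := by
      rw [← pow_succ']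
      exact Nat.pow_le_pow_right (by norm_num) (by omega)
    omega
  have hm4 : 4 ≤ m := by
    have : 2 ^ 2 ≤ 2 ^ κ := Nat.pow_le_pow_right (by norm_num) (by omega)
    omega
  -- `B`
  set B : ℝ := m * Real.log 2 / 2 ^ m with hB
  have hB0 : 0 ≤ B := by
    have : 0 < Real.log 2 := by linarith
    positivity
  have hBX : B ≤ X := by
    rw [hB, hX, div_le_div_iff₀ (by positivity) (by positivity), one_mul]
    have h1 : (m : ℝ) * m ≤ 2 ^ m := by exact_mod_cast sq_le_two_pow m hm4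
    have h2 : (2 : ℝ) ^ κ ≤ m := by exact_mod_cast hκm
    calc (m : ℝ) * Real.log 2 * 2 ^ κ ≤ m * 1 * m := by
          apply mul_le_mul _ h2 (by positivity) (by positivity)
          exact mul_le_mul_of_nonneg_left (by linarith) hm0.le
      _ = m * m := by ring
      _ ≤ _ := h1
  -- `A`
  set A : ℝ := Real.log m - 1 with hA
  have hη : (1 : ℝ) / 2 ^ (κ - 40) = 2 ^ 40 * X := by
    rw [hX]
    have : (2 : ℝ) ^ κ = 2 ^ (κ - 40) * 2 ^ 40 := by
      rw [← pow_add]; congr 1; omega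
    rw [this]
    field_simp
  rw [hη] at hmn
  have hη2 : (2 : ℝ) ^ 40 * X ≤ 1 / 2 := by
    calc (2 : ℝ) ^ 40 * X ≤ 2 ^ 40 * (1 / 2 ^ 41) := mul_le_mul_of_nonneg_left hXsmall (by positivity)
      _ = 1 / 2 := by norm_num
  have hAn : Real.log n - 1 - 2 ^ 41 * X ≤ A := by
    have h1 : (0 : ℝ) < 1 - 2 ^ 40 * X := by linarith
    have h2 := Real.log_le_log (by positivity) hmn
    rw [Real.log_mul h1.ne' hnpos.ne'] at h2
    have h3 : 1 - (1 - 2 ^ 40 * X)⁻¹ ≤ Real.log (1 - 2 ^ 40 * X) :=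
      Real.one_sub_inv_le_log_of_pos h1
    have h4 : (1 - 2 ^ 40 * X)⁻¹ ≤ 1 + 2 ^ 41 * X := by
      rw [inv_le_comm₀ h1 (by positivity), inv_le_iff_one_le_mul₀ (by positivity)]
      nlinarith [mul_nonneg hX0.le (by linarith : (0 : ℝ) ≤ 1 / 2 - 2 ^ 40 * X)]
    have h5 : -(2 ^ 41 * X) ≤ Real.log (1 - 2 ^ 40 * X) := by
      calc -(2 ^ 41 * X) = 1 - (1 + 2 ^ 41 * X) := by ring
        _ ≤ 1 - (1 - 2 ^ 40 * X)⁻¹ := sub_le_sub_left h4 1
        _ ≤ _ := h3
    rw [hA]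
    linarith only [h2, h5]
  have hA1 : 1 ≤ A := by
    rw [hA]
    have h1 : Real.log (2 ^ 4) ≤ Real.log m := by
      apply Real.log_le_log (by norm_num)
      have h2 : 2 ^ 4 ≤ m := by
        have : 2 ^ 4 ≤ 2 ^ κ := Nat.pow_le_pow_right (by norm_num) (by omega)
        omega
      exact_mod_cast h2
    rw [Real.log_pow] at h1
    push_cast at h1
    linarith
  have hAB : 0 ≤ A - B := by
    have : X ≤ 1 := hXsmall.trans (by norm_num)
    linarith
  -- the logarithm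
  have hexp : (((m : ℝ) / Real.exp 1) ^ (2 ^ m) / 2 ^ m) = Real.exp (2 ^ m * (A - B)) := by
    have h1 : (2 : ℝ) ^ m * (A - B) = ((2 ^ m : ℕ) : ℝ) * A - (m : ℝ) * Real.log 2 := by
      rw [hB]
      push_cast
      field_simp
    rw [h1, Real.exp_sub, Real.exp_nat_mul, Real.exp_nat_mul, Real.exp_log (by norm_num), hA,
      Real.exp_sub, Real.exp_log hm0]
  rw [hexp, ← Real.exp_nat_mul] at hf
  refine le_trans (Real.exp_le_exp.mpr ?_) hf
  -- compare the exponents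
  have hW0 : 0 ≤ (2 : ℝ) ^ m * (A - B) := by positivity
  have h1 : (1 - 2 ^ 17 / 2 ^ κ) * (2 : ℝ) ^ c * (2 ^ m * (A - B)) ≤ F * (2 ^ m * (A - B)) :=
    mul_le_mul_of_nonneg_right hF hW0
  refine le_trans ?_ h1
  have h2 : (2 : ℝ) ^ n = 2 ^ c * 2 ^ m := by rw [← pow_add, hcm]
  have h3 : (1 - 2 ^ 17 / 2 ^ κ) * (2 : ℝ) ^ c * (2 ^ m * (A - B)) =
      2 ^ n * ((1 - 2 ^ 17 * X) * (A - B)) := by
    rw [h2, hX]
    ring
  rw [h3]
  apply mul_le_mul_of_nonneg_left _ (by positivity)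
  have hlogn1 : 1 ≤ Real.log n := by
    have h4 : Real.log m ≤ Real.log n := Real.log_le_log hm0 hmn'
    rw [hA] at hA1
    linarith
  have hAB2 : A - B ≤ Real.log n := by
    have h4 : Real.log m ≤ Real.log n := Real.log_le_log hm0 hmn'
    rw [hA]
    linarith
  -- the error term
  have hrpow : X ≤ 2 / (n : ℝ) ^ (1 / 4 : ℝ) := by
    have h4 : (n : ℝ) ^ (1 / 4 : ℝ) ≤ 2 ^ (κ + 1) := by
      have h5 : (n : ℝ) ≤ (2 ^ (κ + 1)) ^ 4 := by
        have h6 : n ≤ (2 ^ (κ + 1)) ^ 4 := by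
          rw [← pow_mul]
          refine hn2.le.trans (le_of_eq ?_)
          congr 1
          ring
        exact_mod_cast h6
      calc (n : ℝ) ^ (1 / 4 : ℝ) ≤ ((2 ^ (κ + 1)) ^ 4) ^ (1 / 4 : ℝ) :=
            Real.rpow_le_rpow hnpos.le h5 (by norm_num)
        _ = 2 ^ (κ + 1) := by
            rw [← Real.rpow_natCast ((2 : ℝ) ^ (κ + 1)) 4, ← Real.rpow_mul (by positivity)]
            norm_num
    rw [hX, div_le_div_iff₀ (by positivity) (by positivity), one_mul]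
    calc (n : ℝ) ^ (1 / 4 : ℝ) ≤ 2 ^ (κ + 1) := h4
      _ = 2 * 2 ^ κ := by rw [pow_succ]; ring
  have h4 : 2 ^ 42 * X * Real.log n ≤ 2 ^ 43 * Real.log n / (n : ℝ) ^ (1 / 4 : ℝ) := by
    have h5 : 2 ^ 42 * X * Real.log n ≤ 2 ^ 42 * (2 / (n : ℝ) ^ (1 / 4 : ℝ)) * Real.log n := by
      apply mul_le_mul_of_nonneg_right _ (by linarith)
      exact mul_le_mul_of_nonneg_left hrpow (by positivity)
    refine h5.trans (le_of_eq ?_)
    ring
  have h5 : 2 ^ 17 * X * (A - B) ≤ 2 ^ 17 * X * Real.log n :=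
    mul_le_mul_of_nonneg_left hAB2 (by positivity)
  have h6 : X * 1 ≤ X * Real.log n := mul_le_mul_of_nonneg_left hlogn1 hX0.le
  nlinarith

theorem tend_err : Tendsto (fun n : ℕ => (2 : ℝ) ^ 43 * Real.log n / (n : ℝ) ^ (1 / 4 : ℝ)) atTop
    (𝓝 0) := by
  have h1 : Tendsto (fun x : ℝ => Real.log x / x ^ (1 / 4 : ℝ)) atTop (𝓝 0) :=
    (isLittleO_log_rpow_atTop (by norm_num : (0 : ℝ) < 1 / 4)).tendsto_div_nhds_zero
  have h2 := (h1.comp tendsto_natCast_atTop_atTop).const_mul ((2 : ℝ) ^ 43)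
  rw [mul_zero] at h2
  refine h2.congr ?_
  intro n
  simp only [Function.comp_apply]
  ring

theorem tend_err2 : Tendsto (fun n : ℕ => (1 + Real.log n) / (n : ℝ)) atTop (𝓝 0) := by
  have h1 : Tendsto (fun x : ℝ => Real.log x / x ^ (1 : ℝ)) atTop (𝓝 0) :=
    (isLittleO_log_rpow_atTop (by norm_num : (0 : ℝ) < 1)).tendsto_div_nhds_zero
  have h2 := h1.comp (tendsto_natCast_atTop_atTop (R := ℝ))
  have h3 : Tendsto (fun n : ℕ => (1 : ℝ) / (n : ℝ)) atTop (𝓝 0) := tendsto_one_div_atTop_nhds_zero_nat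
  have h4 := h3.add h2
  rw [add_zero] at h4
  refine h4.congr ?_
  intro n
  simp only [Function.comp_apply, Real.rpow_one]
  ring

/-- the lower bound -/
theorem lower (k : ℝ) (hk0 : 0 < k) (hk : k < 1 / Real.exp 1) :
    ∃ n₀ : ℕ, ∀ n : ℕ, n₀ ≤ n → (k * (n : ℝ)) ^ (2 ^ n) < (f n : ℝ) := by
  have hs : 0 < -1 - Real.log k := by
    have h1 := Real.log_lt_log hk0 hk
    rw [one_div, Real.log_inv, Real.log_exp] at h1
    linarith
  have h1 := (tendsto_order.mp tend_err).2 _ hs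
  rw [eventually_atTop] at h1
  obtain ⟨n₁, hn₁⟩ := h1
  refine ⟨max n₁ (2 ^ 164), fun n hn => ?_⟩
  have hn2 : 2 ^ 164 ≤ n := le_trans (le_max_right _ _) hn
  have h2 := hn₁ n (le_trans (le_max_left _ _) hn)
  have hnpos : (0 : ℝ) < n := by
    have : 0 < n := lt_of_lt_of_le (by positivity) hn2
    exact_mod_cast this
  refine lt_of_lt_of_le ?_ (quant n hn2)
  have h3 : (k * (n : ℝ)) ^ (2 ^ n) = Real.exp (2 ^ n * Real.log (k * n)) := by
    have h4 : (2 : ℝ) ^ n = ((2 ^ n : ℕ) : ℝ) := by push_cast; rfl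
    rw [h4, Real.exp_nat_mul, Real.exp_log (by positivity)]
  rw [h3, Real.log_mul hk0.ne' hnpos.ne']
  apply Real.exp_lt_exp.mpr
  apply mul_lt_mul_of_pos_left _ (by positivity)
  linarith

theorem upper_exp (n : ℕ) (hn : 1 ≤ n) :
    (f n : ℝ) ≤ Real.exp (2 ^ n * (Real.log n - 1 + (1 + Real.log n) / n)) := by
  refine (f_le n hn).trans (Real.exp_le_exp.mpr ?_)
  exact mul_le_mul_of_nonneg_left (phi_le n hn) (by positivity)

theorem upper_fact (n : ℕ) (hn : 1 ≤ n) :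
    (f n : ℝ) ≤ (n.factorial : ℝ) ^ ((2 : ℝ) ^ n / n) := by
  refine (f_le n hn).trans (le_of_eq ?_)
  have hf : (0 : ℝ) < (n.factorial : ℝ) := by exact_mod_cast Nat.factorial_pos n
  rw [Real.rpow_def_of_pos hf]
  congr 1
  unfold phi
  ring

/-- the upper bound -/
theorem upper (k : ℝ) (hk : 1 / Real.exp 1 < k) :
    ∃ n₀ : ℕ, ∀ n : ℕ, n₀ ≤ n → (f n : ℝ) < (k * (n : ℝ)) ^ (2 ^ n) := by
  have hk0 : 0 < k := lt_trans (by positivity) hk
  have hs : 0 < 1 + Real.log k := by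
    have h1 := Real.log_lt_log (by positivity) hk
    rw [one_div, Real.log_inv, Real.log_exp] at h1
    linarith
  have h1 := (tendsto_order.mp tend_err2).2 _ hs
  rw [eventually_atTop] at h1
  obtain ⟨n₁, hn₁⟩ := h1
  refine ⟨max n₁ 1, fun n hn => ?_⟩
  have hn2 : 1 ≤ n := le_trans (le_max_right _ _) hn
  have h2 := hn₁ n (le_trans (le_max_left _ _) hn)
  have hnpos : (0 : ℝ) < n := by exact_mod_cast hn2
  refine lt_of_le_of_lt (upper_exp n hn2) ?_
  have h3 : (k * (n : ℝ)) ^ (2 ^ n) = Real.exp (2 ^ n * Real.log (k * n)) := by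
    have h4 : (2 : ℝ) ^ n = ((2 ^ n : ℕ) : ℝ) := by push_cast; rfl
    rw [h4, Real.exp_nat_mul, Real.exp_log (by positivity)]
  rw [h3, Real.log_mul hk0.ne' hnpos.ne']
  apply Real.exp_lt_exp.mpr
  apply mul_lt_mul_of_pos_left _ (by positivity)
  linarith

/-- the limit -/
theorem limit : Tendsto (fun n : ℕ => ((f n : ℝ) ^ ((1 : ℝ) / 2 ^ n)) / n) atTop
    (𝓝 (1 / Real.exp 1)) := by
  have hroot : ∀ n : ℕ, ∀ z : ℝ, Real.exp (2 ^ n * z) ^ ((1 : ℝ) / 2 ^ n) = Real.exp z := by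
    intro n z
    rw [← Real.exp_mul]
    congr 1
    field_simp
  have hlow : Tendsto (fun n : ℕ => Real.exp (-1 - (2 : ℝ) ^ 43 * Real.log n / (n : ℝ) ^ (1 / 4 : ℝ)))
      atTop (𝓝 (1 / Real.exp 1)) := by
    have h1 := (tendsto_const_nhds (x := (-1 : ℝ))).sub tend_err
    rw [sub_zero] at h1
    have h2 := (Real.continuous_exp.tendsto (-1)).comp h1
    rw [Real.exp_neg, ← one_div] at h2
    exact h2
  have hup : Tendsto (fun n : ℕ => Real.exp (-1 + (1 + Real.log n) / (n : ℝ)))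
      atTop (𝓝 (1 / Real.exp 1)) := by
    have h1 := (tendsto_const_nhds (x := (-1 : ℝ))).add tend_err2
    rw [add_zero] at h1
    have h2 := (Real.continuous_exp.tendsto (-1)).comp h1
    rw [Real.exp_neg, ← one_div] at h2
    exact h2
  refine tendsto_of_tendsto_of_tendsto_of_le_of_le' hlow hup ?_ ?_
  · filter_upwards [eventually_ge_atTop (2 ^ 164)] with n hn
    have hnpos : (0 : ℝ) < n := by
      have : 0 < n := lt_of_lt_of_le (by positivity) hn
      exact_mod_cast this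
    rw [le_div_iff₀ hnpos]
    have h1 := Real.rpow_le_rpow (Real.exp_pos _).le (quant n hn)
      (by positivity : (0 : ℝ) ≤ 1 / 2 ^ n)
    rw [hroot] at h1
    refine le_trans (le_of_eq ?_) h1
    have h2 : Real.log n - 1 - 2 ^ 43 * Real.log n / (n : ℝ) ^ (1 / 4 : ℝ) =
        (-1 - 2 ^ 43 * Real.log n / (n : ℝ) ^ (1 / 4 : ℝ)) + Real.log n := by ring
    rw [h2, Real.exp_add _ (Real.log n), Real.exp_log hnpos]
  · filter_upwards [eventually_ge_atTop 1] with n hn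
    have hnpos : (0 : ℝ) < n := by exact_mod_cast hn
    rw [div_le_iff₀ hnpos]
    have h1 := Real.rpow_le_rpow (Nat.cast_nonneg _) (upper_exp n hn)
      (by positivity : (0 : ℝ) ≤ 1 / 2 ^ n)
    rw [hroot] at h1
    refine h1.trans (le_of_eq ?_)
    have h2 : Real.log n - 1 + (1 + Real.log n) / n =
        (-1 + (1 + Real.log n) / n) + Real.log n := by ring
    rw [h2, Real.exp_add _ (Real.log n), Real.exp_log hnpos]

end Pool.Agent.KS6_27.HQ
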