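import Mathlib

/-!
# Brègman's theorem (Schrijver's proof)
-/

set_option autoImplicit false

namespace Pool.Agent.KS6_27.HQ

open Finset Function

/-- `log (r!) / r` -/
noncomputable def phi (r : ℕ) : ℝ := Real.log (r.factorial : ℝ) / r

theorem phi_nonneg (r : ℕ) : 0 ≤ phi r := by
  unfold phi
  have h1 : (1 : ℝ) ≤ (r.factorial : ℝ) := by exact_mod_cast Nat.factorial_pos r
  exact div_nonneg (Real.log_nonneg h1) (Nat.cast_nonneg r)

theorem mul_phi (r : ℕ) : (r : ℝ) * phi r = Real.log (r.factorial : ℝ) := by
  unfold phi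
  rcases Nat.eq_zero_or_pos r with h | h
  · subst h; simp
  · have : (r : ℝ) ≠ 0 := by positivity
    field_simp

theorem phi_mono : Monotone phi := by
  refine monotone_nat_of_le_succ ?_
  intro r
  rcases Nat.eq_zero_or_pos r with h | h
  · subst h
    have : phi 0 = 0 := by simp [phi]
    rw [this]; exact phi_nonneg _
  · have hr : (0 : ℝ) < r := by positivity
    have hf : (0 : ℝ) < (r.factorial : ℝ) := by exact_mod_cast Nat.factorial_pos r
    unfold phi
    rw [div_le_div_iff₀ hr (by positivity), Nat.factorial_succ]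
    push_cast
    rw [Real.log_mul (by positivity) hf.ne']
    have h1 : Real.log (r.factorial : ℝ) ≤ r * Real.log ((r : ℝ) + 1) := by
      rw [← Real.log_pow]
      apply Real.log_le_log hf
      have h2 : r.factorial ≤ (r + 1) ^ r :=
        (Nat.factorial_le_pow r).trans (Nat.pow_le_pow_left (Nat.le_succ r) r)
      exact_mod_cast h2
    nlinarith

section

variable {α β : Type} [Fintype α] [DecidableEq α] [Fintype β] [DecidableEq β]
  (N : α → β → Prop) [∀ a b, Decidable (N a b)] (d : β)

/-- the partial matchings of `A` into `B` -/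
def PM (A : Finset α) (B : Finset β) : Finset (α → β) :=
  univ.filter (fun f => (∀ a ∈ A, f a ∈ B ∧ N a (f a)) ∧ (∀ a ∈ A, ∀ a' ∈ A, f a = f a' → a = a') ∧
    ∀ a, a ∉ A → f a = d)

theorem mem_PM {A : Finset α} {B : Finset β} {f : α → β} : f ∈ PM N d A B ↔
    (∀ a ∈ A, f a ∈ B ∧ N a (f a)) ∧ (∀ a ∈ A, ∀ a' ∈ A, f a = f a' → a = a') ∧
    ∀ a, a ∉ A → f a = d := by
  unfold PM
  rw [mem_filter]
  exact ⟨fun h => h.2, fun h => ⟨mem_univ _, h⟩⟩

/-- the degree -/
def deg (a : α) (B : Finset β) : ℕ := (B.filter (N a)).card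

theorem fiber_le {A : Finset α} {B : Finset β} {i : α} (hi : i ∈ A) (b : β) :
    ((PM N d A B).filter (fun f => f i = b)).card ≤ (PM N d (A.erase i) (B.erase b)).card := by
  refine card_le_card_of_injOn (fun f => update f i d) ?_ ?_
  · intro f hf
    rw [mem_coe, mem_filter, mem_PM] at hf
    obtain ⟨⟨h1, h2, h3⟩, h4⟩ := hf
    rw [mem_coe, mem_PM]
    refine ⟨?_, ?_, ?_⟩
    · intro a ha
      have hai := (mem_erase.mp ha).1
      have haA := (mem_erase.mp ha).2
      simp only [update_of_ne hai]
      refine ⟨mem_erase.mpr ⟨?_, (h1 a haA).1⟩, (h1 a haA).2⟩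
      intro h
      exact hai (h2 a haA i hi (h.trans h4.symm))
    · intro a ha a' ha' h
      have hai := (mem_erase.mp ha).1
      have hai' := (mem_erase.mp ha').1
      simp only [update_of_ne hai, update_of_ne hai'] at h
      exact h2 a (mem_erase.mp ha).2 a' (mem_erase.mp ha').2 h
    · intro a ha
      by_cases hai : a = i
      · subst hai; simp
      · simp only [update_of_ne hai]
        exact h3 a (fun h => ha (mem_erase.mpr ⟨hai, h⟩))
  · intro f hf g hg h
    rw [mem_coe, mem_filter] at hf hg
    funext a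
    by_cases hai : a = i
    · subst hai; rw [hf.2, hg.2]
    · have := congrFun h a
      simpa only [update_of_ne hai] using this

omit [Fintype α] [DecidableEq α] [Fintype β] in
theorem deg_erase (a : α) (B : Finset β) {b : β} (hb : b ∈ B) :
    deg N a (B.erase b) = if N a b then deg N a B - 1 else deg N a B := by
  unfold deg
  rw [filter_erase]
  split_ifs with h
  · rw [card_erase_of_mem (mem_filter.mpr ⟨hb, h⟩)]
  · rw [erase_eq_of_notMem (fun h' => h (mem_filter.mp h').2)]

theorem breg (n : ℕ) : ∀ (A : Finset α) (B : Finset β), A.card = n → B.card = n →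
    Real.log ((PM N d A B).card : ℝ) ≤ ∑ a ∈ A, phi (deg N a B) := by
  induction n with
  | zero =>
    intro A B hA hB
    rw [card_eq_zero] at hA
    subst hA
    have h1 : (PM N d ∅ B).card ≤ 1 := by
      rw [card_le_one]
      intro f hf g hg
      rw [mem_PM] at hf hg
      funext a
      rw [hf.2.2 a (by simp), hg.2.2 a (by simp)]
    rw [sum_empty]
    have h2 : ((PM N d ∅ B).card : ℝ) ≤ 1 := by exact_mod_cast h1
    exact Real.log_nonpos (Nat.cast_nonneg _) h2
  | succ n ih =>
    intro A B hA hB
    set S := PM N d A B with hS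
    rcases Nat.eq_zero_or_pos S.card with h0 | h0
    · rw [h0]
      simp only [Nat.cast_zero, Real.log_zero]
      exact sum_nonneg (fun a _ => phi_nonneg _)
    set P : ℝ := (S.card : ℝ) with hP
    have hP0 : 0 < P := by rw [hP]; exact_mod_cast h0
    let F : α → β → ℕ := fun i b => (S.filter (fun f => f i = b)).card
    have hmem : ∀ f ∈ S, ∀ i ∈ A, f i ∈ B.filter (N i) := by
      intro f hf i hi
      rw [hS, mem_PM] at hf
      exact mem_filter.mpr (hf.1 i hi)
    have hdeg : ∀ i ∈ A, 1 ≤ deg N i B := by
      intro i hi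
      obtain ⟨f, hf⟩ := card_pos.mp h0
      exact card_pos.mpr ⟨f i, hmem f hf i hi⟩
    -- Jensen
    have hJ : ∀ i ∈ A, P * Real.log P ≤
        ∑ f ∈ S, (Real.log (F i (f i) : ℝ) + Real.log (deg N i B : ℝ)) := by
      intro i hi
      have hr : (0 : ℝ) < (deg N i B : ℝ) := by exact_mod_cast hdeg i hi
      have h1 : (∑ b ∈ B.filter (N i), (F i b : ℝ)) = P := by
        have := card_eq_sum_card_fiberwise (f := fun f : α → β => f i) (s := S)
          (t := B.filter (N i)) (fun f hf => hmem f hf i hi)
        rw [hP, this]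
        push_cast
        rfl
      have h2 : ∑ f ∈ S, Real.log (F i (f i) : ℝ) =
          ∑ b ∈ B.filter (N i), (F i b : ℝ) * Real.log (F i b : ℝ) := by
        rw [← sum_fiberwise_of_maps_to (fun f hf => hmem f hf i hi)]
        refine sum_congr rfl ?_
        intro b _
        rw [sum_congr rfl (g := fun _ => Real.log (F i b : ℝ)) (by
          intro f hf
          rw [(mem_filter.mp hf).2])]
        rw [sum_const, nsmul_eq_mul]
      have h3 := Real.convexOn_mul_log.map_sum_le (t := B.filter (N i))
        (w := fun _ => 1 / (deg N i B : ℝ)) (p := fun b => (F i b : ℝ)) (fun _ _ => by positivity)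
        (by
          rw [sum_const, nsmul_eq_mul]
          show (deg N i B : ℝ) * _ = 1
          field_simp)
        (fun b _ => by simp)
      simp only [smul_eq_mul] at h3
      rw [← mul_sum, ← mul_sum, h1] at h3
      have h4 : P * Real.log (1 / (deg N i B : ℝ) * P) ≤
          ∑ b ∈ B.filter (N i), (F i b : ℝ) * Real.log (F i b : ℝ) := by
        have h5 := mul_le_mul_of_nonneg_left h3 hr.le
        have e1 : (deg N i B : ℝ) * (1 / (deg N i B : ℝ) * P * Real.log (1 / (deg N i B : ℝ) * P)) =
            P * Real.log (1 / (deg N i B : ℝ) * P) := by field_simp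
        have e2 : (deg N i B : ℝ) * (1 / (deg N i B : ℝ) *
            ∑ b ∈ B.filter (N i), (F i b : ℝ) * Real.log (F i b : ℝ)) =
            ∑ b ∈ B.filter (N i), (F i b : ℝ) * Real.log (F i b : ℝ) := by field_simp
        rwa [e1, e2] at h5
      rw [Real.log_mul (by positivity) hP0.ne', one_div, Real.log_inv] at h4
      rw [sum_add_distrib, sum_const, nsmul_eq_mul, h2]
      have : (S.card : ℝ) = P := rfl
      rw [this]
      linarith
    -- for one matching
    have hf : ∀ f ∈ S, ∑ i ∈ A, (Real.log (F i (f i) : ℝ) + Real.log (deg N i B : ℝ)) ≤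
        ((n : ℝ) + 1) * ∑ j ∈ A, phi (deg N j B) := by
      intro f hfS
      have hfS' := hfS
      rw [hS, mem_PM] at hfS'
      obtain ⟨hf1, hf2, _⟩ := hfS'
      have h1 : ∀ i ∈ A, Real.log (F i (f i) : ℝ) ≤
          ∑ j ∈ A.erase i, phi (deg N j (B.erase (f i))) := by
        intro i hi
        have h2 : F i (f i) ≤ (PM N d (A.erase i) (B.erase (f i))).card :=
          fiber_le N d hi (f i)
        have h3 : 0 < F i (f i) := card_pos.mpr ⟨f, mem_filter.mpr ⟨hfS, rfl⟩⟩
        have h2' : (F i (f i) : ℝ) ≤ ((PM N d (A.erase i) (B.erase (f i))).card : ℝ) := by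
          exact_mod_cast h2
        refine le_trans (Real.log_le_log (by exact_mod_cast h3) h2') ?_
        refine ih _ _ ?_ ?_
        · rw [card_erase_of_mem hi, hA]; rfl
        · rw [card_erase_of_mem (hf1 i hi).1, hB]; rfl
      have h2 : ∑ i ∈ A, ∑ j ∈ A.erase i, phi (deg N j (B.erase (f i))) =
          ∑ j ∈ A, ∑ i ∈ A.erase j, phi (deg N j (B.erase (f i))) := by
        rw [sum_comm' (t' := A) (s' := fun j => A.erase j)]
        intro i j
        simp only [mem_erase]
        tauto
      have h3 : ∀ j ∈ A, ∑ i ∈ A.erase j, phi (deg N j (B.erase (f i))) =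
          ((n : ℝ) + 1) * phi (deg N j B) - Real.log (deg N j B : ℝ) := by
        intro j hj
        have e1 : ∑ i ∈ A.erase j, phi (deg N j (B.erase (f i))) =
            ∑ i ∈ A.erase j, (if N j (f i) then phi (deg N j B - 1) else phi (deg N j B)) := by
          refine sum_congr rfl ?_
          intro i hi
          rw [deg_erase N j B (hf1 i (mem_erase.mp hi).2).1]
          split_ifs <;> rfl
        rw [e1, sum_ite, sum_const, sum_const, nsmul_eq_mul, nsmul_eq_mul]
        -- cardinalities
        have himg : (A.filter (fun i => N j (f i))).card = deg N j B := by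
          unfold deg
          have hbij : (A.filter (fun i => N j (f i))).image f = B.filter (N j) := by
            have himgA : A.image f = B := by
              apply eq_of_subset_of_card_le
              · intro b hb
                obtain ⟨a, ha, rfl⟩ := mem_image.mp hb
                exact (hf1 a ha).1
              · rw [card_image_of_injOn (fun a ha a' ha' h => hf2 a ha a' ha' h), hA, hB]
            ext b
            constructor
            · intro hb
              obtain ⟨a, ha, rfl⟩ := mem_image.mp hb
              rw [mem_filter] at ha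
              exact mem_filter.mpr ⟨(hf1 a ha.1).1, ha.2⟩
            · intro hb
              rw [mem_filter] at hb
              obtain ⟨a, ha, rfl⟩ := mem_image.mp (himgA ▸ hb.1)
              exact mem_image.mpr ⟨a, mem_filter.mpr ⟨ha, hb.2⟩, rfl⟩
          rw [← hbij, card_image_of_injOn]
          intro a ha a' ha' h
          exact hf2 a (mem_filter.mp ha).1 a' (mem_filter.mp ha').1 h
        have c1 : ((A.erase j).filter (fun i => N j (f i))).card = deg N j B - 1 := by
          rw [filter_erase, card_erase_of_mem (mem_filter.mpr ⟨hj, (hf1 j hj).2⟩), himg]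
        have c2 : ((A.erase j).filter (fun i => ¬ N j (f i))).card + deg N j B = n + 1 := by
          have := card_filter_add_card_filter_not (s := A.erase j) (fun i => N j (f i))
          rw [c1, card_erase_of_mem hj, hA] at this
          have := hdeg j hj
          omega
        have c2' : ((((A.erase j).filter (fun i => ¬ N j (f i))).card : ℕ) : ℝ) =
            (n : ℝ) + 1 - (deg N j B : ℝ) := by
          have : (((((A.erase j).filter (fun i => ¬ N j (f i))).card : ℕ) : ℝ)) +
            (deg N j B : ℝ) = (n : ℝ) + 1 := by exact_mod_cast c2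
          linarith
        rw [c1, c2', mul_phi]
        obtain ⟨r, hr⟩ : ∃ r, deg N j B = r + 1 := ⟨deg N j B - 1, by have := hdeg j hj; omega⟩
        rw [hr, Nat.add_sub_cancel]
        have h4 := mul_phi (r + 1)
        rw [Nat.factorial_succ] at h4
        push_cast at h4 ⊢
        have hf0 : (0 : ℝ) < (r.factorial : ℝ) := by exact_mod_cast Nat.factorial_pos r
        rw [Real.log_mul (by positivity) hf0.ne'] at h4
        have h5 : ((n : ℝ) + 1 - (r + 1)) * phi (r + 1) = ((n : ℝ) + 1) * phi (r + 1) -
            (r + 1) * phi (r + 1) := by ring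
        rw [h5, h4]
        ring
      rw [sum_add_distrib]
      have h4 : ∑ i ∈ A, Real.log (F i (f i) : ℝ) ≤
          ∑ j ∈ A, (((n : ℝ) + 1) * phi (deg N j B) - Real.log (deg N j B : ℝ)) := by
        rw [← sum_congr rfl h3, ← h2]
        exact sum_le_sum h1
      rw [sum_sub_distrib, ← mul_sum] at h4
      linarith
    -- conclusion
    have h1 : ((n : ℝ) + 1) * (P * Real.log P) ≤ P * (((n : ℝ) + 1) * ∑ j ∈ A, phi (deg N j B)) := by
      calc ((n : ℝ) + 1) * (P * Real.log P) = ∑ i ∈ A, P * Real.log P := by
            rw [sum_const, nsmul_eq_mul, hA]; push_cast; ring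
        _ ≤ ∑ i ∈ A, ∑ f ∈ S, (Real.log (F i (f i) : ℝ) + Real.log (deg N i B : ℝ)) :=
            sum_le_sum hJ
        _ = ∑ f ∈ S, ∑ i ∈ A, (Real.log (F i (f i) : ℝ) + Real.log (deg N i B : ℝ)) := sum_comm
        _ ≤ ∑ f ∈ S, ((n : ℝ) + 1) * ∑ j ∈ A, phi (deg N j B) := sum_le_sum hf
        _ = P * (((n : ℝ) + 1) * ∑ j ∈ A, phi (deg N j B)) := by
            rw [sum_const, nsmul_eq_mul]
    have h2 : (((n : ℝ) + 1) * P) * Real.log P ≤ (((n : ℝ) + 1) * P) * ∑ j ∈ A, phi (deg N j B) := by
      calc (((n : ℝ) + 1) * P) * Real.log P = ((n : ℝ) + 1) * (P * Real.log P) := by ring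
        _ ≤ _ := h1
        _ = _ := by ring
    exact le_of_mul_le_mul_left h2 (by positivity)

/-- Brègman's theorem for bounded degrees -/
theorem breg_card (A : Finset α) (B : Finset β) (hAB : A.card = B.card) (m : ℕ)
    (hm : ∀ a ∈ A, deg N a B ≤ m) :
    ((PM N d A B).card : ℝ) ≤ Real.exp (A.card * phi m) := by
  rcases Nat.eq_zero_or_pos (PM N d A B).card with h0 | h0
  · rw [h0]
    simp only [Nat.cast_zero]
    exact (Real.exp_pos _).le
  · have h1 := breg N d A.card A B rfl hAB.symm
    have h2 : ∑ a ∈ A, phi (deg N a B) ≤ A.card * phi m := by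
      rw [← nsmul_eq_mul]
      exact sum_le_card_nsmul _ _ _ (fun a ha => phi_mono (hm a ha))
    rw [← Real.log_le_iff_le_exp (by exact_mod_cast h0)]
    exact h1.trans h2

end

end Pool.Agent.KS6_27.HQ
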