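import Pool.Graph.R_seed8.Helper886.HCube.Card
import Pool.Agent.KS6_27.HQ.Breg
import Pool.Agent.KS6_27.HQ.Cons

/-!
# Most pairs of perfect matchings of the cube have few cycles
-/

set_option autoImplicit false

namespace Pool.Agent.KS6_27.HQ

open Pool.Agent.Helper886 Pool.Agent.Helper886.HCube Function

/-- perfect matchings of the cube, as involutions -/
def IsMat {m : ℕ} (l : (Fin m → Bool) → (Fin m → Bool)) : Prop :=
  (∀ x, l (l x) = x) ∧ ∀ x, ∃ i, l x = HCube.flip i x

/-- a pair of matchings with few cycles -/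
def IsGood {m : ℕ} (κ : ℕ) (p : ((Fin m → Bool) → (Fin m → Bool)) × ((Fin m → Bool) → (Fin m → Bool))) :
    Prop :=
  ∃ U : Finset (Fin m → Bool), U.card < 2 ^ (m - κ) ∧ (∀ u ∈ U, p.1 u ∉ U) ∧
    ∀ x, ∃ u ∈ U, Reach p.1 p.2 x u

theorem card_mat {m : ℕ} (hm : 1 ≤ m) : ((m : ℝ) / Real.exp 1) ^ (2 ^ (m - 1)) ≤
    (Nat.card {l : (Fin m → Bool) → (Fin m → Bool) // IsMat l} : ℝ) := by
  classical
  refine (count_P hm true).trans ?_
  have : Nat.card (OInv (piP (d := m)) RP true) ≤
      Nat.card {l : (Fin m → Bool) → (Fin m → Bool) // IsMat l} := by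
    refine Nat.card_le_card_of_injective (fun l => ⟨l.1, l.2.1, ?_⟩) ?_
    · intro x
      by_cases hx : piP x = true
      · exact l.2.2.1 x hx
      · exact RP_symm (l.2.2.2 x hx)
    · intro l l' h
      exact Subtype.ext (congrArg
        (fun z : {l : (Fin m → Bool) → (Fin m → Bool) // IsMat l} => z.1) h)
  exact_mod_cast this

section

variable {m : ℕ}

/-- adjacency in the cube -/
abbrev NN (x y : Fin m → Bool) : Prop := ∃ i, y = HCube.flip i x

open Classical in
theorem deg_le (x : Fin m → Bool) (B : Finset (Fin m → Bool)) : deg NN x B ≤ m := by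
  unfold deg
  have h1 : B.filter (NN x) ⊆ Finset.univ.image (fun i => HCube.flip i x) := by
    intro y hy
    obtain ⟨i, hi⟩ := (Finset.mem_filter.mp hy).2
    exact Finset.mem_image.mpr ⟨i, Finset.mem_univ _, hi.symm⟩
  refine (Finset.card_le_card h1).trans (Finset.card_image_le.trans ?_)
  simp

/-- the even and the odd points -/
def Ev (m : ℕ) (s : Bool) : Finset (Fin m → Bool) := Finset.univ.filter (fun x => piP x = s)

theorem mem_Ev {s : Bool} {x : Fin m → Bool} : x ∈ Ev m s ↔ piP x = s := by
  unfold Ev; simp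

theorem mat_parity {l : (Fin m → Bool) → (Fin m → Bool)} (hl : IsMat l) {s : Bool}
    {x : Fin m → Bool} (hx : x ∈ Ev m s) : l x ∈ Ev m (!s) := by
  rw [mem_Ev] at hx ⊢
  have h1 : piP x ≠ piP (l x) := RP_piP (hl.2 x)
  rw [hx] at h1
  cases s <;> cases h2 : piP (l x) <;> simp_all

theorem mat_inj {l : (Fin m → Bool) → (Fin m → Bool)} (hl : IsMat l) : Injective l := by
  intro x y h
  rw [← hl.1 x, h, hl.1]

theorem mat_ne {l : (Fin m → Bool) → (Fin m → Bool)} (hl : IsMat l) (x : Fin m → Bool) :
    l x ≠ x := by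
  intro h
  obtain ⟨i, hi⟩ := hl.2 x
  rw [hi] at h
  exact flip_ne_self i x h

theorem isMat_flip (i : Fin m) : IsMat (HCube.flip (ι := Fin m) i) :=
  ⟨fun x => HCube.flip_flip i x, fun _ => ⟨i, rfl⟩⟩

theorem card_Ev (hm : 1 ≤ m) (s : Bool) : (Ev m s).card = 2 ^ (m - 1) := by
  have h1 : ∀ s, (Ev m s).card ≤ (Ev m (!s)).card := by
    intro s
    refine Finset.card_le_card_of_injOn (HCube.flip (⟨0, hm⟩ : Fin m)) ?_ ?_
    · intro x hx
      exact mat_parity (isMat_flip _) hx
    · exact (mat_inj (isMat_flip _)).injOn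
  have h2 : (Ev m true).card + (Ev m false).card = 2 ^ m := by
    have h3 := Finset.card_filter_add_card_filter_not (s := (Finset.univ : Finset (Fin m → Bool)))
      (fun x => piP x = true)
    have h4 : (Finset.univ.filter (fun x : Fin m → Bool => ¬ piP x = true)) = Ev m false := by
      ext x
      rw [mem_Ev]
      simp
    rw [h4] at h3
    have h5 : (Finset.univ : Finset (Fin m → Bool)).card = 2 ^ m := by
      rw [Finset.card_univ]; simp
    rw [h5] at h3
    exact h3
  have h3 := h1 true
  have h4 := h1 false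
  simp only [Bool.not_true, Bool.not_false] at h3 h4
  have h5 : 2 ^ m = 2 * 2 ^ (m - 1) := by
    rw [← pow_succ']; congr 1; omega
  cases s <;> omega

/-- no two points of `S` are connected -/
def Indep (M R : (Fin m → Bool) → (Fin m → Bool)) (S : Finset (Fin m → Bool)) : Prop :=
  ∀ u ∈ S, ∀ v ∈ S, Reach M R u v → u = v

theorem bad_indep (κ : ℕ) {M R : (Fin m → Bool) → (Fin m → Bool)} (hM : IsMat M) (hR : IsMat R)
    (hbad : ¬ IsGood κ (M, R)) : ∃ S : Finset (Fin m → Bool), S ⊆ Ev m true ∧
      S.card = 2 ^ (m - κ) ∧ Indep M R S := by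
  classical
  have hne : ((Ev m true).powerset.filter (fun S => Indep M R S)).Nonempty := by
    refine ⟨∅, Finset.mem_filter.mpr ⟨by simp, ?_⟩⟩
    intro u hu
    simp at hu
  obtain ⟨S, hS, hmax⟩ := Finset.exists_max_image _ Finset.card hne
  rw [Finset.mem_filter, Finset.mem_powerset] at hS
  obtain ⟨hSE, hSI⟩ := hS
  rcases Nat.lt_or_ge S.card (2 ^ (m - κ)) with h1 | h1
  · exfalso
    apply hbad
    have hev : ∀ x ∈ Ev m true, ∃ u ∈ S, Reach M R x u := by
      intro x hx
      by_cases hxS : x ∈ S
      · exact ⟨x, hxS, .refl⟩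
      · have h2 : ¬ Indep M R (insert x S) := by
          intro h3
          have h4 := hmax (insert x S) (Finset.mem_filter.mpr ⟨Finset.mem_powerset.mpr
            (Finset.insert_subset hx hSE), h3⟩)
          rw [Finset.card_insert_of_notMem hxS] at h4
          omega
        unfold Indep at h2
        push Not at h2
        obtain ⟨u, hu, v, hv, hr, huv⟩ := h2
        rcases Finset.mem_insert.mp hu with hu' | hu'
        · rcases Finset.mem_insert.mp hv with hv' | hv'
          · exact absurd (hu'.trans hv'.symm) huv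
          · exact ⟨v, hv', hu' ▸ hr⟩
        · rcases Finset.mem_insert.mp hv with hv' | hv'
          · exact ⟨u, hu', reach_symm hM.1 hR.1 (hv' ▸ hr)⟩
          · exact absurd (hSI u hu' v hv' hr) huv
    refine ⟨S, h1, ?_, ?_⟩
    · intro u hu h2
      have h3 := mat_parity hM (hSE hu)
      have h4 := hSE h2
      rw [mem_Ev] at h3 h4
      simp only [Bool.not_true] at h3
      rw [h4] at h3
      simp at h3
    · intro x
      cases hx : piP x
      · have h2 : x ∈ Ev m false := mem_Ev.mpr hx
        obtain ⟨u, hu, hr⟩ := hev (M x) (mat_parity hM h2)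
        exact ⟨u, hu, Relation.ReflTransGen.head (Or.inl rfl) hr⟩
      · exact hev x (mem_Ev.mpr hx)
  · obtain ⟨S', hS', hc⟩ := Finset.exists_subset_card_eq h1
    exact ⟨S', hS'.trans hSE, hc, fun u hu v hv => hSI u (hS' hu) v (hS' hv)⟩

theorem rec_unique {M R R' : (Fin m → Bool) → (Fin m → Bool)} (hM : IsMat M) (hR : IsMat R)
    (hR' : IsMat R') (S : Finset (Fin m → Bool)) (hSE : S ⊆ Ev m true)
    (hI : Indep M R S) (hI' : Indep M R' S) (hO : ∀ x, R x ∈ S ↔ R' x ∈ S)
    (hag : ∀ x ∈ Ev m false, R x ∉ S → R x = R' x) : R = R' := by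
  classical
  -- the common part
  have hnS : ∀ x ∈ Ev m false, x ∉ S := by
    intro x hx h
    have h1 := hSE h
    rw [mem_Ev] at hx h1
    rw [hx] at h1
    simp at h1
  let b : ((Fin m → Bool) → (Fin m → Bool)) → (Fin m → Bool) → (Fin m → Bool) := fun Z y =>
    if y ∈ S ∨ Z y ∈ S then y else Z y
  have hbfix : ∀ Z : (Fin m → Bool) → (Fin m → Bool), ∀ y, (y ∈ S ∨ Z y ∈ S) → b Z y = y := by
    intro Z y h
    simp only [b, h, if_true]
  have hbn : ∀ Z : (Fin m → Bool) → (Fin m → Bool), ∀ y, ¬ (y ∈ S ∨ Z y ∈ S) → b Z y = Z y := by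
    intro Z y h
    simp only [b, h, if_false]
  have hbb : ∀ Z : (Fin m → Bool) → (Fin m → Bool), IsMat Z → ∀ y, b Z (b Z y) = y := by
    intro Z hZ y
    by_cases h : y ∈ S ∨ Z y ∈ S
    · rw [hbfix Z y h, hbfix Z y h]
    · rw [hbn Z y h, hbn Z, hZ.1]
      rw [hZ.1]
      intro h2
      exact h h2.symm
  -- the agreement outside
  have hag2 : ∀ x, x ∉ S → R x ∉ S → R x = R' x := by
    intro x hx hRx
    cases hp : piP x
    · exact hag x (mem_Ev.mpr hp) hRx
    · have h1 : R x ∈ Ev m false := mat_parity hR (mem_Ev.mpr hp)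
      have h2 := hag (R x) h1 (by rw [hR.1]; exact hx)
      rw [hR.1] at h2
      -- `x = R' (R x)`
      have h3 : R' x = R' (R' (R x)) := by rw [← h2]
      rw [hR'.1] at h3
      exact h3.symm
  have hbeq : b R = b R' := by
    funext y
    by_cases h : y ∈ S ∨ R y ∈ S
    · rw [hbfix R y h, hbfix R' y]
      rcases h with h | h
      · exact Or.inl h
      · exact Or.inr ((hO y).mp h)
    · rw [hbn R y h, hbn R' y]
      · push Not at h
        exact hag2 y h.1 h.2
      · push Not at h ⊢
        exact ⟨h.1, fun h2 => h.2 ((hO y).mpr h2)⟩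
  -- the recovery of the partner of `x`
  have hrec : ∀ Z : (Fin m → Bool) → (Fin m → Bool), IsMat Z → Indep M Z S → ∀ x, Z x ∈ S →
      Z x = omega M (b Z) x := by
    intro Z hZ hIZ x hx
    have hbx : b Z x = x := hbfix Z x (Or.inr hx)
    have hfp : ∀ y, Reach M (b Z) x y → M y ≠ y := fun y _ => mat_ne hM y
    have h1 := omega_fix hM.1 (hbb Z hZ) hbx hfp
    have h2 := omega_ne hM.1 (hbb Z hZ) hbx hfp
    have h3 : Reach M (b Z) x (omega M (b Z) x) := reach_omega x
    have hmono : ∀ u v, Reach M (b Z) u v → Reach M Z u v := by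
      intro u v h
      induction h with
      | refl => exact .refl
      | @tail p q _ h ih =>
        rcases h with h | h
        · exact ih.tail (Or.inl h)
        · by_cases h4 : p ∈ S ∨ Z p ∈ S
          · rw [hbfix Z p h4] at h
            rw [h]; exact ih
          · rw [hbn Z p h4] at h
            exact ih.tail (Or.inr h)
    have h4 := hmono _ _ h3
    have h5 : Reach M Z (Z x) (omega M (b Z) x) :=
      Relation.ReflTransGen.head (Or.inr (hZ.1 x).symm) h4
    have h6 : omega M (b Z) x ∈ S ∨ Z (omega M (b Z) x) ∈ S := by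
      by_contra h7
      rw [hbn Z _ h7] at h1
      exact mat_ne hZ _ h1
    rcases h6 with h6 | h6
    · exact hIZ _ hx _ h6 h5
    · exfalso
      have h7 := hIZ _ hx _ h6 (h5.tail (Or.inr rfl))
      exact h2 (mat_inj hZ h7).symm
  funext x
  by_cases hx : R x ∈ S
  · rw [hrec R hR hI x hx, hrec R' hR' hI' x ((hO x).mp hx), hbeq]
  · by_cases hxS : x ∈ S
    · -- `R x` has its partner in `S`
      have h1 : R (R x) ∈ S := by rw [hR.1]; exact hxS
      have h2 : R (R x) = R' (R x) := by
        rw [hrec R hR hI _ h1, hrec R' hR' hI' _ ((hO _).mp h1), hbeq]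
      rw [hR.1] at h2
      have h3 : R' x = R' (R' (R x)) := by rw [← h2]
      rw [hR'.1] at h3
      exact h3.symm
    · exact hag2 x hxS hx

open Classical in
/-- the number of the bad pairs -/
theorem card_bad (hm : 1 ≤ m) (κ : ℕ) :
    ((Finset.univ.filter (fun p : ((Fin m → Bool) → (Fin m → Bool)) ×
      ((Fin m → Bool) → (Fin m → Bool)) => IsMat p.1 ∧ IsMat p.2 ∧ ¬ IsGood κ p)).card : ℝ) ≤
      ((2 ^ (m - 1)).choose (2 ^ (m - κ)) : ℝ) ^ 2 *
        (Real.exp (2 ^ (m - 1) * phi m) *
          Real.exp (((2 ^ (m - 1) - 2 ^ (m - κ) : ℕ) : ℝ) * phi m)) := by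
  set q := 2 ^ (m - κ) with hq
  set bad := Finset.univ.filter (fun p : ((Fin m → Bool) → (Fin m → Bool)) ×
      ((Fin m → Bool) → (Fin m → Bool)) => IsMat p.1 ∧ IsMat p.2 ∧ ¬ IsGood κ p) with hbad
  let d : Fin m → Bool := fun _ => false
  let E := Ev m true
  let O := Ev m false
  let target : Finset ((Finset (Fin m → Bool) × Finset (Fin m → Bool)) ×
      (((Fin m → Bool) → (Fin m → Bool)) × ((Fin m → Bool) → (Fin m → Bool)))) :=
    ((E.powersetCard q) ×ˢ (O.powersetCard q)).biUnion (fun SO =>
      ((PM NN d E O) ×ˢ (PM NN d (O \ SO.2) (E \ SO.1))).image (fun MR => (SO, MR)))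
  have hSex : ∀ p : ((Fin m → Bool) → (Fin m → Bool)) × ((Fin m → Bool) → (Fin m → Bool)),
      ∃ S : Finset (Fin m → Bool), p ∈ bad → S ⊆ E ∧ S.card = q ∧ Indep p.1 p.2 S := by
    intro p
    by_cases hp : p ∈ bad
    · rw [hbad, Finset.mem_filter] at hp
      obtain ⟨S, h1, h2, h3⟩ := bad_indep κ hp.2.1 hp.2.2.1 hp.2.2.2
      exact ⟨S, fun _ => ⟨h1, h2, h3⟩⟩
    · exact ⟨∅, fun h => absurd h hp⟩
  choose Sf hSf using hSex
  let enc : ((Fin m → Bool) → (Fin m → Bool)) × ((Fin m → Bool) → (Fin m → Bool)) →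
      (Finset (Fin m → Bool) × Finset (Fin m → Bool)) ×
      (((Fin m → Bool) → (Fin m → Bool)) × ((Fin m → Bool) → (Fin m → Bool))) := fun p =>
    ((Sf p, (Sf p).image p.2), (fun x => if x ∈ E then p.1 x else d,
      fun x => if x ∈ O \ (Sf p).image p.2 then p.2 x else d))
  have hcard : bad.card ≤ target.card := by
    refine Finset.card_le_card_of_injOn enc ?_ ?_
    · intro p hp
      obtain ⟨h1, h2, h3⟩ := hSf p hp
      have hp' := hp
      rw [Finset.mem_coe, hbad, Finset.mem_filter] at hp'
      obtain ⟨_, hM, hR, _⟩ := hp'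
      rw [Finset.mem_coe]
      simp only [target, Finset.mem_biUnion, Finset.mem_product, Finset.mem_powersetCard,
        Finset.mem_image]
      refine ⟨(Sf p, (Sf p).image p.2), ⟨⟨h1, h2⟩, ?_, ?_⟩, ((enc p).2), ⟨?_, ?_⟩, rfl⟩
      · intro y hy
        obtain ⟨x, hx, rfl⟩ := Finset.mem_image.mp hy
        exact mat_parity hR (h1 hx)
      · rw [Finset.card_image_of_injective _ (mat_inj hR), h2]
      · show (fun x => if x ∈ E then p.1 x else d) ∈ _
        rw [mem_PM]
        refine ⟨?_, ?_, ?_⟩
        · intro a ha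
          simp only [ha, if_true]
          exact ⟨mat_parity hM ha, hM.2 a⟩
        · intro a ha a' ha' h
          simp only [ha, ha', if_true] at h
          exact mat_inj hM h
        · intro a ha
          simp only [ha, if_false]
      · show (fun x => if x ∈ O \ (Sf p).image p.2 then p.2 x else d) ∈ _
        rw [mem_PM]
        refine ⟨?_, ?_, ?_⟩
        · intro a ha
          have ha' := ha
          simp only [Finset.mem_sdiff] at ha'
          simp only [ha, if_true]
          refine ⟨?_, hR.2 a⟩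
          rw [Finset.mem_sdiff]
          refine ⟨mat_parity hR ha'.1, ?_⟩
          intro h
          apply ha'.2
          exact Finset.mem_image.mpr ⟨p.2 a, h, hR.1 a⟩
        · intro a ha a' ha' h
          simp only [ha, ha', if_true] at h
          exact mat_inj hR h
        · intro a ha
          simp only [ha, if_false]
    · intro p hp p' hp' heq
      obtain ⟨h1, h2, h3⟩ := hSf p hp
      obtain ⟨h1', h2', h3'⟩ := hSf p' hp'
      rw [Finset.mem_coe, hbad, Finset.mem_filter] at hp hp'
      obtain ⟨_, hM, hR, _⟩ := hp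
      obtain ⟨_, hM', hR', _⟩ := hp'
      have e1 : Sf p = Sf p' := congrArg (fun z => z.1.1) heq
      have e2 : (Sf p).image p.2 = (Sf p').image p'.2 := congrArg (fun z => z.1.2) heq
      have e3 : (fun x => if x ∈ E then p.1 x else d) = (fun x => if x ∈ E then p'.1 x else d) :=
        congrArg (fun z => z.2.1) heq
      have e4 : (fun x => if x ∈ O \ (Sf p).image p.2 then p.2 x else d) =
          (fun x => if x ∈ O \ (Sf p').image p'.2 then p'.2 x else d) :=
        congrArg (fun z => z.2.2) heq
      have hMM : p.1 = p'.1 := by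
        have hE : ∀ x ∈ E, p.1 x = p'.1 x := by
          intro x hx
          have := congrFun e3 x
          simpa only [hx, if_true] using this
        funext x
        cases hx : piP x
        · have hx1 : p.1 x ∈ E := mat_parity hM (mem_Ev.mpr hx)
          have h5 := hE _ hx1
          rw [hM.1] at h5
          have h6 : p'.1 x = p'.1 (p'.1 (p.1 x)) := by rw [← h5]
          rw [hM'.1] at h6
          exact h6.symm
        · exact hE x (mem_Ev.mpr hx)
      have hRR : p.2 = p'.2 := by
        have himg : ∀ x, p.2 x ∈ Sf p ↔ x ∈ (Sf p).image p.2 := by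
          intro x
          rw [Finset.mem_image]
          constructor
          · intro h; exact ⟨p.2 x, h, hR.1 x⟩
          · rintro ⟨y, hy, rfl⟩; rw [hR.1]; exact hy
        have himg' : ∀ x, p'.2 x ∈ Sf p' ↔ x ∈ (Sf p').image p'.2 := by
          intro x
          rw [Finset.mem_image]
          constructor
          · intro h; exact ⟨p'.2 x, h, hR'.1 x⟩
          · rintro ⟨y, hy, rfl⟩; rw [hR'.1]; exact hy
        refine rec_unique (M := p.1) hM hR hR' (Sf p) h1 h3 ?_ ?_ ?_
        · rw [e1, hMM]; exact h3'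
        · intro x
          rw [himg, e2, e1, himg']
        · intro x hx hxS
          have hx1 : x ∈ O \ (Sf p).image p.2 := by
            rw [Finset.mem_sdiff, ← himg]
            exact ⟨hx, hxS⟩
          have hx2 : x ∈ O \ (Sf p').image p'.2 := by rw [← e2]; exact hx1
          have := congrFun e4 x
          simpa only [hx1, hx2, if_true] using this
      exact Prod.ext hMM hRR
  have hE : E.card = 2 ^ (m - 1) := card_Ev hm true
  have hO : O.card = 2 ^ (m - 1) := card_Ev hm false
  have htarget : (target.card : ℝ) ≤ ((2 ^ (m - 1)).choose q : ℝ) ^ 2 *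
        (Real.exp (2 ^ (m - 1) * phi m) *
          Real.exp (((2 ^ (m - 1) - q : ℕ) : ℝ) * phi m)) := by
    have h1 : (target.card : ℝ) ≤ ∑ SO ∈ (E.powersetCard q) ×ˢ (O.powersetCard q),
        (((PM NN d E O).card : ℝ) * ((PM NN d (O \ SO.2) (E \ SO.1)).card : ℝ)) := by
      have h2 : target.card ≤ ∑ SO ∈ (E.powersetCard q) ×ˢ (O.powersetCard q),
        ((PM NN d E O).card * (PM NN d (O \ SO.2) (E \ SO.1)).card) := by
        refine Finset.card_biUnion_le.trans ?_
        refine Finset.sum_le_sum ?_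
        intro SO _
        refine Finset.card_image_le.trans ?_
        rw [Finset.card_product]
      exact_mod_cast h2
    refine h1.trans ?_
    have h2 : ∀ SO ∈ (E.powersetCard q) ×ˢ (O.powersetCard q),
        (((PM NN d E O).card : ℝ) * ((PM NN d (O \ SO.2) (E \ SO.1)).card : ℝ)) ≤
        (Real.exp (2 ^ (m - 1) * phi m) *
          Real.exp (((2 ^ (m - 1) - q : ℕ) : ℝ) * phi m)) := by
      rintro ⟨S, T⟩ hST
      rw [Finset.mem_product, Finset.mem_powersetCard, Finset.mem_powersetCard] at hST
      obtain ⟨⟨hS1, hS2⟩, hT1, hT2⟩ := hST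
      simp only at hS1 hS2 hT1 hT2 ⊢
      refine mul_le_mul ?_ ?_ (Nat.cast_nonneg _) (Real.exp_pos _).le
      · have := breg_card NN d E O (hE.trans hO.symm) m (fun a _ => deg_le a O)
        rw [hE] at this
        push_cast at this
        exact this
      · have c1 : (O \ T).card = 2 ^ (m - 1) - q := by
          rw [Finset.card_sdiff_of_subset hT1, hO, hT2]
        have c2 : (E \ S).card = 2 ^ (m - 1) - q := by
          rw [Finset.card_sdiff_of_subset hS1, hE, hS2]
        have := breg_card NN d (O \ T) (E \ S) (c1.trans c2.symm) m (fun a _ => deg_le a _)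
        rw [c1] at this
        exact this
    refine (Finset.sum_le_card_nsmul _ _ _ h2).trans ?_
    rw [Finset.card_product, Finset.card_powersetCard, Finset.card_powersetCard, hE, hO,
      nsmul_eq_mul]
    push_cast
    rw [sq]
  have h1 : (bad.card : ℝ) ≤ (target.card : ℝ) := by exact_mod_cast hcard
  exact h1.trans htarget

end

end Pool.Agent.KS6_27.HQ
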