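import Pool.Agent.KS6_27.HQ.Good

/-!
# The number of the good pairs
-/

set_option autoImplicit false

namespace Pool.Agent.KS6_27.HQ

open Pool.Agent.Helper886 Pool.Agent.Helper886.HCube Function

theorem log_fact (m : ℕ) (hm : 1 ≤ m) :
    Real.log (m.factorial : ℝ) ≤ m * Real.log m - m + 1 + Real.log m := by
  induction m, hm using Nat.le_induction with
  | base => simp
  | succ m hm ih =>
    have hm0 : (0 : ℝ) < m := by exact_mod_cast hm
    have hf : (0 : ℝ) < (m.factorial : ℝ) := by exact_mod_cast Nat.factorial_pos m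
    rw [Nat.factorial_succ]
    push_cast
    rw [Real.log_mul (by positivity) hf.ne']
    have h1 : 1 - (((m : ℝ) + 1) / m)⁻¹ ≤ Real.log (((m : ℝ) + 1) / m) :=
      Real.one_sub_inv_le_log_of_pos (by positivity)
    rw [Real.log_div (by positivity) hm0.ne'] at h1
    have h2 : 1 - (((m : ℝ) + 1) / m)⁻¹ = 1 / ((m : ℝ) + 1) := by
      field_simp
      ring
    rw [h2] at h1
    have h3 : ((m : ℝ) + 1) * (1 / ((m : ℝ) + 1)) ≤
        ((m : ℝ) + 1) * (Real.log ((m : ℝ) + 1) - Real.log m) :=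
      mul_le_mul_of_nonneg_left h1 (by positivity)
    have h4 : ((m : ℝ) + 1) * (1 / ((m : ℝ) + 1)) = 1 := by field_simp
    rw [h4] at h3
    nlinarith

theorem phi_le (m : ℕ) (hm : 1 ≤ m) :
    phi m ≤ Real.log m - 1 + (1 + Real.log m) / m := by
  have hm0 : (0 : ℝ) < m := by exact_mod_cast hm
  unfold phi
  rw [div_le_iff₀ hm0]
  have h1 := log_fact m hm
  have h2 : (Real.log m - 1 + (1 + Real.log m) / m) * m = m * Real.log m - m + 1 + Real.log m := by
    field_simp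
    ring
  rw [h2]
  exact h1

theorem choose_bound (N q : ℕ) (hq : 1 ≤ q) (hN : 1 ≤ N) :
    (N.choose q : ℝ) ≤ Real.exp (q * (1 + Real.log ((N : ℝ) / q))) := by
  have hq0 : (0 : ℝ) < q := by exact_mod_cast hq
  have hN0 : (0 : ℝ) < N := by exact_mod_cast hN
  have hf : (0 : ℝ) < (q.factorial : ℝ) := by exact_mod_cast Nat.factorial_pos q
  have h1 : (N.choose q : ℝ) ≤ (N : ℝ) ^ q / (q.factorial : ℝ) := Nat.choose_le_pow_div q N
  have h2 : (q : ℝ) ^ q / (q.factorial : ℝ) ≤ Real.exp q :=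
    Real.pow_div_factorial_le_exp (q : ℝ) hq0.le q
  have h3 : (N : ℝ) ^ q / (q.factorial : ℝ) = ((N : ℝ) / q) ^ q * ((q : ℝ) ^ q / (q.factorial : ℝ)) := by
    rw [div_pow]
    field_simp
  have h4 : ((N : ℝ) / q) ^ q = Real.exp (q * Real.log ((N : ℝ) / q)) := by
    rw [← Real.log_pow, Real.exp_log (by positivity)]
  calc (N.choose q : ℝ) ≤ ((N : ℝ) / q) ^ q * ((q : ℝ) ^ q / (q.factorial : ℝ)) := by
        rw [← h3]; exact h1
    _ ≤ ((N : ℝ) / q) ^ q * Real.exp q := mul_le_mul_of_nonneg_left h2 (by positivity)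
    _ = Real.exp (q * (1 + Real.log ((N : ℝ) / q))) := by
        rw [h4, ← Real.exp_add]
        congr 1
        ring

theorem num_good (κ m : ℕ) (hκ : 4 ≤ κ) (hm : 2 ^ (4 * κ) ≤ 2 * m) :
    ((2 ^ (m - 1)).choose (2 ^ (m - κ)) : ℝ) ^ 2 *
        (Real.exp (2 ^ (m - 1) * phi m) *
          Real.exp (((2 ^ (m - 1) - 2 ^ (m - κ) : ℕ) : ℝ) * phi m)) ≤
      1 / 2 * ((m : ℝ) / Real.exp 1) ^ (2 ^ m) := by
  have hm1 : 2 ^ (2 * κ + 2) ≤ m := by
    have h1 : 2 ^ (2 * κ + 3) ≤ 2 ^ (4 * κ) := Nat.pow_le_pow_right (by norm_num) (by omega)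
    have h2 : 2 ^ (2 * κ + 3) = 2 * 2 ^ (2 * κ + 2) := by rw [← pow_succ']
    omega
  have hκm : κ ≤ m := by
    have h1 : κ < 2 ^ κ := Nat.lt_two_pow_self
    have h2 : 2 ^ κ ≤ 2 ^ (2 * κ + 2) := Nat.pow_le_pow_right (by norm_num) (by omega)
    omega
  have hm2 : 1 ≤ m := by omega
  have hm0 : (0 : ℝ) < m := by exact_mod_cast hm2
  have hl2 : 0 < Real.log 2 := Real.log_pos (by norm_num)
  have hl2' : (0.6931471803 : ℝ) < Real.log 2 := Real.log_two_gt_d9
  have hl2'' : Real.log 2 < (0.6931471808 : ℝ) := Real.log_two_lt_d9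
  set q : ℕ := 2 ^ (m - κ) with hq
  set N : ℕ := 2 ^ (m - 1) with hN
  have hq1 : 1 ≤ q := Nat.one_le_two_pow
  have hN1 : 1 ≤ N := Nat.one_le_two_pow
  have hqN : q ≤ N := Nat.pow_le_pow_right (by norm_num) (by omega)
  have hNq : (N : ℝ) / q = 2 ^ (κ - 1) := by
    rw [hq, hN]
    push_cast
    rw [div_eq_iff (by positivity), ← pow_add]
    congr 1
    omega
  have h2N : (2 : ℝ) * N = q * 2 ^ κ := by
    rw [hq, hN]
    push_cast
    rw [← pow_succ', ← pow_add]
    congr 1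
    omega
  have hlogNq : Real.log ((N : ℝ) / q) = (κ - 1) * Real.log 2 := by
    rw [hNq, Real.log_pow]
    congr 1
    rw [Nat.cast_sub (by omega)]
    simp
  have hch := choose_bound N q hq1 hN1
  rw [hlogNq] at hch
  have hphi := phi_le m hm2
  -- `log m`
  have hlogm : (4 * κ - 1) * Real.log 2 ≤ Real.log m := by
    have h1 : ((2 : ℝ) ^ (4 * κ)) ≤ 2 * m := by exact_mod_cast hm
    have h2 := Real.log_le_log (by positivity) h1
    rw [Real.log_pow, Real.log_mul (by norm_num) hm0.ne'] at h2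
    push_cast at h2
    linarith
  have hsq : (2 : ℝ) ^ κ * (1 + Real.log m) ≤ m := by
    have hs0 : 0 < Real.sqrt m := Real.sqrt_pos.mpr hm0
    have h1 : Real.log (Real.sqrt m) ≤ Real.sqrt m - 1 := Real.log_le_sub_one_of_pos hs0
    have h2 : Real.log m = 2 * Real.log (Real.sqrt m) := by
      rw [Real.log_sqrt hm0.le]; ring
    have h3 : (2 : ℝ) ^ (κ + 1) ≤ Real.sqrt m := by
      apply Real.le_sqrt_of_sq_le
      rw [← pow_mul]
      have : (2 : ℝ) ^ (2 * κ + 2) ≤ m := by exact_mod_cast hm1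
      calc (2 : ℝ) ^ ((κ + 1) * 2) = 2 ^ (2 * κ + 2) := by congr 1; ring
        _ ≤ m := this
    have h4 : 1 + Real.log m ≤ 2 * Real.sqrt m := by linarith
    calc (2 : ℝ) ^ κ * (1 + Real.log m) ≤ 2 ^ κ * (2 * Real.sqrt m) :=
          mul_le_mul_of_nonneg_left h4 (by positivity)
      _ = 2 ^ (κ + 1) * Real.sqrt m := by ring
      _ ≤ Real.sqrt m * Real.sqrt m := mul_le_mul_of_nonneg_right h3 hs0.le
      _ = m := Real.mul_self_sqrt hm0.le
  -- the exponent
  have hlogm0 : 0 ≤ Real.log m := by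
    apply Real.log_nonneg
    exact_mod_cast hm2
  have hrhs : 1 / 2 * ((m : ℝ) / Real.exp 1) ^ (2 ^ m) =
      Real.exp (-Real.log 2 + 2 * N * (Real.log m - 1)) := by
    rw [Real.exp_add, Real.exp_neg, Real.exp_log (by norm_num)]
    have h1 : (2 : ℝ) * N = ((2 ^ m : ℕ) : ℝ) := by
      rw [hN]
      push_cast
      rw [← pow_succ']
      congr 1
      omega
    rw [h1, Real.exp_nat_mul, Real.exp_sub, Real.exp_log hm0]
    norm_num
  rw [hrhs]
  have hlhs : ((N.choose q : ℕ) : ℝ) ^ 2 * (Real.exp (N * phi m) *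
      Real.exp (((N - q : ℕ) : ℝ) * phi m)) ≤
      Real.exp (2 * (q * (1 + (κ - 1) * Real.log 2)) + (2 * N - q) * phi m) := by
    have h1 : ((N.choose q : ℕ) : ℝ) ^ 2 ≤ Real.exp (q * (1 + (κ - 1) * Real.log 2)) ^ 2 :=
      pow_le_pow_left₀ (Nat.cast_nonneg _) hch 2
    refine (mul_le_mul_of_nonneg_right h1 (by positivity)).trans (le_of_eq ?_)
    rw [← Real.exp_nat_mul, ← Real.exp_add, ← Real.exp_add]
    congr 1
    rw [Nat.cast_sub hqN]
    push_cast
    ring
  have hNc : ((2 : ℝ) ^ (m - 1)) = (N : ℝ) := by rw [hN]; push_cast; rfl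
  rw [hNc]
  refine hlhs.trans ?_
  apply Real.exp_le_exp.mpr
  have hq0 : (1 : ℝ) ≤ q := by exact_mod_cast hq1
  have hNq' : (0 : ℝ) ≤ 2 * N - q := by
    have : (q : ℝ) ≤ N := by exact_mod_cast hqN
    linarith
  have hA : (2 * (N : ℝ) - q) * phi m ≤ (2 * N - q) * (Real.log m - 1) + q := by
    have h1 := mul_le_mul_of_nonneg_left hphi hNq'
    have h2 : (2 * (N : ℝ) - q) * ((1 + Real.log m) / m) ≤ q := by
      have h3 : (2 * (N : ℝ) - q) * ((1 + Real.log m) / m) ≤ 2 * N * ((1 + Real.log m) / m) := by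
        apply mul_le_mul_of_nonneg_right (by linarith) (by positivity)
      refine h3.trans ?_
      rw [h2N, mul_assoc, mul_div_assoc', ]
      have h4 : (2 : ℝ) ^ κ * (1 + Real.log m) / m ≤ 1 := by
        rw [div_le_one hm0]; exact hsq
      calc (q : ℝ) * (2 ^ κ * (1 + Real.log m) / m) ≤ q * 1 :=
            mul_le_mul_of_nonneg_left h4 (by positivity)
        _ = q := mul_one _
    calc (2 * (N : ℝ) - q) * phi m ≤ (2 * N - q) * (Real.log m - 1 + (1 + Real.log m) / m) := h1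
      _ = (2 * N - q) * (Real.log m - 1) + (2 * N - q) * ((1 + Real.log m) / m) := by ring
      _ ≤ _ := by linarith
  -- final comparison
  have hκ' : (4 : ℝ) ≤ κ := by exact_mod_cast hκ
  have hB : 2 * (1 + (κ - 1) * Real.log 2) + 1 + 1 ≤ Real.log m - 1 := by
    have h1 : 5 ≤ (2 * (κ : ℝ) + 1) * Real.log 2 := by nlinarith
    nlinarith
  have hC : (q : ℝ) * (2 * (1 + (κ - 1) * Real.log 2) + 1 + 1) ≤ q * (Real.log m - 1) :=
    mul_le_mul_of_nonneg_left hB (by positivity)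
  nlinarith

open Classical in
/-- the good pairs -/
noncomputable def GoodF (κ m : ℕ) : Finset (((Fin m → Bool) → (Fin m → Bool)) ×
      ((Fin m → Bool) → (Fin m → Bool))) :=
  Finset.univ.filter (fun p => IsMat p.1 ∧ IsMat p.2 ∧ IsGood κ p)

theorem mem_GoodF {κ m : ℕ} {p : ((Fin m → Bool) → (Fin m → Bool)) ×
      ((Fin m → Bool) → (Fin m → Bool))} : p ∈ GoodF κ m ↔ IsMat p.1 ∧ IsMat p.2 ∧ IsGood κ p := by
  unfold GoodF
  simp

theorem card_good (κ m : ℕ) (hκ : 4 ≤ κ) (hm : 2 ^ (4 * κ) ≤ 2 * m) :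
    1 / 2 * ((m : ℝ) / Real.exp 1) ^ (2 ^ m) ≤ ((GoodF κ m).card : ℝ) := by
  classical
  have hm1 : 1 ≤ m := by
    have : 0 < 2 ^ (4 * κ) := by positivity
    omega
  have h1 := (card_bad hm1 κ).trans (num_good κ m hκ hm)
  have h2 : ((m : ℝ) / Real.exp 1) ^ (2 ^ m) ≤
      ((Finset.univ.filter (fun p : ((Fin m → Bool) → (Fin m → Bool)) ×
      ((Fin m → Bool) → (Fin m → Bool)) => IsMat p.1 ∧ IsMat p.2)).card : ℝ) := by
    have h3 := card_mat hm1
    have h4 : (Finset.univ.filter (fun p : ((Fin m → Bool) → (Fin m → Bool)) ×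
      ((Fin m → Bool) → (Fin m → Bool)) => IsMat p.1 ∧ IsMat p.2)).card =
        Nat.card {l : (Fin m → Bool) → (Fin m → Bool) // IsMat l} *
        Nat.card {l : (Fin m → Bool) → (Fin m → Bool) // IsMat l} := by
      rw [Nat.card_eq_fintype_card, Fintype.card_subtype, ← Finset.card_product]
      congr 1
      ext p
      simp
    rw [h4]
    push_cast
    have h5 : ((m : ℝ) / Real.exp 1) ^ (2 ^ m) =
        ((m : ℝ) / Real.exp 1) ^ (2 ^ (m - 1)) * ((m : ℝ) / Real.exp 1) ^ (2 ^ (m - 1)) := by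
      rw [← pow_add, ← two_mul, ← pow_succ']
      congr 2
      omega
    rw [h5]
    exact mul_le_mul h3 h3 (by positivity) (Nat.cast_nonneg _)
  have h3 : (Finset.univ.filter (fun p : ((Fin m → Bool) → (Fin m → Bool)) ×
      ((Fin m → Bool) → (Fin m → Bool)) => IsMat p.1 ∧ IsMat p.2)).card ≤
      (GoodF κ m).card + (Finset.univ.filter (fun p : ((Fin m → Bool) → (Fin m → Bool)) ×
      ((Fin m → Bool) → (Fin m → Bool)) => IsMat p.1 ∧ IsMat p.2 ∧ ¬ IsGood κ p)).card := by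
    refine (Finset.card_le_card ?_).trans (Finset.card_union_le _ _)
    intro p hp
    rw [Finset.mem_filter] at hp
    rw [Finset.mem_union, mem_GoodF, Finset.mem_filter]
    by_cases h : IsGood κ p
    · exact Or.inl ⟨hp.2.1, hp.2.2, h⟩
    · exact Or.inr ⟨Finset.mem_univ _, hp.2.1, hp.2.2, h⟩
  have h4 : ((Finset.univ.filter (fun p : ((Fin m → Bool) → (Fin m → Bool)) ×
      ((Fin m → Bool) → (Fin m → Bool)) => IsMat p.1 ∧ IsMat p.2)).card : ℝ) ≤
      ((GoodF κ m).card : ℝ) + ((Finset.univ.filter (fun p : ((Fin m → Bool) → (Fin m → Bool)) ×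
      ((Fin m → Bool) → (Fin m → Bool)) => IsMat p.1 ∧ IsMat p.2 ∧ ¬ IsGood κ p)).card : ℝ) := by
    exact_mod_cast h3
  linarith

end Pool.Agent.KS6_27.HQ
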