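import Pool.Agent.KS6_27.HQ.Main

/-!
# The lower bound with parameters
-/

set_option autoImplicit false

namespace Pool.Agent.KS6_27.HQ

open Pool.Agent.Helper886 Pool.Agent.Helper886.HCube Function

theorem lower_param (κ e0 n : ℕ) (hκ : e0 + 40 ≤ κ) (hn1 : 2 ^ (4 * κ) ≤ n)
    (hn2 : n < 2 ^ (4 * κ + 4)) :
    ∃ m c F : ℕ, c + m = n ∧ 1 ≤ m ∧ 2 ^ (4 * κ) ≤ 2 * m ∧ (1 - 1 / 2 ^ e0) * (n : ℝ) ≤ m ∧
      (1 - 2 ^ 17 / 2 ^ κ) * (2 : ℝ) ^ c ≤ F ∧
      (((m : ℝ) / Real.exp 1) ^ (2 ^ m) / 2 ^ m) ^ F ≤ (f n : ℝ) := by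
  classical
  obtain ⟨l, hl⟩ : ∃ l, l = 3 * κ - e0 := ⟨_, rfl⟩
  obtain ⟨k, hk⟩ : ∃ k, k = κ - 16 := ⟨_, rfl⟩
  set c := Fintype.card (EE l k κ) with hc
  have hk2 : 2 ≤ k := by omega
  have hl14 : 14 ≤ l := by omega
  -- sizes
  have hII : Fintype.card (II l k) ≤ 2 ^ l * 2 ^ k := by
    rw [Fintype.card_prod]
    have h1 : Fintype.card {t : Fin k → ZMod 2 // t ≠ 0} ≤ 2 ^ k := by
      refine (Fintype.card_subtype_le _).trans ?_
      simp
    have h2 : Fintype.card (Fin l → ZMod 2) = 2 ^ l := by simp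
    rw [h2]
    exact Nat.mul_le_mul_left _ h1
  have hlk : 2 ^ l * 2 ^ k = 2 ^ (4 * κ - e0 - 16) := by
    rw [← pow_add]; congr 1; omega
  have hcc : c ≤ 2 ^ (4 * κ - e0 - 1) := by
    have h1 : c = Fintype.card (II l k) + κ := by
      rw [hc, Fintype.card_sum, Fintype.card_fin]
    have h2 : κ < 2 ^ κ := Nat.lt_two_pow_self
    have h3 : 2 ^ κ ≤ 2 ^ (4 * κ - e0 - 2) := Nat.pow_le_pow_right (by norm_num) (by omega)
    have h4 : 2 ^ (4 * κ - e0 - 16) ≤ 2 ^ (4 * κ - e0 - 2) :=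
      Nat.pow_le_pow_right (by norm_num) (by omega)
    have h5 : 2 ^ (4 * κ - e0 - 1) = 2 * 2 ^ (4 * κ - e0 - 2) := by
      rw [← pow_succ']; congr 1; omega
    omega
  have hcc2 : 2 ^ (4 * κ - e0 - 1) * 2 ^ e0 * 2 = 2 ^ (4 * κ) := by
    rw [← pow_add, ← pow_succ]; congr 1; omega
  have hcc3 : 2 * c ≤ 2 ^ (4 * κ) := by
    have h1 : 2 ^ (4 * κ - e0 - 1) * 1 ≤ 2 ^ (4 * κ - e0 - 1) * 2 ^ e0 :=
      Nat.mul_le_mul_left _ Nat.one_le_two_pow
    omega
  have hbig : 2 ^ 20 ≤ 2 ^ (4 * κ) := Nat.pow_le_pow_right (by norm_num) (by omega)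
  obtain ⟨m', hm'⟩ : ∃ m', c + (m' + 1) = n := ⟨n - c - 1, by omega⟩
  have h2m : 2 ^ (4 * κ) ≤ 2 * (m' + 1) := by omega
  have hκm : κ ≤ m' + 1 := by
    have h1 : κ < 2 ^ κ := Nat.lt_two_pow_self
    have h2 : 2 * 2 ^ κ ≤ 2 ^ (4 * κ) := by
      rw [← pow_succ']; exact Nat.pow_le_pow_right (by norm_num) (by omega)
    omega
  -- the coordinates
  have hE0 : Nonempty (EE l k κ) := ⟨.inr ⟨0, by omega⟩⟩
  obtain ⟨ee0⟩ := hE0
  have hcard : Fintype.card (EE l k κ ⊕ Fin (m' + 1)) = n := by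
    rw [Fintype.card_sum, Fintype.card_fin]; exact hm'
  let e : EE l k κ ⊕ Fin (m' + 1) ≃ Fin n := Fintype.equivFinOfCardEq hcard
  -- the numbers
  obtain ⟨a, ha⟩ : ∃ a, a = 2 ^ (l - 7) := ⟨_, rfl⟩
  have ha128 : 2 ^ 7 ≤ a := by
    rw [ha]; exact Nat.pow_le_pow_right (by norm_num) (by omega)
  have h2l : 2 ^ l = 128 * a := by
    rw [ha]
    have : (128 : ℕ) = 2 ^ 7 := by norm_num
    rw [this, ← pow_add]; congr 1; omega
  have haa : 2 ^ (2 * l - 12) = 4 * (a * a) := by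
    rw [ha]
    have : (4 : ℕ) = 2 ^ 2 := by norm_num
    rw [this, ← pow_add, ← pow_add]; congr 1; omega
  have hnk : n + k ≤ a * a := by
    have h1 : a * a = 2 ^ (2 * l - 14) := by
      rw [ha, ← pow_add]; congr 1; omega
    rw [h1]
    have h2 : k < 2 ^ k := Nat.lt_two_pow_self
    have h3 : 2 ^ k ≤ 2 ^ (4 * κ + 4) := Nat.pow_le_pow_right (by norm_num) (by omega)
    have h4 : 2 ^ (4 * κ + 5) = 2 * 2 ^ (4 * κ + 4) := by rw [← pow_succ']
    have h5 : 2 ^ (4 * κ + 5) ≤ 2 ^ (2 * l - 14) := Nat.pow_le_pow_right (by norm_num) (by omega)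
    omega
  -- the main inequality for the union bound
  have hmain : (2 : ℝ) ^ (Fintype.card (EE l k κ)) * 2 ^ k * 2 ^ m' *
      Real.exp (3 / 2 * (4 / 2 ^ κ) * (2 ^ l * Fintype.card (II l k))) <
      2 ^ ((32 * a + 1) * (a - 1)) := by
    have h1 : 3 / 2 * (4 / 2 ^ κ) * ((2 : ℝ) ^ l * Fintype.card (II l k)) ≤ 2 * (a * a : ℕ) := by
      have h2 : (Fintype.card (II l k) : ℝ) ≤ 2 ^ l * 2 ^ k := by exact_mod_cast hII
      have h3 : (2 : ℝ) ^ κ = 2 ^ k * 2 ^ 16 := by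
        rw [← pow_add]; congr 1; omega
      have h4 : (2 : ℝ) ^ l = 128 * a := by exact_mod_cast h2l
      calc 3 / 2 * (4 / 2 ^ κ) * ((2 : ℝ) ^ l * Fintype.card (II l k))
          ≤ 3 / 2 * (4 / 2 ^ κ) * ((2 : ℝ) ^ l * (2 ^ l * 2 ^ k)) := by
            apply mul_le_mul_of_nonneg_left _ (by positivity)
            exact mul_le_mul_of_nonneg_left h2 (by positivity)
        _ = 3 / 2 * 4 / 2 ^ 16 * (128 * 128) * (a * a) := by
            rw [h3, h4]
            field_simp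
        _ ≤ 2 * (a * a : ℕ) := by
            push_cast
            have : (0 : ℝ) ≤ (a : ℝ) * a := by positivity
            nlinarith
    have h2 : Real.exp (3 / 2 * (4 / 2 ^ κ) * ((2 : ℝ) ^ l * Fintype.card (II l k))) ≤
        2 ^ (4 * (a * a)) := by
      calc Real.exp (3 / 2 * (4 / 2 ^ κ) * ((2 : ℝ) ^ l * Fintype.card (II l k)))
          ≤ Real.exp (2 * (a * a : ℕ)) := Real.exp_le_exp.mpr h1
        _ = Real.exp 1 ^ (2 * (a * a)) := by
            rw [← Real.exp_nat_mul]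
            congr 1
            push_cast
            ring
        _ ≤ 4 ^ (2 * (a * a)) := by
            apply pow_le_pow_left₀ (Real.exp_pos _).le
            have := Real.exp_one_lt_d9
            linarith
        _ = 2 ^ (4 * (a * a)) := by
            have : (4 : ℝ) = 2 ^ 2 := by norm_num
            rw [this, ← pow_mul]
            congr 1
            ring
    have h3 : (2 : ℝ) ^ (Fintype.card (EE l k κ)) * 2 ^ k * 2 ^ m' * 2 ^ (4 * (a * a)) <
        2 ^ ((32 * a + 1) * (a - 1)) := by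
      rw [← pow_add, ← pow_add, ← pow_add]
      apply pow_lt_pow_right₀ (by norm_num)
      obtain ⟨b, hb⟩ : ∃ b, a = b + 1 := ⟨a - 1, by omega⟩
      have h4 : c + k + m' + 4 * (a * a) < (32 * a + 1) * (a - 1) := by
        have h5 : c + k + m' < a * a := by omega
        have h6 : a * a + 4 * (a * a) ≤ (32 * a + 1) * (a - 1) := by
          rw [hb, Nat.add_sub_cancel]
          have : 2 ≤ b := by omega
          nlinarith
        omega
      exact h4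
    exact lt_of_le_of_lt (mul_le_mul_of_nonneg_left h2 (by positivity)) h3
  -- the embedding of the reserved cells
  have hζ : Fintype.card (EE l k κ × (Fin l → ZMod 2)) ≤ 2 ^ m' := by
    rw [Fintype.card_prod]
    have h1 : Fintype.card (Fin l → ZMod 2) = 2 ^ l := by simp
    rw [h1]
    have h2 : c * 2 ^ l ≤ 2 ^ (4 * κ) * 2 ^ (4 * κ) := by
      refine Nat.mul_le_mul (by omega) ?_
      exact Nat.pow_le_pow_right (by norm_num) (by omega)
    refine h2.trans ?_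
    rw [← pow_add]
    apply Nat.pow_le_pow_right (by norm_num)
    have h3 : 2 * κ < 2 ^ (2 * κ) := Nat.lt_two_pow_self
    have h4 : 2 ^ (2 * κ) * 2 ^ (2 * κ) = 2 ^ (4 * κ) := by rw [← pow_add]; congr 1; omega
    have h5 : 2 ^ 10 ≤ 2 ^ (2 * κ) := Nat.pow_le_pow_right (by norm_num) (by omega)
    have h6 : 2 ^ 10 * 2 ^ (2 * κ) ≤ 2 ^ (2 * κ) * 2 ^ (2 * κ) := Nat.mul_le_mul_right _ h5
    rw [h4] at h6
    have h7 : (1024 : ℕ) * 2 ^ (2 * κ) ≤ 2 ^ (4 * κ) := by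
      have : (1024 : ℕ) = 2 ^ 10 := by norm_num
      rw [this]; exact h6
    omega
  have hL := card_Lt_le (l := l) (k := k) (k' := κ) (m := m') a (32 * a) (32 * a) ee0 (by omega)
    (by omega) (by omega) hζ e
  have hG := card_good_le (l := l) (k := k) (k' := κ) (m := m') κ a (32 * a) hκm hmain
  set F := Nat.card {g : EE l k κ → Bool // ¬ TT g} with hF
  have hgood := card_good κ (m' + 1) (by omega) h2m
  refine ⟨m' + 1, c, F, hm', by omega, h2m, ?_, ?_, ?_⟩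
  · have h1 : (c : ℝ) ≤ 2 ^ (4 * κ - e0 - 1) := by exact_mod_cast hcc
    have h2 : (2 : ℝ) ^ (4 * κ - e0 - 1) * 2 ^ e0 * 2 = 2 ^ (4 * κ) := by exact_mod_cast hcc2
    have h3 : (2 : ℝ) ^ (4 * κ) ≤ n := by exact_mod_cast hn1
    have h4 : ((m' + 1 : ℕ) : ℝ) = n - c := by
      have : (c : ℝ) + ((m' + 1 : ℕ) : ℝ) = n := by exact_mod_cast hm'
      linarith
    rw [h4, sub_mul, one_mul]
    have h5 : (c : ℝ) ≤ 1 / 2 ^ e0 * n := by
      rw [div_mul_eq_mul_div, one_mul, le_div_iff₀ (by positivity)]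
      have h6 : (c : ℝ) * 2 ^ e0 ≤ 2 ^ (4 * κ - e0 - 1) * 2 ^ e0 :=
        mul_le_mul_of_nonneg_right h1 (by positivity)
      have h7 : (0 : ℝ) ≤ 2 ^ (4 * κ - e0 - 1) * 2 ^ e0 := by positivity
      linarith
    linarith
  · have h1 := card_free (l := l) (k := k) (k' := κ)
    have h2 := card_sg (l := l) (k := k) (k' := κ)
    have h3 := card_inr (l := l) (k := k) (k' := κ)
    set s1 := Nat.card {g : EE l k κ → Bool // sg g = 0}
    set s2 := Nat.card {g : EE l k κ → Bool // ∀ j, g (.inr j) = false}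
    have h1' : (2 : ℝ) ^ c ≤ F + s1 + s2 := by exact_mod_cast h1
    have h2' : (s1 : ℝ) * 2 ^ k ≤ 2 ^ c := by exact_mod_cast h2
    have h3' : (s2 : ℝ) * 2 ^ κ = 2 ^ c := by exact_mod_cast h3
    have h4 : (2 : ℝ) ^ κ = 2 ^ k * 2 ^ 16 := by
      rw [← pow_add]; congr 1; omega
    have h5 : (s1 : ℝ) ≤ 2 ^ 16 / 2 ^ κ * 2 ^ c := by
      rw [div_mul_eq_mul_div, le_div_iff₀ (by positivity), h4]
      nlinarith
    have h6 : (s2 : ℝ) ≤ 2 ^ 16 / 2 ^ κ * 2 ^ c := by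
      rw [div_mul_eq_mul_div, le_div_iff₀ (by positivity), h3']
      have : (0 : ℝ) < 2 ^ c := by positivity
      nlinarith
    have h7 : (2 : ℝ) ^ 17 / 2 ^ κ * 2 ^ c = 2 ^ 16 / 2 ^ κ * 2 ^ c + 2 ^ 16 / 2 ^ κ * 2 ^ c := by
      ring
    rw [sub_mul, one_mul, h7]
    linarith
  · have h1 : ((GoodF κ (m' + 1)).card : ℝ) ^ F ≤ (f n : ℝ) * (2 ^ m') ^ F := by
      have h2 : (GoodF κ (m' + 1)).card ^ F ≤ f n * (2 ^ m') ^ F :=
        hG.trans (Nat.mul_le_mul_right _ hL)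
      exact_mod_cast h2
    have h2 : ((((m' + 1 : ℕ) : ℝ) / Real.exp 1) ^ (2 ^ (m' + 1)) / 2 ^ (m' + 1)) ^ F *
        (2 ^ m') ^ F ≤ (f n : ℝ) * (2 ^ m') ^ F := by
      refine le_trans ?_ h1
      rw [← mul_pow]
      apply pow_le_pow_left₀ (by positivity)
      refine le_trans (le_of_eq ?_) hgood
      rw [pow_succ (2 : ℝ) m']
      field_simp
    exact le_of_mul_le_mul_right h2 (by positivity)

end Pool.Agent.KS6_27.HQ
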