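import Pool.Agent.KS6_27.HQ.Asg

/-!
# The union bound: translations which spread the classes
-/

set_option autoImplicit false

namespace Pool.Agent.KS6_27.HQ

open Pool.Agent.Helper886 Pool.Agent.Helper886.HCube Function

theorem flip_left_inj {ι : Type} [DecidableEq ι] {i j : ι} {x : ι → Bool}
    (h : HCube.flip i x = HCube.flip j x) : i = j := by
  by_contra hne
  have h1 := congrFun h i
  rw [flip_same, flip_ne hne] at h1
  cases h2 : x i <;> simp [h2] at h1

section

variable {l k k' : ℕ}

/-- the pairs of steps which lead from `g` to a layer at distance two -/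
def PP (l k : ℕ) (t : {t : Fin k → ZMod 2 // t ≠ 0}) : Finset ((Fin l → ZMod 2) × II l k) :=
  Finset.univ.filter (fun q => q.2 ≠ (q.1, t))

theorem mem_PP (t : {t : Fin k → ZMod 2 // t ≠ 0}) (q : (Fin l → ZMod 2) × II l k) :
    q ∈ PP l k t ↔ q.2 ≠ (q.1, t) := by
  unfold PP
  rw [Finset.mem_filter]
  exact ⟨fun h => h.2, fun h => ⟨Finset.mem_univ _, h⟩⟩

/-- the layer reached -/
def dest (g : EE l k k' → Bool) (t : {t : Fin k → ZMod 2 // t ≠ 0})
    (q : (Fin l → ZMod 2) × II l k) : EE l k k' → Bool :=
  HCube.flip (.inl q.2) (HCube.flip (.inl (q.1, t)) g)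

theorem mult_le (g : EE l k k' → Bool) (t : {t : Fin k → ZMod 2 // t ≠ 0})
    (g' : EE l k k' → Bool) : ((PP l k t).filter (fun q => dest g t q = g')).card ≤ 2 := by
  classical
  rcases ((PP l k t).filter (fun q => dest g t q = g')).eq_empty_or_nonempty with h | ⟨q0, hq0⟩
  · rw [h]; simp
  obtain ⟨ρ0, i0⟩ := q0
  have hsub : (PP l k t).filter (fun q => dest g t q = g') ⊆ {(ρ0, i0), (i0.1, (ρ0, t))} := by
    rintro ⟨ρ, i⟩ hq
    rw [Finset.mem_filter, mem_PP] at hq0 hq
    obtain ⟨h1, h2⟩ := hq0
    obtain ⟨h3, h4⟩ := hq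
    unfold dest at h2 h4
    simp only at h1 h2 h3 h4
    have h5 := h4.trans h2.symm
    rw [Finset.mem_insert, Finset.mem_singleton]
    by_cases hρ : ρ = ρ0
    · left
      subst hρ
      have := flip_left_inj h5
      rw [Sum.inl_injective this]
    · right
      have h6 : ((ρ, t) : II l k) = i0 := by
        by_contra hne
        have h7 := congrFun h5 (Sum.inl (ρ, t))
        rw [flip_ne (by intro h; exact h3 (Sum.inl_injective h).symm), flip_same,
          flip_ne (by intro h; exact hne (Sum.inl_injective h)),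
          flip_ne (by intro h; exact hρ (congrArg Prod.fst (Sum.inl_injective h)))] at h7
        cases h8 : g (Sum.inl (ρ, t)) <;> simp [h8] at h7
      rw [h6, flip_comm' (Sum.inl i0)] at h5
      have h7 := Sum.inl_injective (flip_left_inj h5)
      rw [h7, ← h6]
  exact (Finset.card_le_card hsub).trans Finset.card_le_two

theorem ub {Y : Type} [Fintype Y] [DecidableEq Y] [Nonempty Y] (tr : Y → Y → Y)
    (htr : ∀ y, Injective (fun a => tr a y)) (B0 : (EE l k k' → Bool) → Finset Y) (β : ℝ)
    (hβ : 0 ≤ β) (hB : ∀ g, ((B0 g).card : ℝ) ≤ β * Fintype.card Y) (k0 q4 : ℕ)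
    (hmain : (2 : ℝ) ^ (Fintype.card (EE l k k')) * 2 ^ k * (Fintype.card Y) *
      Real.exp (3 / 2 * β * (2 ^ l * Fintype.card (II l k))) < 2 ^ ((q4 + 1) * (k0 - 1))) :
    ∃ w : (EE l k k' → Bool) → Y, ∀ (g : EE l k k' → Bool) (t : {t : Fin k → ZMod 2 // t ≠ 0})
      (y : Y), (Finset.univ.filter (fun ρ : Fin l → ZMod 2 => k0 ≤ (Finset.univ.filter
        (fun i : II l k => tr (w (HCube.flip (.inl i) (HCube.flip (.inl (ρ, t)) g))) y ∈
          B0 (HCube.flip (.inl i) (HCube.flip (.inl (ρ, t)) g)))).card)).card ≤ q4 := by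
  classical
  by_contra hno
  push Not at hno
  let bad : ((EE l k k' → Bool) × {t : Fin k → ZMod 2 // t ≠ 0} × Y) →
      Finset ((EE l k k' → Bool) → Y) := fun j => Finset.univ.filter (fun w =>
    q4 < (Finset.univ.filter (fun ρ : Fin l → ZMod 2 => k0 ≤ (Finset.univ.filter
        (fun i : II l k => tr (w (HCube.flip (.inl i) (HCube.flip (.inl (ρ, j.2.1)) j.1))) j.2.2 ∈
          B0 (HCube.flip (.inl i) (HCube.flip (.inl (ρ, j.2.1)) j.1)))).card)).card)
  have hcov : (Finset.univ : Finset ((EE l k k' → Bool) → Y)) ⊆ Finset.univ.biUnion bad := by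
    intro w _
    obtain ⟨g, t, y, h⟩ := hno w
    rw [Finset.mem_biUnion]
    exact ⟨(g, t, y), Finset.mem_univ _, Finset.mem_filter.mpr ⟨Finset.mem_univ _, h⟩⟩
  set EX : ℝ := Real.exp (3 / 2 * β * (2 ^ l * Fintype.card (II l k))) with hEX
  set NN : ℝ := (Fintype.card Y : ℝ) ^ (Fintype.card (EE l k k' → Bool)) with hNN
  have hY0 : (0 : ℝ) < Fintype.card Y := by exact_mod_cast Fintype.card_pos
  have hNN0 : 0 < NN := by positivity
  -- one bad event
  have hone : ∀ j, ((bad j).card : ℝ) * 2 ^ ((q4 + 1) * (k0 - 1)) ≤ NN * EX := by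
    rintro ⟨g, t, y⟩
    let mult : (EE l k k' → Bool) → ℕ := fun g' =>
      ((PP l k t).filter (fun q => dest g t q = g')).card
    let X : ((EE l k k' → Bool) → Y) → ℕ := fun w =>
      ((PP l k t).filter (fun q => tr (w (dest g t q)) y ∈ B0 (dest g t q))).card
    -- lower bound for `X` on the bad event
    have hX : ∀ w ∈ bad (g, t, y), (q4 + 1) * (k0 - 1) ≤ X w := by
      intro w hw
      rw [Finset.mem_filter] at hw
      have hw2 := hw.2
      simp only at hw2
      set Bρ := Finset.univ.filter (fun ρ : Fin l → ZMod 2 => k0 ≤ (Finset.univ.filter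
        (fun i : II l k => tr (w (HCube.flip (.inl i) (HCube.flip (.inl (ρ, t)) g))) y ∈
          B0 (HCube.flip (.inl i) (HCube.flip (.inl (ρ, t)) g)))).card) with hBρ
      have h1 : ∑ ρ ∈ Bρ, (k0 - 1) ≤ X w := by
        have h2 : X w = ∑ ρ : Fin l → ZMod 2, ((((PP l k t).filter
            (fun q => tr (w (dest g t q)) y ∈ B0 (dest g t q))).filter
              (fun q => q.1 = ρ)).card) := by
          exact Finset.card_eq_sum_card_fiberwise (fun q _ => Finset.mem_univ q.1)
        rw [h2]
        refine le_trans ?_ (Finset.sum_le_sum_of_subset (Finset.subset_univ Bρ))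
        refine Finset.sum_le_sum ?_
        intro ρ hρ
        rw [hBρ, Finset.mem_filter] at hρ
        have h3 := hρ.2
        have h4 : ((Finset.univ.filter
          (fun i : II l k => tr (w (HCube.flip (.inl i) (HCube.flip (.inl (ρ, t)) g))) y ∈
          B0 (HCube.flip (.inl i) (HCube.flip (.inl (ρ, t)) g)))).erase (ρ, t)).card ≤
            ((((PP l k t).filter
            (fun q => tr (w (dest g t q)) y ∈ B0 (dest g t q))).filter
              (fun q => q.1 = ρ)).card) := by
          refine Finset.card_le_card_of_injOn (fun i => (ρ, i)) ?_ ?_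
          · intro i hi
            simp only [Finset.mem_coe, Finset.mem_erase, Finset.mem_filter, Finset.mem_univ,
              true_and] at hi
            rw [Finset.mem_coe, Finset.mem_filter, Finset.mem_filter, mem_PP]
            exact ⟨hi, rfl⟩
          · intro i _ i' _ h
            exact congrArg Prod.snd h
        refine le_trans ?_ h4
        have h5 := Finset.pred_card_le_card_erase (s := (Finset.univ.filter
          (fun i : II l k => tr (w (HCube.flip (.inl i) (HCube.flip (.inl (ρ, t)) g))) y ∈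
          B0 (HCube.flip (.inl i) (HCube.flip (.inl (ρ, t)) g))))) (a := (ρ, t))
        omega
      rw [Finset.sum_const, smul_eq_mul] at h1
      exact le_trans (Nat.mul_le_mul_right _ hw2) h1
    -- the exponential moment
    have hXprod : ∀ w, (2 : ℝ) ^ (X w) = ∏ g' : EE l k k' → Bool,
        (if tr (w g') y ∈ B0 g' then (2 : ℝ) ^ (mult g') else 1) := by
      intro w
      have h1 : X w = ∑ g' : EE l k k' → Bool, (if tr (w g') y ∈ B0 g' then mult g' else 0) := by
        have h2 : X w = ∑ g' : EE l k k' → Bool, ((((PP l k t).filter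
            (fun q => tr (w (dest g t q)) y ∈ B0 (dest g t q))).filter
              (fun q => dest g t q = g')).card) :=
          Finset.card_eq_sum_card_fiberwise (fun q _ => Finset.mem_univ _)
        rw [h2]
        refine Finset.sum_congr rfl ?_
        intro g' _
        rw [Finset.filter_filter]
        split_ifs with h3
        · congr 1
          ext q
          simp only [Finset.mem_filter]
          constructor
          · rintro ⟨a, _, c⟩; exact ⟨a, c⟩
          · rintro ⟨a, c⟩; exact ⟨a, by rw [c]; exact h3, c⟩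
        · rw [Finset.card_eq_zero, Finset.filter_eq_empty_iff]
          rintro q _ ⟨a, c⟩
          rw [c] at a
          exact h3 a
      rw [h1, ← Finset.prod_pow_eq_pow_sum]
      refine Finset.prod_congr rfl ?_
      intro g' _
      split_ifs <;> simp
    have hsum : ∑ w : (EE l k k' → Bool) → Y, (2 : ℝ) ^ (X w) ≤ NN * EX := by
      have h1 : ∑ w : (EE l k k' → Bool) → Y, (2 : ℝ) ^ (X w) =
          ∏ g' : EE l k k' → Bool, ∑ a : Y,
            (if tr a y ∈ B0 g' then (2 : ℝ) ^ (mult g') else 1) := by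
        rw [Finset.prod_univ_sum, Fintype.piFinset_univ]
        exact Finset.sum_congr rfl (fun w _ => hXprod w)
      rw [h1]
      have h2 : ∀ g' : EE l k k' → Bool, ∑ a : Y,
          (if tr a y ∈ B0 g' then (2 : ℝ) ^ (mult g') else 1) ≤
          (Fintype.card Y : ℝ) * Real.exp (3 / 2 * β * mult g') := by
        intro g'
        have h3 : ∀ a : Y, (if tr a y ∈ B0 g' then (2 : ℝ) ^ (mult g') else 1) =
            1 + (if tr a y ∈ B0 g' then ((2 : ℝ) ^ (mult g') - 1) else 0) := by
          intro a; split_ifs <;> ring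
        rw [Finset.sum_congr rfl (fun a _ => h3 a), Finset.sum_add_distrib, Finset.sum_const,
          Finset.card_univ, nsmul_eq_mul, mul_one, ← Finset.sum_filter, Finset.sum_const,
          nsmul_eq_mul]
        have h4 : ((Finset.univ.filter (fun a => tr a y ∈ B0 g')).card : ℝ) ≤
            β * Fintype.card Y := by
          refine le_trans ?_ (hB g')
          have h5 : (Finset.univ.filter (fun a => tr a y ∈ B0 g')).card ≤ (B0 g').card := by
            refine Finset.card_le_card_of_injOn (fun a => tr a y) ?_ ?_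
            · intro a ha
              simpa using ha
            · intro a _ b _ hab
              exact htr y hab
          exact_mod_cast h5
        have h5 : (2 : ℝ) ^ (mult g') - 1 ≤ 3 / 2 * mult g' := by
          have h6 : mult g' ≤ 2 := mult_le g t g'
          interval_cases h7 : mult g' <;> norm_num
        have h6 : (0 : ℝ) ≤ 2 ^ (mult g') - 1 := by
          have : (1 : ℝ) ≤ 2 ^ (mult g') := one_le_pow₀ (by norm_num)
          linarith
        have h7 : ((Finset.univ.filter (fun a => tr a y ∈ B0 g')).card : ℝ) *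
            (2 ^ (mult g') - 1) ≤ β * Fintype.card Y * (3 / 2 * mult g') :=
          mul_le_mul h4 h5 h6 (by positivity)
        have h8 : 3 / 2 * β * (mult g' : ℝ) + 1 ≤ Real.exp (3 / 2 * β * mult g') :=
          Real.add_one_le_exp _
        calc (Fintype.card Y : ℝ) + ((Finset.univ.filter (fun a => tr a y ∈ B0 g')).card : ℝ) *
            (2 ^ (mult g') - 1) ≤ Fintype.card Y + β * Fintype.card Y * (3 / 2 * mult g') := by
              linarith
          _ = Fintype.card Y * (3 / 2 * β * (mult g' : ℝ) + 1) := by ring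
          _ ≤ _ := mul_le_mul_of_nonneg_left h8 hY0.le
      have h3 : ∏ g' : EE l k k' → Bool, ∑ a : Y,
            (if tr a y ∈ B0 g' then (2 : ℝ) ^ (mult g') else 1) ≤
          ∏ g' : EE l k k' → Bool, ((Fintype.card Y : ℝ) * Real.exp (3 / 2 * β * mult g')) := by
        refine Finset.prod_le_prod ?_ (fun g' _ => h2 g')
        intro g' _
        refine Finset.sum_nonneg ?_
        intro a _
        split_ifs <;> positivity
      refine h3.trans ?_
      rw [Finset.prod_mul_distrib, Finset.prod_const, Finset.card_univ, ← Real.exp_sum,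
        ← Finset.mul_sum]
      refine mul_le_mul_of_nonneg_left ?_ hNN0.le
      rw [hEX]
      apply Real.exp_le_exp.mpr
      refine mul_le_mul_of_nonneg_left ?_ (by positivity)
      have h4 : ∑ g' : EE l k k' → Bool, mult g' = (PP l k t).card :=
        (Finset.card_eq_sum_card_fiberwise (fun q _ => Finset.mem_univ _)).symm
      have h5 : (PP l k t).card ≤ 2 ^ l * Fintype.card (II l k) := by
        refine (Finset.card_filter_le _ _).trans ?_
        rw [Finset.card_univ, Fintype.card_prod]
        simp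
      rw [← Nat.cast_sum, h4]
      exact_mod_cast h5
    calc ((bad (g, t, y)).card : ℝ) * 2 ^ ((q4 + 1) * (k0 - 1))
        = ∑ w ∈ bad (g, t, y), (2 : ℝ) ^ ((q4 + 1) * (k0 - 1)) := by
          rw [Finset.sum_const, nsmul_eq_mul]
      _ ≤ ∑ w ∈ bad (g, t, y), (2 : ℝ) ^ (X w) := by
          refine Finset.sum_le_sum ?_
          intro w hw
          exact pow_le_pow_right₀ (by norm_num) (hX w hw)
      _ ≤ ∑ w : (EE l k k' → Bool) → Y, (2 : ℝ) ^ (X w) :=
          Finset.sum_le_sum_of_subset_of_nonneg (Finset.subset_univ _) (fun _ _ _ => by positivity)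
      _ ≤ NN * EX := hsum
  -- the union
  have htot : NN ≤ ∑ j, ((bad j).card : ℝ) := by
    have h1 := (Finset.card_le_card hcov).trans Finset.card_biUnion_le
    rw [Finset.card_univ, Fintype.card_fun] at h1
    rw [hNN]
    exact_mod_cast h1
  have hP0 : (0 : ℝ) < 2 ^ ((q4 + 1) * (k0 - 1)) := by positivity
  have h1 : NN * 2 ^ ((q4 + 1) * (k0 - 1)) ≤
      ∑ j : ((EE l k k' → Bool) × {t : Fin k → ZMod 2 // t ≠ 0} × Y), NN * EX := by
    calc NN * 2 ^ ((q4 + 1) * (k0 - 1)) ≤ (∑ j, ((bad j).card : ℝ)) * 2 ^ ((q4 + 1) * (k0 - 1)) :=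
          mul_le_mul_of_nonneg_right htot hP0.le
      _ = ∑ j, ((bad j).card : ℝ) * 2 ^ ((q4 + 1) * (k0 - 1)) := by rw [Finset.sum_mul]
      _ ≤ _ := Finset.sum_le_sum (fun j _ => hone j)
  rw [Finset.sum_const, Finset.card_univ, nsmul_eq_mul] at h1
  have h2 : (Fintype.card ((EE l k k' → Bool) × {t : Fin k → ZMod 2 // t ≠ 0} × Y) : ℝ) ≤
      2 ^ (Fintype.card (EE l k k')) * 2 ^ k * Fintype.card Y := by
    rw [Fintype.card_prod, Fintype.card_prod]
    have h3 : Fintype.card (EE l k k' → Bool) = 2 ^ (Fintype.card (EE l k k')) := by simp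
    have h4 : Fintype.card {t : Fin k → ZMod 2 // t ≠ 0} ≤ 2 ^ k := by
      refine (Fintype.card_subtype_le _).trans ?_
      simp
    rw [h3]
    push_cast
    rw [mul_assoc]
    have h5 : (Fintype.card {t : Fin k → ZMod 2 // t ≠ 0} : ℝ) ≤ 2 ^ k := by exact_mod_cast h4
    exact mul_le_mul_of_nonneg_left (mul_le_mul_of_nonneg_right h5 hY0.le) (by positivity)
  have hEX0 : 0 < EX := Real.exp_pos _
  have h3 : NN * 2 ^ ((q4 + 1) * (k0 - 1)) ≤
      NN * (2 ^ (Fintype.card (EE l k k')) * 2 ^ k * Fintype.card Y * EX) := by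
    refine h1.trans ?_
    calc (Fintype.card ((EE l k k' → Bool) × {t : Fin k → ZMod 2 // t ≠ 0} × Y) : ℝ) * (NN * EX)
        ≤ (2 ^ (Fintype.card (EE l k k')) * 2 ^ k * Fintype.card Y) * (NN * EX) :=
          mul_le_mul_of_nonneg_right h2 (by positivity)
      _ = _ := by ring
  have h4 := le_of_mul_le_mul_left h3 hNN0
  exact absurd hmain (not_lt.mpr h4)

end

end Pool.Agent.KS6_27.HQ
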