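import Pool.Agent.KS6_27.HQ.GoodN
import Pool.Agent.KS6_27.HQ.Base
import Pool.Agent.KS6_27.HQ.UB

/-!
# The lower bound for the number of Hamiltonian circuits
-/

set_option autoImplicit false

namespace Pool.Agent.KS6_27.HQ

open Pool.Agent.Helper886 Pool.Agent.Helper886.HCube Function

/-- translation by `c` -/
def xr {n : ℕ} (c x : Fin n → Bool) : Fin n → Bool := fun j => xor (c j) (x j)

theorem xr_xr {n : ℕ} (c x : Fin n → Bool) : xr c (xr c x) = x := by
  funext j
  simp [xr]

theorem xr_inj_left {n : ℕ} (x : Fin n → Bool) : Injective (fun c => xr c x) := by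
  intro c c' h
  funext j
  have := congrFun h j
  simp only [xr] at this
  cases h1 : x j <;> cases h2 : c j <;> cases h3 : c' j <;> simp_all

theorem xr_flip {n : ℕ} (c x : Fin n → Bool) (i : Fin n) :
    xr c (HCube.flip i x) = HCube.flip i (xr c x) := by
  funext j
  by_cases h : j = i
  · subst h
    rw [flip_same]
    simp only [xr, flip_same]
    cases c j <;> cases x j <;> rfl
  · rw [flip_ne h]
    simp only [xr, flip_ne h]

theorem cell_xr {n : ℕ} (a : Fin n → Bool) (x : Fin (n + 1) → Bool) :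
    cell (xr (Fin.cons false a) x) = xr a (cell x) := by
  funext j
  simp [cell, xr]

/-- conjugation by a translation -/
def cj {n : ℕ} (c : Fin n → Bool) (l : (Fin n → Bool) → (Fin n → Bool)) :
    (Fin n → Bool) → (Fin n → Bool) := fun x => xr c (l (xr c x))

theorem cj_cj {n : ℕ} (c : Fin n → Bool) (l : (Fin n → Bool) → (Fin n → Bool)) :
    cj c (cj c l) = l := by
  funext x
  simp only [cj, xr_xr]

theorem cj_mat {n : ℕ} (c : Fin n → Bool) {l : (Fin n → Bool) → (Fin n → Bool)} (hl : IsMat l) :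
    IsMat (cj c l) := by
  refine ⟨?_, ?_⟩
  · intro x
    simp only [cj, xr_xr, hl.1]
  · intro x
    obtain ⟨i, hi⟩ := hl.2 (xr c x)
    refine ⟨i, ?_⟩
    simp only [cj]
    rw [hi, xr_flip, xr_xr]

theorem cj_reach {n : ℕ} (c : Fin n → Bool) {M R : (Fin n → Bool) → (Fin n → Bool)}
    {x y : Fin n → Bool} (h : Reach M R x y) : Reach (cj c M) (cj c R) (xr c x) (xr c y) := by
  induction h with
  | refl => exact .refl
  | tail _ h ih =>
    refine ih.tail ?_
    rcases h with h | h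
    · left; rw [h]; simp only [cj, xr_xr]
    · right; rw [h]; simp only [cj, xr_xr]

section

variable {l k k' : ℕ}

/-- light families of pairs of matchings on the free layers -/
def Lt (m k0 q4 : ℕ) (P : {g : EE l k k' → Bool // ¬ TT g} →
    ((Fin (m + 1) → Bool) → (Fin (m + 1) → Bool)) × ((Fin (m + 1) → Bool) → (Fin (m + 1) → Bool))) :
    Prop :=
  (∀ g, IsMat (P g).1 ∧ IsMat (P g).2) ∧
  ∃ (U : (EE l k k' → Bool) → Finset (Fin (m + 1) → Bool))
    (B : (EE l k k' → Bool) → Finset (Fin m → Bool)),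
    (∀ g (h : ¬ TT g), ∀ u ∈ U g, (P ⟨g, h⟩).1 u ∉ U g) ∧
    (∀ g (h : ¬ TT g), ∀ x, ∃ u ∈ U g, Reach (P ⟨g, h⟩).1 (P ⟨g, h⟩).2 x u) ∧
    (∀ g (h : ¬ TT g), ∀ u ∈ U g, cell u ∈ B g ∧ cell ((P ⟨g, h⟩).1 u) ∈ B g) ∧
    ∀ (g : EE l k k' → Bool) (t : {t : Fin k → ZMod 2 // t ≠ 0}) (y : Fin m → Bool),
      (Finset.univ.filter (fun ρ : Fin l → ZMod 2 => k0 ≤ (Finset.univ.filter (fun i : II l k =>
        y ∈ B (HCube.flip (.inl i) (HCube.flip (.inl (ρ, t)) g)))).card)).card ≤ q4

theorem card_Lt_le {m n : ℕ} (k0 q4 K : ℕ) (e0 : EE l k k') (hK : 0 < K)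
    (hK4 : 4 * (8 * k0) ≤ K) (hK2 : K + 2 * q4 + 4 ≤ 2 ^ l)
    (hζ : Fintype.card (EE l k k' × (Fin l → ZMod 2)) ≤ 2 ^ m)
    (e : EE l k k' ⊕ Fin (m + 1) ≃ Fin n) :
    Nat.card {P : {g : EE l k k' → Bool // ¬ TT g} →
    ((Fin (m + 1) → Bool) → (Fin (m + 1) → Bool)) × ((Fin (m + 1) → Bool) → (Fin (m + 1) → Bool)) //
      Lt m k0 q4 P} ≤ f n := by
  classical
  have hemb : ∃ ζ : EE l k k' × (Fin l → ZMod 2) → (Fin m → Bool), Injective ζ := by
    have h1 : Fintype.card (EE l k k' × (Fin l → ZMod 2)) ≤ Fintype.card (Fin m → Bool) := by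
      have h2 : Fintype.card (Fin m → Bool) = 2 ^ m := by simp
      rw [h2]; exact hζ
    obtain ⟨ζ⟩ := Function.Embedding.nonempty_of_card_le h1
    exact ⟨ζ, ζ.injective⟩
  obtain ⟨ζ, hζi⟩ := hemb
  let ext1 : ({g : EE l k k' → Bool // ¬ TT g} →
    ((Fin (m + 1) → Bool) → (Fin (m + 1) → Bool)) × ((Fin (m + 1) → Bool) → (Fin (m + 1) → Bool))) →
    (EE l k k' → Bool) → (Fin (m + 1) → Bool) → (Fin (m + 1) → Bool) := fun P g =>
      if h : ¬ TT g then (P ⟨g, h⟩).1 else HCube.flip 0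
  let ext2 : ({g : EE l k k' → Bool // ¬ TT g} →
    ((Fin (m + 1) → Bool) → (Fin (m + 1) → Bool)) × ((Fin (m + 1) → Bool) → (Fin (m + 1) → Bool))) →
    (EE l k k' → Bool) → (Fin (m + 1) → Bool) → (Fin (m + 1) → Bool) := fun P g =>
      if h : ¬ TT g then (P ⟨g, h⟩).2 else HCube.flip 0
  have he1 : ∀ P g (h : ¬ TT g), ext1 P g = (P ⟨g, h⟩).1 := by
    intro P g h
    simp only [ext1, h, dif_pos, not_false_eq_true]
  have he2 : ∀ P g (h : ¬ TT g), ext2 P g = (P ⟨g, h⟩).2 := by
    intro P g h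
    simp only [ext2, h, dif_pos, not_false_eq_true]
  have hm1 : ∀ P, Lt m k0 q4 P → ∀ g, IsMat (ext1 P g) := by
    intro P hP g
    by_cases h : ¬ TT g
    · rw [he1 P g h]; exact (hP.1 _).1
    · simp only [ext1, h, dif_neg, not_false_eq_true]
      exact isMat_flip 0
  have hm2 : ∀ P, Lt m k0 q4 P → ∀ g, IsMat (ext2 P g) := by
    intro P hP g
    by_cases h : ¬ TT g
    · rw [he2 P g h]; exact (hP.1 _).2
    · simp only [ext2, h, dif_neg, not_false_eq_true]
      exact isMat_flip 0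
  have hb : ∀ P : {P : {g : EE l k k' → Bool // ¬ TT g} →
      ((Fin (m + 1) → Bool) → (Fin (m + 1) → Bool)) × ((Fin (m + 1) → Bool) → (Fin (m + 1) → Bool)) //
      Lt m k0 q4 P}, ∃ L N : VX (EE l k k') m → VX (EE l k k') m, (∀ v, L (L v) = v) ∧
      (∀ v, N (N v) = v) ∧ (∀ v, AdjX v (L v)) ∧
      (∀ v, ∃ i, N v = (v.1, HCube.flip i v.2)) ∧
      (∀ g x, ¬ TT g → N (g, x) = (g, ext2 P.1 g x)) ∧
      (∀ v w, Reach L N v w) ∧ ∀ g x, ¬ TT g → rec' L (g, x) = ext1 P.1 g x := by
    rintro ⟨P, hP⟩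
    have hP' := hP
    obtain ⟨hmat, U, B, hU1, hU2, hB, hlt⟩ := hP
    refine build e0 k0 q4 K hK hK4 hK2 ζ hζi (ext1 P) (ext2 P) U B (fun g => (hm1 P hP' g).1)
      (fun g => (hm1 P hP' g).2) (fun g => (hm2 P hP' g).1) (fun g => (hm2 P hP' g).2) ?_ ?_ ?_ hlt
    · intro g h u hu
      rw [he1 P g h]
      exact hU1 g h u hu
    · intro g h x
      rw [he1 P g h, he2 P g h]
      exact hU2 g h x
    · intro g h u hu
      rw [he1 P g h]
      exact hB g h u hu
  choose L N h1 h2 h3 h4 h5 h6 h7 using hb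
  refine card_le_f e ⟨e0⟩ L N h1 h2 h3 h4 h6 ?_
  intro P P' hL hN
  apply Subtype.ext
  funext g
  obtain ⟨g, hg⟩ := g
  apply Prod.ext
  · funext x
    have a1 := h7 P g x hg
    have a2 := h7 P' g x hg
    rw [hL, a2, he1 _ g hg, he1 _ g hg] at a1
    exact a1.symm
  · funext x
    have a1 := h5 P g x hg
    have a2 := h5 P' g x hg
    rw [hN, a2, he2 _ g hg, he2 _ g hg] at a1
    exact (congrArg Prod.snd a1).symm

theorem card_good_le {m : ℕ} (κ k0 q4 : ℕ) (hκm : κ ≤ m + 1)
    (hmain : (2 : ℝ) ^ (Fintype.card (EE l k k')) * 2 ^ k * 2 ^ m *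
      Real.exp (3 / 2 * (4 / 2 ^ κ) * (2 ^ l * Fintype.card (II l k))) < 2 ^ ((q4 + 1) * (k0 - 1))) :
    (GoodF κ (m + 1)).card ^ (Nat.card {g : EE l k k' → Bool // ¬ TT g}) ≤
      Nat.card {P : {g : EE l k k' → Bool // ¬ TT g} →
    ((Fin (m + 1) → Bool) → (Fin (m + 1) → Bool)) × ((Fin (m + 1) → Bool) → (Fin (m + 1) → Bool)) //
      Lt m k0 q4 P} * (2 ^ m) ^ (Nat.card {g : EE l k k' → Bool // ¬ TT g}) := by
  classical
  -- the data of a good pair
  have hUex : ∀ p : ((Fin (m + 1) → Bool) → (Fin (m + 1) → Bool)) ×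
      ((Fin (m + 1) → Bool) → (Fin (m + 1) → Bool)), ∃ U : Finset (Fin (m + 1) → Bool),
      p ∈ GoodF κ (m + 1) → U.card < 2 ^ (m + 1 - κ) ∧ (∀ u ∈ U, p.1 u ∉ U) ∧
      ∀ x, ∃ u ∈ U, Reach p.1 p.2 x u := by
    intro p
    by_cases hp : p ∈ GoodF κ (m + 1)
    · obtain ⟨_, _, U, hU⟩ := mem_GoodF.mp hp
      exact ⟨U, fun _ => hU⟩
    · exact ⟨∅, fun h => absurd h hp⟩
  choose Uf hUf using hUex
  let Fr := {g : EE l k k' → Bool // ¬ TT g}
  let GG := {p : ((Fin (m + 1) → Bool) → (Fin (m + 1) → Bool)) ×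
      ((Fin (m + 1) → Bool) → (Fin (m + 1) → Bool)) // p ∈ GoodF κ (m + 1)}
  -- the sets of cells
  let B0 : (Fr → GG) → (EE l k k' → Bool) → Finset (Fin m → Bool) := fun P g =>
    if h : ¬ TT g then (Uf (P ⟨g, h⟩).1).image cell ∪
      (Uf (P ⟨g, h⟩).1).image (fun u => cell ((P ⟨g, h⟩).1.1 u)) else ∅
  have hB0c : ∀ P g, ((B0 P g).card : ℝ) ≤ (4 / 2 ^ κ) * Fintype.card (Fin m → Bool) := by
    intro P g
    have h1 : Fintype.card (Fin m → Bool) = 2 ^ m := by simp
    rw [h1]
    push_cast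
    by_cases h : ¬ TT g
    · have h2 : B0 P g = (Uf (P ⟨g, h⟩).1).image cell ∪
          (Uf (P ⟨g, h⟩).1).image (fun u => cell ((P ⟨g, h⟩).1.1 u)) := by
        simp only [B0, h, dif_pos, not_false_eq_true]
      have h3 := (hUf _ (P ⟨g, h⟩).2).1
      have h4 : (B0 P g).card ≤ 2 * 2 ^ (m + 1 - κ) := by
        rw [h2]
        refine (Finset.card_union_le _ _).trans ?_
        have h5 := Finset.card_image_le (s := Uf (P ⟨g, h⟩).1) (f := cell)
        have h6 := Finset.card_image_le (s := Uf (P ⟨g, h⟩).1)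
          (f := fun u => cell ((P ⟨g, h⟩).1.1 u))
        omega
      have h5 : ((B0 P g).card : ℝ) ≤ 2 * 2 ^ (m + 1 - κ) := by exact_mod_cast h4
      refine h5.trans (le_of_eq ?_)
      rw [div_mul_eq_mul_div, eq_div_iff (by positivity)]
      have h6 : (2 : ℝ) ^ (m + 1 - κ) * 2 ^ κ = 2 ^ (m + 1) := by
        rw [← pow_add]; congr 1; omega
      rw [mul_assoc, h6]
      ring
    · have h2 : B0 P g = ∅ := by
        simp only [B0, h, dif_neg, not_false_eq_true]
      rw [h2]
      simp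
  have hw : ∀ P : Fr → GG, ∃ w : (EE l k k' → Bool) → (Fin m → Bool),
      ∀ (g : EE l k k' → Bool) (t : {t : Fin k → ZMod 2 // t ≠ 0})
      (y : Fin m → Bool), (Finset.univ.filter (fun ρ : Fin l → ZMod 2 => k0 ≤ (Finset.univ.filter
        (fun i : II l k => xr (w (HCube.flip (.inl i) (HCube.flip (.inl (ρ, t)) g))) y ∈
          B0 P (HCube.flip (.inl i) (HCube.flip (.inl (ρ, t)) g)))).card)).card ≤ q4 := by
    intro P
    refine ub xr xr_inj_left (B0 P) (4 / 2 ^ κ) (by positivity) (hB0c P) k0 q4 ?_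
    have h1 : (Fintype.card (Fin m → Bool) : ℝ) = 2 ^ m := by simp
    rw [h1]
    exact hmain
  choose w hw using hw
  let cc : (Fr → GG) → Fr → (Fin (m + 1) → Bool) := fun P g => Fin.cons false (w P g.1)
  let T : (Fr → GG) → Fr → ((Fin (m + 1) → Bool) → (Fin (m + 1) → Bool)) ×
      ((Fin (m + 1) → Bool) → (Fin (m + 1) → Bool)) := fun P g =>
    (cj (cc P g) (P g).1.1, cj (cc P g) (P g).1.2)
  have hT : ∀ P, Lt m k0 q4 (T P) := by
    intro P
    refine ⟨?_, ?_⟩
    · intro g
      have h1 := mem_GoodF.mp (P g).2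
      exact ⟨cj_mat _ h1.1, cj_mat _ h1.2.1⟩
    · let U : (EE l k k' → Bool) → Finset (Fin (m + 1) → Bool) := fun g =>
        if h : ¬ TT g then (Uf (P ⟨g, h⟩).1).image (xr (cc P ⟨g, h⟩)) else ∅
      have hU : ∀ g (h : ¬ TT g), U g = (Uf (P ⟨g, h⟩).1).image (xr (cc P ⟨g, h⟩)) := by
        intro g h
        simp only [U, h, dif_pos, not_false_eq_true]
      let B : (EE l k k' → Bool) → Finset (Fin m → Bool) := fun g => (B0 P g).image (xr (w P g))
      have hBmem : ∀ g y, y ∈ B g ↔ xr (w P g) y ∈ B0 P g := by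
        intro g y
        simp only [B, Finset.mem_image]
        constructor
        · rintro ⟨z, hz, rfl⟩; rw [xr_xr]; exact hz
        · intro h; exact ⟨_, h, xr_xr _ _⟩
      refine ⟨U, B, ?_, ?_, ?_, ?_⟩
      · intro g h u hu hu2
        rw [hU g h] at hu hu2
        obtain ⟨v, hv, rfl⟩ := Finset.mem_image.mp hu
        obtain ⟨v', hv', h2⟩ := Finset.mem_image.mp hu2
        have h3 : xr (cc P ⟨g, h⟩) v' = xr (cc P ⟨g, h⟩) ((P ⟨g, h⟩).1.1 v) := by
          rw [h2]
          show cj _ _ _ = _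
          simp only [cj, xr_xr]
        have h4 : v' = (P ⟨g, h⟩).1.1 v := by
          rw [← xr_xr (cc P ⟨g, h⟩) v', h3, xr_xr]
        exact (hUf _ (P ⟨g, h⟩).2).2.1 v hv (h4 ▸ hv')
      · intro g h x
        obtain ⟨u, hu, hr⟩ := (hUf _ (P ⟨g, h⟩).2).2.2 (xr (cc P ⟨g, h⟩) x)
        refine ⟨xr (cc P ⟨g, h⟩) u, ?_, ?_⟩
        · rw [hU g h]
          exact Finset.mem_image_of_mem _ hu
        · have := cj_reach (cc P ⟨g, h⟩) hr
          rw [xr_xr] at this
          exact this
      · intro g h u hu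
        rw [hU g h] at hu
        obtain ⟨v, hv, rfl⟩ := Finset.mem_image.mp hu
        have h2 : B0 P g = (Uf (P ⟨g, h⟩).1).image cell ∪
          (Uf (P ⟨g, h⟩).1).image (fun u => cell ((P ⟨g, h⟩).1.1 u)) := by
          simp only [B0, h, dif_pos, not_false_eq_true]
        rw [hBmem, hBmem, h2]
        refine ⟨?_, ?_⟩
        · show xr (w P g) (cell (xr (Fin.cons false (w P g)) v)) ∈ _
          rw [cell_xr, xr_xr]
          exact Finset.mem_union_left _ (Finset.mem_image_of_mem _ hv)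
        · show xr (w P g) (cell (cj (Fin.cons false (w P g)) _
            (xr (Fin.cons false (w P g)) v))) ∈ _
          simp only [cj, xr_xr]
          rw [cell_xr, xr_xr]
          exact Finset.mem_union_right _ (Finset.mem_image.mpr ⟨v, hv, rfl⟩)
      · intro g t y
        refine le_trans (le_of_eq ?_) (hw P g t y)
        congr 1
        ext ρ
        simp only [Finset.mem_filter, Finset.mem_univ, true_and, hBmem]
  -- the injection
  let Φ : (Fr → GG) → {P : Fr →
    ((Fin (m + 1) → Bool) → (Fin (m + 1) → Bool)) × ((Fin (m + 1) → Bool) → (Fin (m + 1) → Bool)) //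
      Lt m k0 q4 P} × (Fr → (Fin m → Bool)) := fun P => (⟨T P, hT P⟩, fun g => w P g.1)
  have hΦ : Injective Φ := by
    intro P P' h
    have h1 : T P = T P' := congrArg (fun z => z.1.1) h
    have h2 : (fun g : Fr => w P g.1) = (fun g : Fr => w P' g.1) := congrArg (fun z => z.2) h
    funext g
    apply Subtype.ext
    have h3 := congrFun h1 g
    have h4 : cc P g = cc P' g := by
      have h9 : w P g.1 = w P' g.1 := congrFun h2 g
      simp only [cc, h9]
    simp only [T, h4] at h3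
    have h5 : cj (cc P' g) (P g).1.1 = cj (cc P' g) (P' g).1.1 := congrArg Prod.fst h3
    have h6 : cj (cc P' g) (P g).1.2 = cj (cc P' g) (P' g).1.2 := congrArg Prod.snd h3
    apply Prod.ext
    · rw [← cj_cj (cc P' g) (P g).1.1, h5, cj_cj]
    · rw [← cj_cj (cc P' g) (P g).1.2, h6, cj_cj]
  have h1 := Nat.card_le_card_of_injective Φ hΦ
  rw [Nat.card_prod, Nat.card_fun, Nat.card_fun] at h1
  have h2 : Nat.card GG = (GoodF κ (m + 1)).card := by
    rw [Nat.card_eq_fintype_card]
    exact Fintype.card_coe _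
  have h3 : Nat.card (Fin m → Bool) = 2 ^ m := by simp
  rw [h2, h3] at h1
  exact h1

/-- the number of the free layers -/
theorem card_free : 2 ^ (Fintype.card (EE l k k')) ≤
    Nat.card {g : EE l k k' → Bool // ¬ TT g} +
      Nat.card {g : EE l k k' → Bool // sg g = 0} +
      Nat.card {g : EE l k k' → Bool // ∀ j, g (.inr j) = false} := by
  classical
  rw [Nat.card_eq_fintype_card, Nat.card_eq_fintype_card, Nat.card_eq_fintype_card,
    Fintype.card_subtype, Fintype.card_subtype, Fintype.card_subtype]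
  have h1 : (Finset.univ : Finset (EE l k k' → Bool)) ⊆
      (Finset.univ.filter (fun g : EE l k k' → Bool => ¬ TT g) ∪
        Finset.univ.filter (fun g : EE l k k' → Bool => sg g = 0)) ∪
        Finset.univ.filter (fun g : EE l k k' → Bool => ∀ j, g (.inr j) = false) := by
    intro g hg
    by_cases h : TT g
    · rcases h with h | h
      · exact Finset.mem_union_left _ (Finset.mem_union_right _ (Finset.mem_filter.mpr ⟨hg, h⟩))
      · exact Finset.mem_union_right _ (Finset.mem_filter.mpr ⟨hg, h⟩)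
    · exact Finset.mem_union_left _ (Finset.mem_union_left _ (Finset.mem_filter.mpr ⟨hg, h⟩))
  have h2 := Finset.card_le_card h1
  have h3 : (Finset.univ : Finset (EE l k k' → Bool)).card = 2 ^ (Fintype.card (EE l k k')) := by
    rw [Finset.card_univ]; simp
  rw [h3] at h2
  have h4 := Finset.card_union_le (Finset.univ.filter (fun g : EE l k k' → Bool => ¬ TT g) ∪
        Finset.univ.filter (fun g : EE l k k' → Bool => sg g = 0))
        (Finset.univ.filter (fun g : EE l k k' → Bool => ∀ j, g (.inr j) = false))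
  have h5 := Finset.card_union_le (Finset.univ.filter (fun g : EE l k k' → Bool => ¬ TT g))
        (Finset.univ.filter (fun g : EE l k k' → Bool => sg g = 0))
  omega

theorem card_sg : Nat.card {g : EE l k k' → Bool // sg g = 0} * 2 ^ k ≤
    2 ^ (Fintype.card (EE l k k')) := by
  classical
  have h1 : ∀ t : Fin k → ZMod 2, (Finset.univ.filter (fun g : EE l k k' → Bool => sg g = 0)).card ≤
      (Finset.univ.filter (fun g : EE l k k' → Bool => sg g = t)).card := by
    intro t
    by_cases ht : t = 0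
    · subst ht; exact le_rfl
    · refine Finset.card_le_card_of_injOn (HCube.flip (.inl ((0 : Fin l → ZMod 2), ⟨t, ht⟩))) ?_ ?_
      · intro g hg
        simp only [Finset.coe_filter, Finset.mem_univ, true_and, Set.mem_ofPred_eq] at hg ⊢
        unfold sg at hg ⊢
        rw [SS_flip_inl zz2, hg, zero_add]
      · intro g _ g' _ h
        exact flip_inj h
  have h2 : (Finset.univ : Finset (EE l k k' → Bool)).card =
      ∑ t : Fin k → ZMod 2, (Finset.univ.filter (fun g : EE l k k' → Bool => sg g = t)).card :=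
    Finset.card_eq_sum_card_fiberwise (fun g _ => Finset.mem_univ _)
  have h3 : (Finset.univ : Finset (EE l k k' → Bool)).card = 2 ^ (Fintype.card (EE l k k')) := by
    rw [Finset.card_univ]; simp
  rw [← h3, h2, Nat.card_eq_fintype_card, Fintype.card_subtype]
  calc (Finset.univ.filter (fun g : EE l k k' → Bool => sg g = 0)).card * 2 ^ k
      = ∑ _t : Fin k → ZMod 2, (Finset.univ.filter (fun g : EE l k k' → Bool => sg g = 0)).card := by
        rw [Finset.sum_const, Finset.card_univ, smul_eq_mul, mul_comm]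
        simp
    _ ≤ _ := Finset.sum_le_sum (fun t _ => h1 t)

theorem card_inr : Nat.card {g : EE l k k' → Bool // ∀ j, g (.inr j) = false} * 2 ^ k' =
    2 ^ (Fintype.card (EE l k k')) := by
  classical
  have h1 : Nat.card {g : EE l k k' → Bool // ∀ j, g (.inr j) = false} =
      2 ^ (Fintype.card (II l k)) := by
    have e : {g : EE l k k' → Bool // ∀ j, g (.inr j) = false} ≃ (II l k → Bool) :=
      { toFun := fun g i => g.1 (.inl i)
        invFun := fun h => ⟨Sum.elim h (fun _ => false), fun _ => rfl⟩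
        left_inv := by
          rintro ⟨g, hg⟩
          apply Subtype.ext
          funext j
          rcases j with j | j
          · rfl
          · exact (hg j).symm
        right_inv := fun _ => rfl }
    rw [Nat.card_congr e]
    simp
  rw [h1, ← pow_add]
  congr 1
  rw [Fintype.card_sum, Fintype.card_fin]

end

end Pool.Agent.KS6_27.HQ
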